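import Pool.Agent.H9.TreeDef

/-! Basic facts on automorphisms of the rooted binary tree. -/

namespace Pool.Agent.H9

@[simp] theorem treeAut_nil (A : Set (List Bool)) : treeAut A [] = [] := by
  simp [treeAut]

@[simp] theorem length_treeAut (A : Set (List Bool)) (w : List Bool) :
    (treeAut A w).length = w.length := by
  simp [treeAut]

open Classical in
theorem treeAut_snoc (A : Set (List Bool)) (w : List Bool) (b : Bool) :
    treeAut A (w ++ [b]) = treeAut A w ++ [if w ∈ A then !b else b] := by
  unfold treeAut
  apply List.ext_getElem
  · simp
  · intro i h1 h2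
    simp only [List.getElem_mapIdx]
    by_cases hi : i < w.length
    · rw [List.getElem_append_left hi]
      rw [List.getElem_append_left (by simpa using hi)]
      simp only [List.getElem_mapIdx]
      rw [List.take_append_of_le_length (by omega)]
    · have hi' : i = w.length := by
        simp at h1
        omega
      subst hi'
      simp

open Classical in
/-- Bit-level version of membership. -/
noncomputable def memB (A : Set (List Bool)) (w : List Bool) : Bool := decide (w ∈ A)

theorem treeAut_snoc' (A : Set (List Bool)) (w : List Bool) (b : Bool) :
    treeAut A (w ++ [b]) = treeAut A w ++ [xor (memB A w) b] := by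
  rw [treeAut_snoc]
  by_cases h : w ∈ A <;> simp [memB, h]

/-- xor-sum along an orbit -/
noncomputable def orbSum (A : Set (List Bool)) (w : List Bool) : ℕ → Bool
  | 0 => false
  | m + 1 => xor (orbSum A w m) (memB A ((treeAut A)^[m] w))

theorem iterate_snoc (A : Set (List Bool)) (w : List Bool) (b : Bool) (m : ℕ) :
    (treeAut A)^[m] (w ++ [b]) = (treeAut A)^[m] w ++ [xor (orbSum A w m) b] := by
  induction m with
  | zero => simp [orbSum]
  | succ m ih =>
    rw [Function.iterate_succ_apply', ih, treeAut_snoc', Function.iterate_succ_apply', orbSum]
    congr 2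
    cases orbSum A w m <;> cases memB A ((treeAut A)^[m] w) <;> cases b <;> rfl

@[simp] theorem length_iterate (A : Set (List Bool)) (w : List Bool) (m : ℕ) :
    ((treeAut A)^[m] w).length = w.length := by
  induction m with
  | zero => simp
  | succ m ih => rw [Function.iterate_succ_apply']; simp [ih]

theorem iterate_two_pow (A : Set (List Bool)) (n : ℕ) (w : List Bool) (hw : w.length ≤ n) :
    (treeAut A)^[2 ^ n] w = w := by
  induction n generalizing w with
  | zero =>
    have : w = [] := by
      apply List.eq_nil_of_length_eq_zero; omega
    subst this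
    simp
  | succ n ih =>
    rcases List.eq_nil_or_concat w with h | ⟨v, b, h⟩
    · subst h
      have : ∀ k, (treeAut A)^[k] [] = [] := by
        intro k
        induction k with
        | zero => rfl
        | succ k ihk => rw [Function.iterate_succ_apply', ihk]; simp
      exact this _
    · subst h
      simp only [List.concat_eq_append, List.length_append, List.length_cons, List.length_nil,
        zero_add, add_le_add_iff_right] at hw ⊢
      rw [pow_succ, mul_two, Function.iterate_add_apply]
      rw [iterate_snoc, ih v (by omega), iterate_snoc, ih v (by omega)]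
      simp

theorem iterate_mul_two_pow (A : Set (List Bool)) (n k : ℕ) (w : List Bool) (hw : w.length ≤ n) :
    (treeAut A)^[2 ^ n * k] w = w := by
  rw [Function.iterate_mul]
  have : ∀ j, ((treeAut A)^[2 ^ n])^[j] w = w := by
    intro j
    induction j with
    | zero => rfl
    | succ j ih => rw [Function.iterate_succ_apply', ih, iterate_two_pow A n w hw]
  exact this k

theorem iterate_congr_mod (A : Set (List Bool)) (n a b : ℕ) (w : List Bool) (hw : w.length ≤ n)
    (h : a ≡ b [MOD 2 ^ n]) : (treeAut A)^[a] w = (treeAut A)^[b] w := by
  have key : ∀ c, (treeAut A)^[c] w = (treeAut A)^[c % 2 ^ n] w := by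
    intro c
    conv_lhs => rw [← Nat.mod_add_div c (2 ^ n)]
    rw [Function.iterate_add_apply, iterate_mul_two_pow A n _ w hw]
  rw [key a, key b, h]

/-- If the `q`-th power of `B` is the `b`-th power of `A` then on words of length at most `n` the
automorphism of `B` is the `b * i`-th power of the one of `A`, for every `i` with `q i ≡ 1` mod
`2^n`. -/
theorem root_eq_iterate (A B : Set (List Bool)) (q b i n : ℕ)
    (hB : ∀ w, (treeAut B)^[q] w = (treeAut A)^[b] w) (hi : q * i ≡ 1 [MOD 2 ^ n])
    (w : List Bool) (hw : w.length ≤ n) :
    treeAut B w = (treeAut A)^[b * i] w := by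
  have h1 : (treeAut B)^[q] = (treeAut A)^[b] := funext hB
  rw [Function.iterate_mul, ← h1, ← Function.iterate_mul]
  rw [iterate_congr_mod B n (q * i) 1 w hw hi]
  rfl

end Pool.Agent.H9
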