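import Pool.Agent.H9.Step
import Pool.Agent.H9.Tree

/-! The transducer as a regular language. -/

namespace Pool.Agent.H9

variable {g : ℕ}

/-! ### Generalities on transducers -/

section mealy

variable {σ : Type}

/-- The bit-level transducer. -/
def mealy (δ : σ → Bool → σ) (o : σ → Bool) : σ → List Bool → List Bool
  | _, [] => []
  | s, b :: w => xor b (o s) :: mealy δ o (δ s b) w

theorem treeAut_append_mealy (A : Set (List Bool)) (δ : σ → Bool → σ) (o : σ → Bool) (s0 : σ)
    (hA : ∀ w, w ∈ A ↔ o (w.foldl δ s0) = true) (u w : List Bool) :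
    treeAut A (u ++ w) = treeAut A u ++ mealy δ o (u.foldl δ s0) w := by
  induction w generalizing u with
  | nil => simp [mealy]
  | cons b w ih =>
    have h1 : u ++ b :: w = (u ++ [b]) ++ w := by simp
    rw [h1, ih, treeAut_snoc', List.append_assoc]
    simp only [List.cons_append, List.nil_append, List.foldl_append, List.foldl_cons,
      List.foldl_nil, mealy]
    congr 2
    have : memB A u = o (u.foldl δ s0) := by
      unfold memB
      rcases ho : o (u.foldl δ s0) with _ | _
      · have := (hA u).not.2 (by rw [ho]; simp)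
        simpa using this
      · have := (hA u).2 ho
        simpa using this
    rw [this, Bool.xor_comm]

theorem treeAut_eq_mealy (A : Set (List Bool)) (δ : σ → Bool → σ) (o : σ → Bool) (s0 : σ)
    (hA : ∀ w, w ∈ A ↔ o (w.foldl δ s0) = true) (w : List Bool) :
    treeAut A w = mealy δ o s0 w := by
  have := treeAut_append_mealy A δ o s0 hA [] w
  simpa using this

theorem mealy_append (δ : σ → Bool → σ) (o : σ → Bool) (s : σ) (u v : List Bool) :
    mealy δ o s (u ++ v) = mealy δ o s u ++ mealy δ o (u.foldl δ s) v := by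
  induction u generalizing s with
  | nil => rfl
  | cons b u ih => simp [mealy, ih]

end mealy

/-! ### Finiteness -/

/-- Numbering of the tags. -/
def Tag.toNat : Tag g → ℕ
  | .cnt => 0
  | .blk => 1
  | .ini => 2
  | .ptr => 3
  | .lcl => 4
  | .col => 5
  | .fin => 6
  | .win => 7
  | .sec => 8
  | .dig => 9
  | .oth => 10
  | .yy => 11
  | .yf => 12
  | .mb i => 13 + 2 * i
  | .kb i => 14 + 2 * i

theorem Tag.toNat_injective : Function.Injective (Tag.toNat : Tag g → ℕ) := by
  intro a b h
  cases a <;> cases b <;> simp only [Tag.toNat] at h <;> first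
    | rfl
    | (exfalso; omega)
    | (congr 1; apply Fin.ext; omega)

theorem Tag.toNat_lt (τ : Tag g) : τ.toNat < 13 + 2 * g := by
  cases τ <;> simp only [Tag.toNat] <;> omega

/-- The state as a tuple. -/
def St.tup (q : St g) : (Bool × Bool × Bool × Col g) ×
    (Option (Col g) × Option (Col g) × Option (Info g) × Bool) ×
    (Bool × Option (Info g) × Option (Col g) × Bool × Bool) :=
  ((q.c, q.l, q.p, q.cur), (q.bf, q.bp, q.cap, q.wt), (q.side, q.L, q.R, q.wz, q.live))

instance : Finite (St g) := by
  refine Finite.of_injective St.tup ?_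
  intro a b h
  simp only [St.tup, Prod.mk.injEq] at h
  ext <;> simp_all

open Classical in
/-- The tag with a given number. -/
noncomputable def tagOf (g j : ℕ) : Option (Tag g) :=
  if h : ∃ τ : Tag g, τ.toNat = j then some h.choose else none

theorem tagOf_toNat (τ : Tag g) : tagOf g τ.toNat = some τ := by
  have h : ∃ τ' : Tag g, τ'.toNat = τ.toNat := ⟨τ, rfl⟩
  unfold tagOf
  rw [dif_pos h]
  exact congrArg some (Tag.toNat_injective h.choose_spec)

/-! ### The bit-level transducer -/

/-- Bit-level states: the state of the transducer, the number of ones read in the current tag, and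
whether the tag has been completed. -/
abbrev BS (g : ℕ) := St g × Fin (14 + 2 * g) × Bool

/-- Bit-level transition. -/
noncomputable def bδ (R : RowSys g) (s : BS g) (b : Bool) : BS g :=
  match s with
  | (q, j, false) =>
    if b then (q, ⟨min (j + 1) (13 + 2 * g), by omega⟩, false) else (q, j, true)
  | (q, j, true) =>
    match tagOf g j with
    | some τ => (nxt R q τ b, ⟨0, by omega⟩, false)
    | none => (q, ⟨0, by omega⟩, false)

/-- Bit-level output. -/
noncomputable def bo (s : BS g) : Bool :=
  match s with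
  | (_, _, false) => false
  | (q, j, true) =>
    match tagOf g j with
    | some τ => out q τ
    | none => false

/-- Initial bit-level state. -/
def bs0 : BS g := (st0, ⟨0, by omega⟩, false)

/-- The DFA. -/
noncomputable def dfa (R : RowSys g) : DFA Bool (BS g) where
  step := bδ R
  start := bs0
  accept := {s | bo s = true}

/-- The regular language of a row system. -/
noncomputable def lang (R : RowSys g) : Language Bool := (dfa R).accepts

theorem lang_isRegular (R : RowSys g) : (lang R).IsRegular := by
  classical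
  let _ : Fintype (BS g) := Fintype.ofFinite _
  exact ⟨BS g, inferInstance, dfa R, rfl⟩

theorem mem_lang (R : RowSys g) (w : List Bool) :
    w ∈ lang R ↔ bo (w.foldl (bδ R) bs0) = true := Iff.rfl

/-- The code of a cell. -/
def encCell (x : Cell g) : List Bool := List.replicate x.1.toNat true ++ [false, x.2]

/-- The code of a word of cells. -/
def encW (w : List (Cell g)) : List Bool := w.flatMap encCell

theorem foldl_ones (R : RowSys g) (q : St g) (j k : ℕ) (h : j + k < 14 + 2 * g) :
    (List.replicate k true).foldl (bδ R) (q, ⟨j, by omega⟩, false) =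
      (q, ⟨j + k, h⟩, false) := by
  induction k generalizing j with
  | zero => simp
  | succ k ih =>
    rw [List.replicate_succ, List.foldl_cons]
    have : bδ R (q, (⟨j, by omega⟩ : Fin (14 + 2 * g)), false) true =
        (q, ⟨j + 1, by omega⟩, false) := by
      simp only [bδ, if_true]
      congr 2
      simp only [Fin.mk.injEq]
      omega
    rw [this, ih (j + 1) (by omega)]
    congr 2
    simp only [Fin.mk.injEq]
    omega

theorem mealy_ones (R : RowSys g) (q : St g) (j k : ℕ) (h : j + k < 14 + 2 * g) :
    mealy (bδ R) bo (q, ⟨j, by omega⟩, false) (List.replicate k true) =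
      List.replicate k true := by
  induction k generalizing j with
  | zero => rfl
  | succ k ih =>
    rw [List.replicate_succ]
    have : bδ R (q, (⟨j, by omega⟩ : Fin (14 + 2 * g)), false) true =
        (q, ⟨j + 1, by omega⟩, false) := by
      simp only [bδ, if_true]
      congr 2
      simp only [Fin.mk.injEq]
      omega
    simp only [mealy, this]
    rw [ih (j + 1) (by omega)]
    simp [bo]

theorem foldl_encCell (R : RowSys g) (q : St g) (τ : Tag g) (b : Bool) :
    (encCell (τ, b)).foldl (bδ R) (q, ⟨0, by omega⟩, false) =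
      (nxt R q τ b, ⟨0, by omega⟩, false) := by
  have hlt := Tag.toNat_lt τ
  unfold encCell
  rw [List.foldl_append, foldl_ones R q 0 τ.toNat (by omega)]
  simp only [List.foldl_cons, List.foldl_nil, zero_add]
  simp [bδ, tagOf_toNat]

theorem mealy_encCell (R : RowSys g) (q : St g) (τ : Tag g) (b : Bool) :
    mealy (bδ R) bo (q, ⟨0, by omega⟩, false) (encCell (τ, b)) = encCell (τ, xor b (out q τ)) := by
  have hlt := Tag.toNat_lt τ
  unfold encCell
  rw [mealy_append, mealy_ones R q 0 τ.toNat (by omega), foldl_ones R q 0 τ.toNat (by omega)]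
  simp only [zero_add]
  simp [mealy, bo, bδ, tagOf_toNat]

theorem mealy_encW (R : RowSys g) (q : St g) (w : List (Cell g)) :
    mealy (bδ R) bo (q, ⟨0, by omega⟩, false) (encW w) = encW (go R q w).1 := by
  induction w generalizing q with
  | nil => rfl
  | cons x w ih =>
    obtain ⟨τ, b⟩ := x
    simp only [encW, List.flatMap_cons, go]
    rw [mealy_append, mealy_encCell, foldl_encCell]
    congr 1
    exact ih _

theorem treeAut_encW (R : RowSys g) (w : List (Cell g)) :
    treeAut (lang R) (encW w) = encW (cellMap R w) := by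
  rw [treeAut_eq_mealy (lang R) (bδ R) bo bs0 (mem_lang R)]
  exact mealy_encW R st0 w

theorem iterate_treeAut_encW (R : RowSys g) (w : List (Cell g)) (m : ℕ) :
    (treeAut (lang R))^[m] (encW w) = encW ((cellMap R)^[m] w) := by
  induction m generalizing w with
  | zero => rfl
  | succ m ih => rw [Function.iterate_succ_apply, treeAut_encW, ih, Function.iterate_succ_apply]

/-! ### The query word -/

/-- The levels without the last cell. -/
def levelsI (g : ℕ) : List ℕ → ℕ → List Bool → List (Cell g)
  | μ :: μs, τ, y :: Y =>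
    (.dig, τ.bodd) :: (.yy, y) :: (cc (List.replicate (μ + 1) .oth) (τ / 2) ++
      levelsI g μs (τ / 2 ^ (μ + 2)) Y)
  | _, _, _ => []

theorem levels_snoc (μs : List ℕ) (τ : ℕ) (Y : List Bool) (z : Bool)
    (hY : Y.length = μs.length) :
    levels g μs τ (Y ++ [z]) = levelsI g μs τ Y ++ [(.yf, z)] := by
  induction μs generalizing τ Y with
  | nil =>
    have : Y = [] := List.eq_nil_of_length_eq_zero (by simpa using hY)
    subst this
    rfl
  | cons μ μs ih =>
    cases Y with
    | nil => simp at hY
    | cons y Y =>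
      simp only [List.cons_append, levels, levelsI]
      rw [ih _ _ (by simpa using hY)]
      simp

/-- The query word: the layout without its very last bit. -/
def query (n k ω : ℕ) (ini : List (Col g)) (t : ℕ) (Y : List Bool) : List Bool :=
  encW (copy1 n k ω ini t ++ ((.sec, false) :: levelsI g (lev n k g) t Y)) ++
    (List.replicate (Tag.yf : Tag g).toNat true ++ [false])

theorem encW_lay (n k ω : ℕ) (ini : List (Col g)) (t : ℕ) (Y : List Bool) (z : Bool)
    (hY : Y.length = (lev n k g).length) :
    encW (lay n k ω ini t (Y ++ [z])) = query n k ω ini t Y ++ [z] := by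
  unfold lay query
  rw [levels_snoc _ _ _ _ hY]
  simp [encW, encCell, List.append_assoc]

/-- The last bit after `m` steps. -/
theorem last_iterate (R : RowSys g) (n k ω : ℕ) (ini : List (Col g)) (hini : ini.length = n)
    (t m : ℕ) (Y Y' : List Bool) (z z' : Bool) (hY : Y.length = (lev n k g).length)
    (hY' : Y'.length = (lev n k g).length)
    (h : runD (lev n k g) (leaf R ω n ini) t m (Y ++ [z]) = Y' ++ [z']) :
    ∃ u, (treeAut (lang R))^[m] (query n k ω ini t Y ++ [z]) = u ++ [z'] := by
  rw [← encW_lay n k ω ini t Y z hY, iterate_treeAut_encW,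
    iterate_cellMap_lay R n k ω ini hini t m (Y ++ [z]) (by simp [hY]), h,
    encW_lay n k ω ini _ Y' z' hY']
  exact ⟨_, rfl⟩

/-! ### The root -/

theorem length_lev (n k g : ℕ) : (lev n k g).length = n + k := by simp [lev]

/-- Value of the leaf formula at a time. -/
theorem leaf_idle (R : RowSys g) (ω n k : ℕ) (ini : List (Col g)) (t : ℕ)
    (h : (t / 2 ^ tot (lev n k g)) % 2 ^ ω ≠ 0) :
    leaf R ω n ini (asg (lev n k g) t) (rest (lev n k g) t) = false := by
  rw [rest_eq]
  unfold leaf
  simp [h]

theorem xorSum_shift (m : ℕ) (V : ℕ → Bool) :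
    xor (xorSum m fun j => V (0 + j)) (xorSum m fun j => V (1 + j)) = xor (V 0) (V m) := by
  induction m with
  | zero => simp [xorSum]
  | succ m ih =>
    simp only [xorSum]
    have : xor (xor (xorSum m fun j => V (0 + j)) (V (0 + m)))
        (xor (xorSum m fun j => V (1 + j)) (V (1 + m))) =
        xor (xor (xorSum m fun j => V (0 + j)) (xorSum m fun j => V (1 + j)))
          (xor (V (0 + m)) (V (1 + m))) := by
      generalize xorSum m (fun j => V (0 + j)) = a
      generalize xorSum m (fun j => V (1 + j)) = b
      cases a <;> cases b <;> cases V (0 + m) <;> cases V (1 + m) <;> rfl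
    rw [this, ih, zero_add, Nat.add_comm 1 m]
    cases V 0 <;> cases V m <;> cases V (m + 1) <;> rfl

/-- Main theorem on power equations: if `C^r = A^b` for the regular language `A` of a row system,
`r` is odd and does not divide `b`, then `C` decides the acceptance of the iterates of the row
system. -/
theorem pow_decides (R : RowSys g) (r b ω n k : ℕ) (hr : Odd r) (hrb : ¬ r ∣ b)
    (hω : r + b ≤ 2 ^ ω) (ini : List (Col g)) (hini : ini.length = n) (C : Set (List Bool))
    (hC : ∀ w, (treeAut C)^[r] w = (treeAut (lang R))^[b] w) :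
    (xor (memB C (query n k ω ini 0 (List.replicate (n + k) false)))
      (memB C (query n k ω ini (2 ^ tot (lev n k g)) (List.replicate (n + k) false))) = true) ↔
      R.Acc (R.step^[2 ^ k - 1] ini) := by
  classical
  set T := tot (lev n k g) with hT
  set Z : List Bool := List.replicate (n + k) false with hZ
  have hZl : Z.length = (lev n k g).length := by rw [length_lev]; simp [hZ]
  set V : ℕ → Bool := peelAll (lev n k g) (leaf R ω n ini) with hV
  have hr0 : 0 < r := hr.pos
  -- an exponent
  have hex : ∀ E : ℕ, ∃ i, r * i ≡ 1 [MOD 2 ^ E] := by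
    intro E
    have hcop : Nat.Coprime r (2 ^ E) := (Nat.Coprime.pow_right E (Nat.coprime_two_right.2 hr))
    rcases Nat.eq_zero_or_pos E with h0 | h0
    · subst h0; exact ⟨0, by simp [Nat.modEq_one]⟩
    · obtain ⟨m, hm⟩ := Nat.exists_mul_mod_eq_one_of_coprime hcop
        (Nat.one_lt_two_pow (by omega))
      refine ⟨m, ?_⟩
      unfold Nat.ModEq
      rw [hm.2, Nat.mod_eq_of_lt (Nat.one_lt_two_pow (by omega))]
  obtain ⟨i, hi⟩ := hex ((query n k ω ini 0 Z).length + (query n k ω ini (2 ^ T) Z).length + 1 +
    (T + ω))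
  set m := b * i with hmdef
  have hm1 : r * m ≡ b [MOD 2 ^ (T + ω)] := by
    have h1 : r * i ≡ 1 [MOD 2 ^ (T + ω)] := hi.of_dvd (pow_dvd_pow 2 (by omega))
    have h2 := h1.mul_left b
    rw [Nat.mul_one] at h2
    rwa [show r * m = b * (r * i) by rw [hmdef]; ring]
  set m1 := m / 2 ^ T with hm1'
  set m0 := m % 2 ^ T with hm0'
  have hmm : m = m1 * 2 ^ T + m0 := by
    rw [hm1', hm0', Nat.mul_comm, Nat.div_add_mod]
  have hpos : 0 < 2 ^ T := by positivity
  have hm0lt : m0 < 2 ^ T := Nat.mod_lt _ hpos
  have hle : (r + b) * 2 ^ T ≤ 2 ^ (T + ω) := by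
    rw [pow_add, Nat.mul_comm]; exact Nat.mul_le_mul_left _ hω
  have hle' : r * 2 ^ T + b * 2 ^ T ≤ 2 ^ (T + ω) := by rwa [← Nat.add_mul]
  have hbT : b ≤ b * 2 ^ T := Nat.le_mul_of_pos_right _ hpos
  have hrT : r ≤ r * 2 ^ T := Nat.le_mul_of_pos_right _ hpos
  have hbN : b < 2 ^ (T + ω) := by omega
  have hm1ne : m1 % 2 ^ ω ≠ 0 := by
    intro hcon
    obtain ⟨d, hd⟩ := Nat.dvd_of_mod_eq_zero hcon
    have h3 : m ≡ m0 [MOD 2 ^ (T + ω)] := by
      have h3' : m1 * 2 ^ T = 2 ^ (T + ω) * d := by
        rw [hd, pow_add]; ring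
      rw [hmm, h3']
      unfold Nat.ModEq
      simp
    have h4 : r * m0 ≡ b [MOD 2 ^ (T + ω)] := ((h3.mul_left r).symm).trans hm1
    have h5 : r * m0 < 2 ^ (T + ω) := by
      calc r * m0 < r * 2 ^ T := Nat.mul_lt_mul_of_pos_left hm0lt hr0
        _ ≤ _ := by omega
    have h6 : r * m0 = b := by
      have := h4
      unfold Nat.ModEq at this
      rwa [Nat.mod_eq_of_lt h5, Nat.mod_eq_of_lt hbN] at this
    exact hrb ⟨m0, h6.symm⟩
  have hm1ne' : (1 + m1) % 2 ^ ω ≠ 0 ∨ m0 = 0 := by
    by_contra hcon
    push Not at hcon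
    obtain ⟨hcon, hm0ne⟩ := hcon
    obtain ⟨d, hd⟩ := Nat.dvd_of_mod_eq_zero hcon
    have h3 : r * m + r * (2 ^ T - m0) ≡ 0 [MOD 2 ^ (T + ω)] := by
      have h3' : r * m + r * (2 ^ T - m0) = 2 ^ (T + ω) * (r * d) := by
        rw [← Nat.mul_add]
        have h3'' : m + (2 ^ T - m0) = (1 + m1) * 2 ^ T := by
          rw [Nat.add_mul, one_mul]
          omega
        rw [h3'', hd, pow_add]; ring
      rw [h3']
      exact (Nat.modEq_zero_iff_dvd).2 ⟨_, rfl⟩
    have h4 : b + r * (2 ^ T - m0) ≡ 0 [MOD 2 ^ (T + ω)] :=
      ((hm1.add_right _).symm).trans h3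
    have hm0pos : 0 < m0 := by omega
    have h7' : r * (2 ^ T - m0) ≤ r * (2 ^ T - 1) := Nat.mul_le_mul_left _ (by omega)
    have h7 : r * (2 ^ T - 1) = r * 2 ^ T - r := by rw [Nat.mul_sub, mul_one]
    have h5 : b + r * (2 ^ T - m0) < 2 ^ (T + ω) := by omega
    have h8 : 0 < r * (2 ^ T - m0) := Nat.mul_pos hr0 (by omega)
    have h6 := Nat.eq_zero_of_dvd_of_lt ((Nat.modEq_zero_iff_dvd).1 h4) h5
    omega
  -- computing one bit
  have key : ∀ c ≤ 1, (query n k ω ini (c * 2 ^ T) Z).length + 1 ≤
      (query n k ω ini 0 Z).length + (query n k ω ini (2 ^ T) Z).length + 1 + (T + ω) →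
      memB C (query n k ω ini (c * 2 ^ T) Z) = xorSum m1 fun j => V (c + j) := by
    intro c hc hlen
    set w := query n k ω ini (c * 2 ^ T) Z with hw
    have hm2 : r * i ≡ 1 [MOD 2 ^ (w.length + 1)] := hi.of_dvd (pow_dvd_pow 2 hlen)
    have h1 := root_eq_iterate (lang R) C r b i (w.length + 1) hC hm2 (w ++ [false]) (by simp)
    rw [treeAut_snoc', Bool.xor_false, ← hmdef] at h1
    -- the run
    have hrun : runD (lev n k g) (leaf R ω n ini) (c * 2 ^ T) m (Z ++ [false]) =
        Z ++ [xorSum m1 fun j => V (c + j)] := by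
      rw [hmm, runD_add]
      have h2 := runD_full (lev n k g) (leaf R ω n ini) c m1 Z false hZl
      rw [← hT] at h2
      rw [h2, Bool.false_xor]
      apply runD_idle
      intro j hj
      apply leaf_idle
      rw [← hT]
      have e : (c * 2 ^ T + m1 * 2 ^ T + j) / 2 ^ T = c + m1 := by
        rw [show c * 2 ^ T + m1 * 2 ^ T + j = j + (c + m1) * 2 ^ T by ring,
          Nat.add_mul_div_right _ _ hpos, Nat.div_eq_of_lt (by omega), zero_add]
      rw [e]
      rcases Nat.lt_or_ge c 1 with hc0 | hc1
      · have hc0' : c = 0 := by omega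
        subst hc0'
        rwa [zero_add]
      · have hc1' : c = 1 := by omega
        subst hc1'
        rcases hm1ne' with h | h
        · exact h
        · omega
    obtain ⟨u, hu⟩ := last_iterate R n k ω ini hini (c * 2 ^ T) m Z Z false _ hZl hZl hrun
    rw [← hw] at hu
    rw [hu] at h1
    have := List.append_inj_right' h1 rfl
    simpa using this
  have h0 := key 0 (by omega) (by rw [Nat.zero_mul]; omega)
  have h1 := key 1 le_rfl (by rw [Nat.one_mul]; omega)
  rw [Nat.zero_mul] at h0
  rw [Nat.one_mul] at h1
  rw [h0, h1, xorSum_shift]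
  have hVm : V m1 = false := by
    rw [hV, ← Bool.not_eq_true]
    unfold lev
    rw [peelAll_leaf R ω n k ini hini]
    rintro ⟨h, _⟩
    exact hm1ne h
  rw [hVm, Bool.xor_false, hV]
  unfold lev
  rw [peelAll_leaf R ω n k ini hini]
  simp

/-- The word `1^n` is fixed. -/
theorem treeAut_lang_ones (R : RowSys g) (n : ℕ) :
    treeAut (lang R) (List.replicate n true) = List.replicate n true := by
  rw [treeAut_eq_mealy (lang R) (bδ R) bo bs0 (mem_lang R)]
  have : ∀ (n : ℕ) (q : St g) (j : Fin (14 + 2 * g)),
      mealy (bδ R) bo (q, j, false) (List.replicate n true) = List.replicate n true := by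
    intro n
    induction n with
    | zero => intro q j; rfl
    | succ n ih =>
      intro q j
      rw [List.replicate_succ]
      simp only [mealy, bδ, if_true, bo, Bool.xor_false]
      rw [ih]
  exact this n _ _

end Pool.Agent.H9
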