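import Pool.Agent.H9.FlowRow
import Pool.Agent.PPS.Bits
import Pool.Agent.PPS.Codes

/-! A complete problem for polynomial space: iteration of row systems given by tables. -/

namespace Pool.Agent.H9

open Pool.Agent.PPS

variable {α β κ : Type} [Rep α] [Rep β] [Rep κ] [DecidableEq κ]

/-! ### Ranges, lookup -/

theorem range_eq_iterate (n : ℕ) :
    List.range n = (fun l : List ℕ => l ++ [l.length])^[n] [] := by
  induction n with
  | zero => rfl
  | succ n ih =>
    rw [Function.iterate_succ_apply', ← ih, List.range_succ]
    simp

theorem size_range_le (n : ℕ) : size (List.range n) ≤ n * (2 * n + 2) + 1 := by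
  refine (size_list_le (B := 2 * n + 1) (l := List.range n) ?_).trans ?_
  · intro b hb
    rw [size_nat]
    have := List.mem_range.1 hb
    omega
  · rw [List.length_range]

@[fun_prop]
theorem PT.range' {m : Bool} {n : α → ℕ} (hn : PT m n) : PT m (fun a => List.range (n a)) := by
  obtain ⟨p, hp⟩ := hn.exists_size_le
  have := PT.iterate (m := m) (n := n) (ini := fun _ => ([] : List ℕ))
    (s := fun z : α × List ℕ => z.2 ++ [z.2.length]) hn (by fun_prop) (by fun_prop)
    (p * (2 * p + 2) + 1) (by
      intro a k hk
      simp only
      rw [← range_eq_iterate]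
      refine (size_range_le k).trans ?_
      have h1 := hp a
      rw [size_nat] at h1
      simp only [Polynomial.eval_add, Polynomial.eval_mul, Polynomial.eval_ofNat,
        Polynomial.eval_one]
      have h2 : k ≤ p.eval (size a) := by omega
      have := Nat.mul_le_mul h2 (show 2 * k + 2 ≤ 2 * p.eval (size a) + 2 by omega)
      omega)
  refine this.of_eq (fun a => ?_)
  exact range_eq_iterate _

/-- Value of a key in a table. -/
def look (T : List (κ × ℕ)) (k : κ) : ℕ := T.foldr (fun e y => if e.1 = k then e.2 else y) 0

omit [Pool.Agent.PPS.Rep κ] in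
theorem look_nil (k : κ) : look ([] : List (κ × ℕ)) k = 0 := rfl

omit [Pool.Agent.PPS.Rep κ] in
theorem look_cons (e : κ × ℕ) (T : List (κ × ℕ)) (k : κ) :
    look (e :: T) k = if e.1 = k then e.2 else look T k := rfl

omit [Pool.Agent.PPS.Rep κ] in
theorem look_map {γ : Type} (L : List γ) (f : γ → κ) (v : γ → ℕ)
    (h : ∀ x y, f x = f y → v x = v y) (x : γ) (hx : x ∈ L) :
    look (L.map fun z => (f z, v z)) (f x) = v x := by
  induction L with
  | nil => simp at hx
  | cons z L ih =>
    rw [List.map_cons, look_cons]
    split_ifs with hz
    · exact h _ _ hz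
    · rcases List.mem_cons.1 hx with rfl | hx
      · exact absurd rfl hz
      · exact ih hx

theorem size_look_le (T : List (κ × ℕ)) (k : κ) : size (look T k) ≤ size T := by
  induction T with
  | nil => rw [look_nil]; exact le_rfl
  | cons e T ih =>
    rw [look_cons, size_cons]
    split_ifs
    · rw [show size e = size e.1 + size e.2 + 1 from size_pair e.1 e.2]; omega
    · omega

theorem PT.look' {m : Bool} {T : α → List (κ × ℕ)} {k : α → κ} (hT : PT m T) (hk : PT m k) :
    PT m (fun a => look (T a) (k a)) := by
  obtain ⟨p, hp⟩ := hT.exists_size_le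
  have := PT.foldr (m := m) (ini := fun _ => 0) (l := T)
    (s := fun z : α × ((κ × ℕ) × ℕ) => if z.2.1.1 = k z.1 then z.2.1.2 else z.2.2) hT
    (by fun_prop) (by
      have h1 : PT m (fun z : α × ((κ × ℕ) × ℕ) => decide (z.2.1.1 = k z.1)) :=
        PT.decideEq (by fun_prop) (hk.comp (f := fun z : α × ((κ × ℕ) × ℕ) => z.1) (by fun_prop))
      have h2 : PT m (fun z : α × ((κ × ℕ) × ℕ) => bif decide (z.2.1.1 = k z.1) then z.2.1.2
        else z.2.2) := by fun_prop
      refine h2.of_eq (fun z => ?_)
      by_cases h : z.2.1.1 = k z.1 <;> simp [h]) p (by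
      intro a j
      exact (size_look_le ((T a).drop j) (k a)).trans ((size_drop_le _ _).trans (hp a)))
  exact this

/-! ### Table driven row systems -/

/-- Keys of tables. -/
abbrev Key := ℕ × (Option ℕ × (ℕ × Option ℕ))

/-- The key at a position of a row. -/
def keyAt (r : List ℕ) (j : ℕ) : Key :=
  (r.headD 0, (if j = 0 then none else (r.drop (j - 1)).head?, (r.getD j 0, (r.drop (j + 1)).head?)))

/-- One step of the row system with a given table. -/
def ustep (T : List (Key × ℕ)) (r : List ℕ) : List ℕ :=
  (List.range r.length).map fun j => look T (keyAt r j)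

theorem length_ustep (T : List (Key × ℕ)) (r : List ℕ) : (ustep T r).length = r.length := by
  simp [ustep]

theorem PT.keyAt' {m : Bool} {r : α → List ℕ} {j : α → ℕ} (hr : PT m r) (hj : PT m j) :
    PT m (fun a => keyAt (r a) (j a)) := by
  unfold keyAt
  have h1 : PT m (fun a => bif decide (j a = 0) then none else ((r a).drop (j a - 1)).head?) := by
    fun_prop
  have h2 : PT m (fun a => if j a = 0 then none else ((r a).drop (j a - 1)).head?) := by
    refine h1.of_eq (fun a => ?_)
    by_cases h : j a = 0 <;> simp [h]
  fun_prop

theorem PT.ustep' {m : Bool} {T : α → List (Key × ℕ)} {r : α → List ℕ} (hT : PT m T)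
    (hr : PT m r) : PT m (fun a => ustep (T a) (r a)) := by
  unfold ustep
  have h1 : PT m (fun z : α × ℕ => look (T z.1) (keyAt (r z.1) z.2)) :=
    PT.look' (hT.comp (f := fun z : α × ℕ => z.1) (by fun_prop))
      (PT.keyAt' (hr.comp (f := fun z : α × ℕ => z.1) (by fun_prop)) (by fun_prop))
  exact PT.map' (l := fun a => List.range (r a).length) (by fun_prop) h1

theorem size_iterate_ustep (T : List (Key × ℕ)) (r : List ℕ) (t : ℕ) :
    size ((ustep T)^[t] r) ≤ size r + r.length * (size T + 1) + 1 := by
  cases t with
  | zero => rw [Function.iterate_zero, id]; omega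
  | succ t =>
    rw [Function.iterate_succ_apply']
    have hl : ∀ t, ((ustep T)^[t] r).length = r.length := by
      intro t
      induction t with
      | zero => rfl
      | succ t ih => rw [Function.iterate_succ_apply', length_ustep, ih]
    have := size_list_le (B := size T) (l := ustep T ((ustep T)^[t] r)) (by
      intro b hb
      unfold ustep at hb
      obtain ⟨j, -, rfl⟩ := List.mem_map.1 hb
      exact size_look_le _ _)
    rw [length_ustep, hl] at this
    omega

/-- Data of an instance: transition table, acceptance table, row, exponent. -/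
abbrev Inst := (List (Key × ℕ) × List (ℕ × ℕ)) × (List ℕ × ℕ)

/-- The complete predicate. -/
def uacc (z : Inst) : Bool :=
  decide (look z.1.2 (((ustep z.1.1)^[2 ^ z.2.2 - 1] z.2.1).headD 0) = 1)

theorem pt_uacc : PT false uacc := by
  let s : Inst × (List ℕ × List Bool) → List ℕ × List Bool := fun z =>
    (ustep z.1.1.1 z.2.1, inc z.2.2)
  have hs : PT false s := by
    have h1 : PT false (fun z : Inst × (List ℕ × List Bool) => ustep z.1.1.1 z.2.1) :=
      PT.ustep' (by fun_prop) (by fun_prop)
    exact PT.prodMk h1 (by fun_prop)
  have hit : ∀ (z : Inst) (t : ℕ), (fun y => s (z, y))^[t] (z.2.1, bits z.2.2 1) =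
      ((ustep z.1.1)^[t] z.2.1, bits z.2.2 (1 + t)) := by
    intro z t
    induction t with
    | zero => rfl
    | succ t ih =>
      rw [Function.iterate_succ_apply', ih]
      simp only [s]
      rw [inc_bits, Function.iterate_succ_apply', Nat.add_assoc]
  have key := PT.loop (m := false) (ini := fun z : Inst => (z.2.1, bits z.2.2 1)) (s := s)
    (c := fun z => !(decide (z.2.2 = List.replicate z.1.2.2 false)))
    (fun z => 2 ^ z.2.2 - 1) (by
      have h1 : PT false (fun z : Inst => bits z.2.2 1) := by
        have h2 : PT false (fun z : Inst => inc (List.replicate z.2.2 false)) := by fun_prop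
        refine h2.of_eq (fun z => ?_)
        rw [← (bits_eq_replicate (n := z.2.2) (t := 0)).2 (Nat.zero_mod _), inc_bits]
      exact PT.prodMk (by fun_prop) h1) hs (by fun_prop)
    (Polynomial.X * Polynomial.X + 10 * Polynomial.X + 10) (by
      intro z t _
      rw [hit, size_pair]
      have h1 := size_iterate_ustep z.1.1 z.2.1 t
      have h2 := (size_bits (bits z.2.2 (1 + t))).2
      rw [length_bits] at h2
      have h3 : size z = (size z.1.1 + size z.1.2 + 1) + (size z.2.1 + (2 * z.2.2 + 1) + 1) + 1 := by
        obtain ⟨⟨a, b⟩, c, d⟩ := z
        rw [size_pair, size_pair, size_pair, size_nat]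
      have h4 := length_le_size' z.2.1
      simp only [Polynomial.eval_add, Polynomial.eval_mul, Polynomial.eval_X,
        Polynomial.eval_ofNat]
      have h5 : z.2.1.length * (size z.1.1 + 1) ≤ size z * size z :=
        Nat.mul_le_mul (by omega) (by omega)
      omega) (by
      intro z t ht
      rw [hit]
      simp only [Bool.not_eq_eq_eq_not, Bool.not_true, decide_eq_false_iff_not]
      rw [bits_eq_replicate, Nat.mod_eq_of_lt (by omega)]
      omega) (by
      intro z
      rw [hit]
      simp only [Bool.not_eq_eq_eq_not, Bool.not_false, decide_eq_true_eq]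
      rw [bits_eq_replicate]
      have : 0 < 2 ^ z.2.2 := by positivity
      rw [show 1 + (2 ^ z.2.2 - 1) = 2 ^ z.2.2 by omega, Nat.mod_self]) (by simp)
  have h1 : PT false (fun z : Inst => (ustep z.1.1)^[2 ^ z.2.2 - 1] z.2.1) := by
    have h2 := (PT.fst (m := false)).comp key
    refine h2.of_eq (fun z => ?_)
    rw [hit]
  have h2 : PT false (fun z : Inst => ((ustep z.1.1)^[2 ^ z.2.2 - 1] z.2.1).headD 0) :=
    PT.headD' h1 (by fun_prop)
  have h3 : PT false (fun z : Inst =>
      look z.1.2 (((ustep z.1.1)^[2 ^ z.2.2 - 1] z.2.1).headD 0)) :=
    PT.look' (by fun_prop) h2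
  exact PT.decideEq h3 (by fun_prop)

/-! ### Hardness -/

section hard

variable {g : ℕ}

/-- Numbering of the columns. -/
noncomputable def num (c : Col g) : ℕ := Fintype.equivFin (Col g) c

theorem num_injective : Function.Injective (num : Col g → ℕ) := by
  intro a b h
  exact (Fintype.equivFin (Col g)).injective (Fin.ext h)

theorem map_num_injective : Function.Injective (Option.map (num : Col g → ℕ)) :=
  Option.map_injective num_injective

/-- The transition table of a row system. -/
noncomputable def tabT (R : RowSys g) : List (Key × ℕ) :=
  ((Finset.univ : Finset (Col g × (Option (Col g) × (Col g × Option (Col g))))).toList).map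
    fun x => ((num x.1, (x.2.1.map num, (num x.2.2.1, x.2.2.2.map num))),
      num (R.F x.1 x.2.1 x.2.2.1 x.2.2.2))

/-- The acceptance table of a row system. -/
noncomputable def tabA (R : RowSys g) : List (ℕ × ℕ) :=
  ((Finset.univ : Finset (Col g)).toList).map fun c => (num c, (R.acc c).toNat)

theorem look_tabT (R : RowSys g) (f : Col g) (p : Option (Col g)) (c : Col g)
    (n : Option (Col g)) :
    look (tabT R) (num f, (p.map num, (num c, n.map num))) = num (R.F f p c n) := by
  refine look_map _ (fun x : Col g × (Option (Col g) × (Col g × Option (Col g))) =>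
    (num x.1, (x.2.1.map num, (num x.2.2.1, x.2.2.2.map num)))) _ ?_ (f, (p, (c, n)))
    (by simp)
  rintro ⟨f, p, c, n⟩ ⟨f', p', c', n'⟩ h
  simp only [Prod.mk.injEq] at h
  obtain ⟨h1, h2, h3, h4⟩ := h
  have h1 := num_injective h1
  have h2 := map_num_injective h2
  have h3 := num_injective h3
  have h4 := map_num_injective h4
  subst h1 h2 h3 h4
  rfl

theorem look_tabA (R : RowSys g) (c : Col g) : look (tabA R) (num c) = (R.acc c).toNat := by
  refine look_map _ (fun c : Col g => num c) _ ?_ c (by simp)
  intro x y h
  rw [num_injective h]

theorem ustep_map (R : RowSys g) (r : List (Col g)) :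
    ustep (tabT R) (r.map num) = (R.step r).map num := by
  apply List.ext_getElem
  · simp [ustep]
  · intro j h1 h2
    have hj : j < r.length := by simpa using h2
    simp only [ustep, List.getElem_map, List.getElem_range]
    rw [step_getElem R r j hj]
    rw [← look_tabT]
    congr 1
    unfold keyAt
    refine Prod.ext ?_ (Prod.ext ?_ (Prod.ext ?_ ?_))
    · simp only [List.headD_eq_head?_getD, List.head?_eq_getElem?, List.getElem?_map]
      rw [List.getElem?_eq_getElem (by omega)]
      rfl
    · simp only
      split_ifs
      · rfl
      · rw [List.head?_drop, List.getElem?_map]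
    · simp only [List.getD_eq_getElem?_getD, List.getElem?_map]
      rw [List.getElem?_eq_getElem hj]
      rfl
    · simp only
      rw [List.head?_drop, List.getElem?_map]

theorem iterate_ustep_map (R : RowSys g) (r : List (Col g)) (t : ℕ) :
    (ustep (tabT R))^[t] (r.map num) = (R.step^[t] r).map num := by
  induction t with
  | zero => rfl
  | succ t ih => rw [Function.iterate_succ_apply', ih, ustep_map, Function.iterate_succ_apply']

theorem uacc_eq (R : RowSys g) (r : List (Col g)) (hr : r ≠ []) (k : ℕ) :
    uacc ((tabT R, tabA R), (r.map num, k)) = true ↔ R.Acc (R.step^[2 ^ k - 1] r) := by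
  unfold uacc
  simp only [decide_eq_true_eq]
  rw [iterate_ustep_map]
  have hl : (R.step^[2 ^ k - 1] r).length = r.length := by
    generalize 2 ^ k - 1 = t
    induction t with
    | zero => rfl
    | succ t ih => rw [Function.iterate_succ_apply', RowSys.length_step, ih]
  generalize hr' : R.step^[2 ^ k - 1] r = r'
  rw [hr'] at hl
  cases r' with
  | nil =>
    exfalso
    apply hr
    exact List.eq_nil_of_length_eq_zero (by rw [← hl]; rfl)
  | cons c r' =>
    simp only [List.map_cons, List.headD_cons]
    rw [look_tabA]
    unfold RowSys.Acc
    simp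

end hard

/-- Completeness. -/
theorem uacc_complete {f : α → Bool} (hf : PT false f) :
    ∃ r : α → Inst, PT true r ∧ ∀ a, f a = uacc (r a) := by
  obtain ⟨ι, _, _, P, _, m, io, p₀, p, hp, hspec⟩ := exists_rowSys hf
  let n : α → ℕ := fun x => p.eval (size x) + 1
  let k : α → ℕ := fun x => gX ι P * n x + 1
  have hn : PT true n := by
    have := PT.polyEval (m := true) (n := fun x : α => size x) (by fun_prop) p
    simp only [n]; fun_prop
  have hk : PT true k := by simp only [k]; fun_prop
  let R := flowSys m io
  let cw : Option Bool → ℕ := fun o => num (emb ((some p₀, fun i => if i = io then o else none) : X ι P))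
  have hrow : ∀ x : α, (rowOf (n x) (some p₀, one io (code x))).map num =
      (code x).map (fun b => cw (some b)) ++ List.replicate (n x - (code x).length) (cw none) := by
    intro x
    have hlen : (code x).length ≤ n x := by
      have := hp (size x)
      show size x ≤ _
      simp only [n]; omega
    apply List.ext_getElem
    · simp; omega
    · intro j h1 h2
      have hj : j < n x := by simpa using h1
      have e1 : ((rowOf (n x) (some p₀, one io (code x))).map num)[j] =
          cw ((code x)[j]?) := by
        simp only [rowOf, List.getElem_map, List.getElem_range, cw]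
        congr 2
        unfold colOf one
        simp only [Prod.mk.injEq, true_and]
        funext i
        split_ifs <;> simp
      rw [e1]
      by_cases hjl : j < (code x).length
      · rw [List.getElem_append_left (by simpa using hjl)]
        simp [hjl]
      · rw [List.getElem_append_right (by simpa using hjl)]
        simp only [List.getElem_replicate]
        rw [List.getElem?_eq_none (by omega)]
  refine ⟨fun x => ((tabT R, tabA R), ((rowOf (n x) (some p₀, one io (code x))).map num, k x)),
    ?_, ?_⟩
  · have h1 : PT true (fun x : α => (code x).map (fun b => cw (some b))) := by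
      have h2 : PT true (fun z : α × Bool => bif z.2 then cw (some true) else cw (some false)) := by
        fun_prop
      have h3 := PT.map' (m := true) (l := fun x : α => code x) (by fun_prop) h2
      refine h3.of_eq (fun a => ?_)
      congr 1
      funext b
      cases b <;> rfl
    have h2 : PT true (fun x : α => (rowOf (n x) (some p₀, one io (code x))).map num) := by
      have h3 : PT true (fun x : α => (code x).map (fun b => cw (some b)) ++
        List.replicate (n x - (code x).length) (cw none)) := by fun_prop
      exact h3.of_eq hrow
    fun_prop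
  · intro x
    rw [Bool.eq_iff_iff, uacc_eq R _ (by
      intro h
      have := congrArg List.length h
      simp [n] at this)]
    exact (hspec x (n x) (k x) (by simp only [n]; omega) (by simp only [k]; omega)).symm

end Pool.Agent.H9
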