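import Pool.Agent.H9.Power
import Pool.Agent.H9.Universal

/-! The main theorem on power equations. -/

namespace Pool.Agent.H9

open Pool.Agent.PPS

section rows

variable {ι : Type} [DecidableEq ι] [Finite ι] {P : Type} [Finite P]

/-- Code of a column of the initial configuration. -/
noncomputable def colWord (io : ι) (p₀ : P) (o : Option Bool) : List Bool :=
  encW (colK0 (emb ((some p₀, fun i => if i = io then o else none) : X ι P)))

theorem encW_flatMap_colK0 {g : ℕ} (cs : List (Col g)) :
    encW (cs.flatMap colK0) = (cs.map fun c => encW (colK0 c)).flatten := by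
  induction cs with
  | nil => rfl
  | cons c cs ih =>
    rw [List.flatMap_cons, encW_append, ih]
    simp

theorem colOf_init (io : ι) (p₀ : P) (w : List Bool) (j : ℕ) :
    colOf (some p₀, one io w) j = (some p₀, fun i => if i = io then w[j]? else none) := by
  unfold colOf one
  simp only [Prod.mk.injEq, true_and]
  funext i
  split_ifs <;> simp

theorem range_map_getElem? (w : List Bool) (n : ℕ) (hn : w.length ≤ n) :
    (List.range n).map (fun j => w[j]?) =
      w.map some ++ List.replicate (n - w.length) none := by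
  apply List.ext_getElem
  · simp; omega
  · intro j h1 h2
    simp only [List.getElem_map, List.getElem_range]
    by_cases hj : j < w.length
    · rw [List.getElem_append_left (by simpa using hj)]
      simp [hj]
    · rw [List.getElem_append_right (by simpa using hj)]
      simp only [List.getElem_replicate]
      rw [List.getElem?_eq_none (by omega)]

theorem encW_rowOf (io : ι) (p₀ : P) (w : List Bool) (n : ℕ) (hn : w.length ≤ n) :
    encW ((rowOf n (some p₀, one io w)).flatMap colK0) =
      (w.map fun b => colWord io p₀ (some b)).flatten ++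
        rep (n - w.length) (colWord io p₀ none) := by
  rw [encW_flatMap_colK0]
  unfold rowOf
  rw [List.map_map]
  have : ((fun c => encW (colK0 c)) ∘ fun j => emb (colOf (some p₀, one io w) j)) =
      (fun o => colWord io p₀ o) ∘ fun j => w[j]? := by
    funext j
    simp only [Function.comp]
    rw [colOf_init]
    rfl
  rw [this, ← List.map_map, range_map_getElem? w n hn]
  simp [rep, List.map_map, Function.comp_def]

/-- The query word as a function of the parameters, in a form that is visibly computable in
polynomial time. -/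
noncomputable def Q (io : ι) (p₀ : P) (ω c : ℕ) (n k : ℕ) (w : List Bool) : List Bool :=
  rep (2 * n) (encCell ((.cnt, false) : Cell (gX ι P))) ++
  (rep k (encCell ((.blk, false) : Cell (gX ι P)) ++ (encCell ((.cnt, false) : Cell (gX ι P)) ++
    (rep n (encW (colM0 (gX ι P))) ++ encCell ((.fin, false) : Cell (gX ι P))))) ++
  (encCell ((.ini, false) : Cell (gX ι P)) ++
  (((w.map fun b => colWord io p₀ (some b)).flatten ++
    rep (n - w.length) (colWord io p₀ none)) ++
  (encCell ((.fin, false) : Cell (gX ι P)) ++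
  (encW (cc (List.replicate ω .win) c : List (Cell (gX ι P))) ++
  (encCell ((.sec, false) : Cell (gX ι P)) ++
  (rep n (encW (level0 (gX ι P) 0)) ++
  (rep k (encCell ((.dig, false) : Cell (gX ι P)) ++ (encCell ((.yy, false) : Cell (gX ι P)) ++
    rep (gX ι P * n + 1) (encCell ((.oth, false) : Cell (gX ι P))))) ++
    (List.replicate 12 true ++ [false]))))))))) 

theorem query_eq_Q (io : ι) (p₀ : P) (ω c n k : ℕ) (w : List Bool) (hn : w.length ≤ n) :
    query n k ω (rowOf n (some p₀, one io w)) (c * 2 ^ tot (lev n k (gX ι P)))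
      (List.replicate (n + k) false) = Q io p₀ ω c n k w := by
  rw [query_eq n k ω c _ (by simp)]
  unfold queryCells Q
  rw [encW_append, encW_append, encW_cons, encW_append, encW_cons, encW_append, encW_cons,
    encW_append, encW_rep, encW_rep, encW_rep, encW_rowOf io p₀ w n hn, encW_zc_replicate]
  have h1 : encW (blockM0 (gX ι P) n) = encCell ((.blk, false) : Cell (gX ι P)) ++
      (encCell ((.cnt, false) : Cell (gX ι P)) ++
        (rep n (encW (colM0 (gX ι P))) ++ encCell ((.fin, false) : Cell (gX ι P)))) := by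
    unfold blockM0
    rw [encW_cons, encW_cons, encW_append, encW_rep, encW_cons]
    simp [encW]
  have h2 : encW (level0 (gX ι P) (gX ι P * n)) = encCell ((.dig, false) : Cell (gX ι P)) ++
      (encCell ((.yy, false) : Cell (gX ι P)) ++
        rep (gX ι P * n + 1) (encCell ((.oth, false) : Cell (gX ι P)))) := by
    unfold level0
    rw [encW_cons, encW_cons, encW_zc_replicate]
  rw [h1, h2]
  simp only [List.append_assoc]

theorem PT.Q' {α : Type} [Rep α] (io : ι) (p₀ : P) (ω c : ℕ) {n k : α → ℕ} {w : α → List Bool}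
    {m : Bool} (hn : PT m n) (hk : PT m k) (hw : PT m w) :
    PT m (fun a => Q io p₀ ω c (n a) (k a) (w a)) := by
  unfold Q
  have h1 : PT m (fun a => (w a).map fun b => colWord io p₀ (some b)) := by
    have h2 : PT m (fun z : α × Bool => bif z.2 then colWord io p₀ (some true)
        else colWord io p₀ (some false)) := by fun_prop
    have h3 := PT.map' (m := m) (l := w) hw h2
    refine h3.of_eq (fun a => ?_)
    congr 1
    funext b
    cases b <;> rfl
  fun_prop

end rows

/-- One regular language whose powers and roots decide everything. -/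
theorem exists_universal : ∃ U : Language Bool, U.IsRegular ∧
    (∀ n, treeAut U (List.replicate n true) = List.replicate n true) ∧
    ∀ r b : ℕ, Odd r → ¬ r ∣ b → ∀ C ∈ Pool.Agent.PPS.P,
      (treeAut C)^[r] = (treeAut U)^[b] → PSPACE ⊆ Pool.Agent.PPS.P := by
  obtain ⟨ι, _, _, P, _, m, io, p₀, p, hp, hspec⟩ := exists_rowSys pt_uacc
  refine ⟨lang (flowSys m io), lang_isRegular _, treeAut_lang_ones _, ?_⟩
  intro r b hr hrb B hB hroot L hL
  obtain ⟨red, hred, hredspec⟩ := uacc_complete (mem_PSPACE_iff_memB.1 hL)
  rw [mem_P_iff_memB]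
  let n : Inst → ℕ := fun x => p.eval (size x) + 1
  let k : Inst → ℕ := fun x => gX ι P * n x + 1
  have hn : PT true n := by
    have := PT.polyEval (m := true) (n := fun x : Inst => size x) (by fun_prop) p
    simp only [n]; fun_prop
  have hk : PT true k := by simp only [k]; fun_prop
  have hlen : ∀ x : Inst, (code x).length ≤ n x := by
    intro x
    have := hp (size x)
    show size x ≤ _
    simp only [n]; omega
  have key : ∀ x, uacc x =
      xor (memB B (Q io p₀ (r + b) 0 (n x) (k x) (code x)))
        (memB B (Q io p₀ (r + b) 1 (n x) (k x) (code x))) := by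
    intro x
    have h1 := pow_decides (flowSys m io) r b (r + b) (n x) (k x) hr hrb Nat.lt_two_pow_self.le
      (rowOf (n x) (some p₀, one io (code x))) (by simp) B (fun w => by rw [hroot])
    have h2 := hspec x (n x) (k x) (by simp only [n]; omega) (by simp only [k]; omega)
    rw [h2] at h1
    have e0 := query_eq_Q io p₀ (r + b) 0 (n x) (k x) (code x) (hlen x)
    have e1 := query_eq_Q io p₀ (r + b) 1 (n x) (k x) (code x) (hlen x)
    rw [Nat.zero_mul] at e0
    rw [Nat.one_mul] at e1
    rw [e0, e1] at h1
    exact (Bool.eq_iff_iff.2 h1).symm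
  have hQ : ∀ c, PT true (fun x : Inst => Q io p₀ (r + b) c (n x) (k x) (code x)) := fun c =>
    PT.Q' io p₀ (r + b) c hn hk (by fun_prop)
  have hB' := mem_P_iff_memB.1 hB
  have h3 : PT true uacc := (PT.xor' (hB'.comp (hQ 0)) (hB'.comp (hQ 1))).of_eq key
  exact (h3.comp hred).of_eq hredspec

theorem P_subset_PSPACE : Pool.Agent.PPS.P ⊆ PSPACE := by
  intro L hL
  rw [mem_PSPACE_iff_memB]
  exact (mem_P_iff_memB.1 hL).of_true

/-- Main theorem. -/
theorem main : ∃ U : Language Bool, U.IsRegular ∧ ∀ q a : ℕ, 0 < q →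
    List.TFAE [
      q ∣ a ∨ Odd (q / Nat.gcd q a) ∧ Pool.Agent.PPS.P = PSPACE,
      ∀ A ∈ Pool.Agent.PPS.P, ∃ B ∈ Pool.Agent.PPS.P, (treeAut B)^[q] = (treeAut A)^[a],
      ∃ B ∈ Pool.Agent.PPS.P, (treeAut B)^[q] = (treeAut U)^[a]] := by
  obtain ⟨U, hU, hfix, hard⟩ := exists_universal
  refine ⟨joinOdo U, joinOdo_isRegular hU, ?_⟩
  intro q a hq
  have hd : 0 < Nat.gcd q a := Nat.gcd_pos_of_pos_left _ hq
  have hq' : q = Nat.gcd q a * (q / Nat.gcd q a) :=
    (Nat.mul_div_cancel' (Nat.gcd_dvd_left _ _)).symm
  have ha' : a = Nat.gcd q a * (a / Nat.gcd q a) :=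
    (Nat.mul_div_cancel' (Nat.gcd_dvd_right _ _)).symm
  have hcop : Nat.Coprime (q / Nat.gcd q a) (a / Nat.gcd q a) := Nat.coprime_div_gcd_div_gcd hd
  tfae_have 1 → 2 := by
    rintro (⟨c, hc⟩ | ⟨hodd, hP⟩) A hA
    · refine ⟨pw A c, pw_mem_P hA c, ?_⟩
      rw [treeAut_pw', ← Function.iterate_mul, hc, Nat.mul_comm]
    · refine ⟨root (q / Nat.gcd q a) hodd (pw A (a / Nat.gcd q a)), ?_, ?_⟩
      · have h1 := pw_mem_P hA (a / Nat.gcd q a)
        rw [hP] at h1 ⊢
        exact root_mem_PSPACE _ hodd h1
      · have h1 : (treeAut (root (q / Nat.gcd q a) hodd (pw A (a / Nat.gcd q a))))^[q / Nat.gcd q a]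
            = treeAut (pw A (a / Nat.gcd q a)) := funext fun w => root_iterate _ hodd _ w
        have h2 : q = q / Nat.gcd q a * Nat.gcd q a := by rw [Nat.mul_comm, ← hq']
        have h3 := congrArg (fun n =>
          (treeAut (root (q / Nat.gcd q a) hodd (pw A (a / Nat.gcd q a))))^[n]) h2
        rw [h3, Function.iterate_mul, h1, treeAut_pw', ← Function.iterate_mul, Nat.mul_comm,
          ← ha']
  tfae_have 2 → 3 := by
    intro h
    exact h (joinOdo U) (regular_mem_P (joinOdo_isRegular hU))
  tfae_have 3 → 1 := by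
    rintro ⟨B, hB, hBU⟩
    rcases Nat.eq_zero_or_pos a with ha | ha
    · left; rw [ha]; exact dvd_zero _
    by_cases hqa : q ∣ a
    · left; exact hqa
    right
    have hnil := solution_nil U B q a ha hfix hBU
    have h0 := solution_sub (joinOdo U) B q a (memB_joinOdo_nil U) hnil hBU false
    have h1 := solution_sub (joinOdo U) B q a (memB_joinOdo_nil U) hnil hBU true
    rw [sub_joinOdo_false] at h0
    rw [sub_joinOdo_true] at h1
    have hodd := odo_no_root _ q a ha hq h0
    refine ⟨hodd, Set.Subset.antisymm P_subset_PSPACE ?_⟩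
    -- reduction to an odd exponent
    set g := q / Nat.gcd q a with hg
    set a1 := a / Nat.gcd q a with ha1
    obtain ⟨s, e, he, hde⟩ := Nat.exists_eq_two_pow_mul_odd hd.ne'
    have hC : (treeAut (pw (sub B true) (2 ^ s)))^[g] = (treeAut U)^[2 ^ s * a1] := by
      have hX : treeAut (pw (sub B true) (2 ^ s * g)) = treeAut (pw U (2 ^ s * a1)) := by
        refine eq_of_iterate_eq e he _ _ ?_
        rw [treeAut_pw', treeAut_pw', ← Function.iterate_mul, ← Function.iterate_mul]
        rw [show 2 ^ s * g * e = q by rw [hq', hde]; ring,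
          show 2 ^ s * a1 * e = a by rw [ha', hde]; ring]
        exact h1
      rw [treeAut_pw', treeAut_pw'] at hX
      rw [treeAut_pw', ← Function.iterate_mul]
      exact hX
    refine hard g (2 ^ s * a1) hodd ?_ _ (pw_mem_P (sub_mem_P hB true) _) hC
    intro hdvd
    have h3 : Nat.Coprime g (2 ^ s) := Nat.Coprime.pow_right _ (Nat.coprime_two_right.2 hodd)
    have h4 := h3.dvd_of_dvd_mul_left hdvd
    have h5 : g = 1 := by
      have := Nat.dvd_gcd (dvd_refl g) h4
      rw [hcop] at this
      exact Nat.dvd_one.1 this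
    apply hqa
    rw [h5, Nat.mul_one] at hq'
    rw [hq']
    exact Nat.gcd_dvd_right _ _
  tfae_finish

end Pool.Agent.H9
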