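import Pool.Agent.H9.Select

/-! Existence of the parameters of the unit machine. -/

namespace Pool.Agent.H9

open Pool.Agent.PPS

theorem eq_of_dvd_small {N x y : ℤ} (h : N ∣ x - y) (h1 : x - y < N) (h2 : -N < x - y) :
    x = y := by
  have : x - y = 0 := Int.eq_zero_of_abs_lt_dvd h (abs_lt.2 ⟨h2, h1⟩)
  omega

theorem chain_pos {N p r : ℕ} {ψ : ℕ → ℕ} (h : ∀ v, ψ (v + p) ≡ ψ v + r [MOD N]) (d : ℕ) :
    ψ (p * d) ≡ ψ 0 + r * d [MOD N] := by
  induction d with
  | zero => simp [Nat.ModEq]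
  | succ d ih =>
    have h1 := h (p * d)
    rw [show p * (d + 1) = p * d + p by ring, show ψ 0 + r * (d + 1) = ψ 0 + r * d + r by ring]
    exact h1.trans (ih.add_right r)

theorem chain_neg {N p r : ℕ} {ψ : ℕ → ℕ} (h : ∀ v, ψ v ≡ ψ (v + p) + r [MOD N]) (d : ℕ) :
    ψ 0 ≡ ψ (p * d) + r * d [MOD N] := by
  induction d with
  | zero => simp [Nat.ModEq]
  | succ d ih =>
    have h1 := h (p * d)
    rw [show p * (d + 1) = p * d + p by ring,
      show ψ (p * d + p) + r * (d + 1) = ψ (p * d + p) + r + r * d by ring]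
    exact ih.trans (h1.add_right (r * d))

theorem exists_par (p r : ℕ) (hp : 1 ≤ p) (hr : 1 ≤ r) (neg : Bool) (hne : neg = false → p ≠ r) :
    ∃ (κ : ℕ) (ε : ℕ → Bool) (vs : List ℕ), 0 < κ ∧ ε 1 = false ∧ ε (2 ^ κ - 1) = false ∧
      Many κ ε ∧ vs ≠ [] ∧
      (∀ v ∈ vs, 1 ≤ v ∧ v + p < 2 ^ κ ∧ ε v = false ∧ ε (v + p) = true) ∧
      (∀ ψ : ℕ → ℕ, (∀ v, ψ v < 2 ^ κ) →
        (neg = true → ∀ v, ψ v ≡ ψ (v + p) + r [MOD 2 ^ κ]) →
        (neg = false → ∀ v, ψ (v + p) ≡ ψ v + r [MOD 2 ^ κ]) →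
        ∃ v ∈ vs, 1 ≤ ψ (if neg then v + p else v) ∧ ψ (if neg then v + p else v) + r < 2 ^ κ ∧
          ε (ψ (if neg then v + p else v) + r) = ε (ψ (if neg then v + p else v))) := by
  classical
  obtain ⟨d1, hd1⟩ : ∃ d, d = 8 * (p + r) := ⟨_, rfl⟩
  obtain ⟨a1, ha1⟩ : ∃ d, d = p * d1 := ⟨_, rfl⟩
  obtain ⟨b1, hb1⟩ : ∃ d, d = r * d1 := ⟨_, rfl⟩
  obtain ⟨d2, hd2⟩ : ∃ d, d = 8 * (a1 + b1 + p + r) := ⟨_, rfl⟩
  obtain ⟨a2, ha2⟩ : ∃ d, d = p * d2 := ⟨_, rfl⟩
  obtain ⟨b2, hb2⟩ : ∃ d, d = r * d2 := ⟨_, rfl⟩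
  obtain ⟨d3, hd3⟩ : ∃ d, d = 8 * (a2 + b2 + p + r) := ⟨_, rfl⟩
  obtain ⟨a3, ha3⟩ : ∃ d, d = p * d3 := ⟨_, rfl⟩
  obtain ⟨b3, hb3⟩ : ∃ d, d = r * d3 := ⟨_, rfl⟩
  obtain ⟨κ, hκ⟩ : ∃ d, d = 8 * (a3 + b3 + p + r) := ⟨_, rfl⟩
  have hN : κ < 2 ^ κ := Nat.lt_two_pow_self
  obtain ⟨N, hNe⟩ : ∃ N, N = 2 ^ κ := ⟨_, rfl⟩
  rw [← hNe] at hN
  have da1 : d1 ≤ a1 := by rw [ha1]; exact Nat.le_mul_of_pos_left _ hp
  have da2 : d2 ≤ a2 := by rw [ha2]; exact Nat.le_mul_of_pos_left _ hp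
  have da3 : d3 ≤ a3 := by rw [ha3]; exact Nat.le_mul_of_pos_left _ hp
  have db1 : d1 ≤ b1 := by rw [hb1]; exact Nat.le_mul_of_pos_left _ hr
  have db2 : d2 ≤ b2 := by rw [hb2]; exact Nat.le_mul_of_pos_left _ hr
  have db3 : d3 ≤ b3 := by rw [hb3]; exact Nat.le_mul_of_pos_left _ hr
  let ε : ℕ → Bool := fun v => decide ((a1 < v ∧ v ≤ a1 + p) ∨ (a2 < v ∧ v ≤ a2 + p) ∨
    (a3 < v ∧ v ≤ a3 + p))
  have hεt : ∀ v, ε v = true ↔ ((a1 < v ∧ v ≤ a1 + p) ∨ (a2 < v ∧ v ≤ a2 + p) ∨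
    (a3 < v ∧ v ≤ a3 + p)) := fun v => by simp [ε]
  have hεf : ∀ v, ε v = false ↔ ¬ ((a1 < v ∧ v ≤ a1 + p) ∨ (a2 < v ∧ v ≤ a2 + p) ∨
    (a3 < v ∧ v ≤ a3 + p)) := fun v => by rw [← hεt]; simp
  refine ⟨κ, ε, [a1, a2, a3], by omega, ?_, ?_, ?_, by simp, ?_, ?_⟩
  · rw [hεf]; omega
  · rw [hεf, ← hNe]; omega
  · -- many good values
    unfold Many
    rw [← hNe]
    have hbad : ((Finset.range N).filter (fun v => ¬ Good κ ε v)).card ≤ 1 + 3 * p := by
      have hsub : (Finset.range N).filter (fun v => ¬ Good κ ε v) ⊆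
          {0} ∪ (Finset.Ioc a1 (a1 + p) ∪ (Finset.Ioc a2 (a2 + p) ∪ Finset.Ioc a3 (a3 + p))) := by
        intro v hv
        rw [Finset.mem_filter, Finset.mem_range] at hv
        obtain ⟨hv1, hv2⟩ := hv
        rw [Finset.mem_union, Finset.mem_union, Finset.mem_union, Finset.mem_singleton,
          Finset.mem_Ioc, Finset.mem_Ioc, Finset.mem_Ioc]
        by_contra hcon
        apply hv2
        refine ⟨by omega, by omega, ?_⟩
        rw [hεf]
        omega
      refine (Finset.card_le_card hsub).trans ?_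
      refine (Finset.card_union_le _ _).trans ?_
      have h1 := Finset.card_union_le (Finset.Ioc a1 (a1 + p))
        (Finset.Ioc a2 (a2 + p) ∪ Finset.Ioc a3 (a3 + p))
      have h2 := Finset.card_union_le (Finset.Ioc a2 (a2 + p)) (Finset.Ioc a3 (a3 + p))
      rw [Nat.card_Ioc, Nat.card_Ioc] at h2
      rw [Nat.card_Ioc] at h1
      rw [Finset.card_singleton]
      omega
    have h2 := Finset.card_filter_add_card_filter_not (s := Finset.range N)
      (fun v => Good κ ε v)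
    rw [Finset.card_range] at h2
    have h3 : N < 2 * ((Finset.range N).filter (fun v => Good κ ε v)).card := by omega
    convert h3 using 2
  · intro v hv
    rw [hεf, hεt, ← hNe]
    simp only [List.mem_cons, List.not_mem_nil, or_false] at hv
    rcases hv with rfl | rfl | rfl
    · refine ⟨by omega, by omega, by omega, by omega⟩
    · refine ⟨by omega, by omega, by omega, by omega⟩
    · refine ⟨by omega, by omega, by omega, by omega⟩
  · intro ψ hψ hneg hpos
    by_contra hcon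
    push Not at hcon
    rw [← hNe] at hψ hneg hpos hcon
    -- signed representatives
    have zone : ∀ v ∈ [a1, a2, a3], ∃ x : ℤ, (N : ℤ) ∣ x - (ψ (if neg then v + p else v) : ℕ) ∧
        ((-(r : ℤ) ≤ x ∧ x ≤ 0) ∨ ((a1 : ℤ) - r ≤ x ∧ x ≤ (a1 : ℤ) + p) ∨
          ((a2 : ℤ) - r ≤ x ∧ x ≤ (a2 : ℤ) + p) ∨ ((a3 : ℤ) - r ≤ x ∧ x ≤ (a3 : ℤ) + p)) := by
      intro v hv
      have h1 := hcon v hv
      have h2 := hψ (if neg then v + p else v)
      generalize ψ (if neg then v + p else v) = w at h1 h2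
      by_cases hw0 : 1 ≤ w
      · by_cases hwr : w + r < N
        · have h3 := h1 hw0 hwr
          refine ⟨w, by simp, ?_⟩
          right
          have h4 : (ε (w + r) = true ∧ ε w = false) ∨ (ε (w + r) = false ∧ ε w = true) := by
            revert h3
            cases ε (w + r) <;> cases ε w <;> simp
          rw [hεt, hεf, hεf, hεt] at h4
          omega
        · refine ⟨(w : ℤ) - N, ⟨-1, by ring⟩, ?_⟩
          left
          omega
      · refine ⟨0, ?_, by left; omega⟩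
        have : w = 0 := by omega
        rw [this]; simp
    obtain ⟨x1, e1, z1⟩ := zone a1 (by simp)
    obtain ⟨x2, e2, z2⟩ := zone a2 (by simp)
    obtain ⟨x3, e3, z3⟩ := zone a3 (by simp)
    have hpr : p ≠ r → ((a3 : ℤ) + d3 ≤ b3 ∨ (b3 : ℤ) + d3 ≤ a3) := by
      intro h
      rcases lt_or_gt_of_ne h with h | h
      · left
        have : (p + 1) * d3 ≤ r * d3 := Nat.mul_le_mul_right _ h
        rw [Nat.add_mul, one_mul, ← ha3, ← hb3] at this
        omega
      · right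
        have : (r + 1) * d3 ≤ p * d3 := Nat.mul_le_mul_right _ h
        rw [Nat.add_mul, one_mul, ← ha3, ← hb3] at this
        omega
    refine sel_aux p r d1 d2 d3 a1 a2 a3 b1 b2 b3 x1 x2 x3 (by omega) (by omega) (by omega)
      (by omega) (by omega) (by omega) (by omega) (by omega) (by omega) (by omega) (by omega)
      z1 z2 z3 ?_
    cases neg with
    | false =>
      left
      simp only [Bool.false_eq_true, if_false] at e1 e2 e3
      have c1 : (N : ℤ) ∣ (ψ a1 : ℤ) - (ψ 0 + b1) := by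
        have := (chain_pos (hpos rfl) d1).symm
        rw [← ha1, ← hb1] at this
        have h := (Nat.modEq_iff_dvd).1 this
        push_cast at h
        exact h
      have c2 : (N : ℤ) ∣ (ψ a2 : ℤ) - (ψ 0 + b2) := by
        have := (chain_pos (hpos rfl) d2).symm
        rw [← ha2, ← hb2] at this
        have h := (Nat.modEq_iff_dvd).1 this
        push_cast at h
        exact h
      have c3 : (N : ℤ) ∣ (ψ a3 : ℤ) - (ψ 0 + b3) := by
        have := (chain_pos (hpos rfl) d3).symm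
        rw [← ha3, ← hb3] at this
        have h := (Nat.modEq_iff_dvd).1 this
        push_cast at h
        exact h
      refine ⟨?_, ?_, hpr (hne rfl)⟩
      · apply eq_of_dvd_small (N := N)
        · have := (e3.add c3).sub (e1.add c1)
          have e : (x3 - (ψ a3 : ℤ) + ((ψ a3 : ℤ) - (ψ 0 + b3))) -
            (x1 - (ψ a1 : ℤ) + ((ψ a1 : ℤ) - (ψ 0 + b1))) = (x3 - x1) - ((b3 : ℤ) - b1) := by ring
          rwa [e] at this
        · omega
        · omega
      · apply eq_of_dvd_small (N := N)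
        · have := (e2.add c2).sub (e1.add c1)
          have e : (x2 - (ψ a2 : ℤ) + ((ψ a2 : ℤ) - (ψ 0 + b2))) -
            (x1 - (ψ a1 : ℤ) + ((ψ a1 : ℤ) - (ψ 0 + b1))) = (x2 - x1) - ((b2 : ℤ) - b1) := by ring
          rwa [e] at this
        · omega
        · omega
    | true =>
      right
      simp only [if_true] at e1 e2 e3
      have cc : ∀ d a b, a = p * d → b = r * d →
          (N : ℤ) ∣ (ψ (a + p) : ℤ) + (b + r) - ψ 0 := by
        intro d a b ha hb
        have := chain_neg (hneg rfl) (d + 1)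
        rw [show p * (d + 1) = a + p by rw [ha]; ring,
          show r * (d + 1) = b + r by rw [hb]; ring] at this
        have h := (Nat.modEq_iff_dvd).1 this
        push_cast at h
        exact h
      have c1 := cc d1 a1 b1 ha1 hb1
      have c2 := cc d2 a2 b2 ha2 hb2
      have c3 := cc d3 a3 b3 ha3 hb3
      refine ⟨?_, ?_, ?_⟩
      · apply eq_of_dvd_small (N := N)
        · have := (e3.add c3).sub (e1.add c1)
          have e : (x3 - (ψ (a3 + p) : ℤ) + ((ψ (a3 + p) : ℤ) + (b3 + r) - ψ 0)) -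
            (x1 - (ψ (a1 + p) : ℤ) + ((ψ (a1 + p) : ℤ) + (b1 + r) - ψ 0)) =
            (x3 - x1) - ((b1 : ℤ) - b3) := by ring
          rwa [e] at this
        · omega
        · omega
      · apply eq_of_dvd_small (N := N)
        · have := (e2.add c2).sub (e1.add c1)
          have e : (x2 - (ψ (a2 + p) : ℤ) + ((ψ (a2 + p) : ℤ) + (b2 + r) - ψ 0)) -
            (x1 - (ψ (a1 + p) : ℤ) + ((ψ (a1 + p) : ℤ) + (b1 + r) - ψ 0)) =
            (x2 - x1) - ((b1 : ℤ) - b2) := by ring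
          rwa [e] at this
        · omega
        · omega
      · by_cases hpr' : p = r
        · right
          subst hpr'
          subst ha1 hb1 ha2 hb2 ha3 hb3
          exact ⟨rfl, rfl, rfl⟩
        · left
          exact hpr hpr'

end Pool.Agent.H9
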