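import Pool.Agent.H9.Group
import Pool.Agent.H9.SelectPar
import Pool.Agent.H9.CubeMain

/-! Conjugacy relations between level transitive tree automorphisms. -/

namespace Pool.Agent.H9

open Pool.Agent.PPS

/-! ### The basic computation -/

theorem iterate_query {g : ℕ} (R : RowSys g) (n k ω : ℕ) (ini : List (Col g))
    (hini : ini.length = n) : ∃ L : Bool, (L = true ↔ R.Acc (R.step^[2 ^ k - 1] ini)) ∧
      (mealy (bδ R) bo bs0)^[2 ^ tot (lev n k g)]
        (query n k ω ini 0 (List.replicate (n + k) false) ++ [false]) =
      query n k ω ini (2 ^ tot (lev n k g)) (List.replicate (n + k) false) ++ [L] := by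
  have hZl : (List.replicate (n + k) false).length = (lev n k g).length := by
    rw [length_lev]; simp
  refine ⟨peelAll (lev n k g) (leaf R ω n ini) 0, ?_, ?_⟩
  · unfold lev
    rw [peelAll_leaf R ω n k ini hini]
    simp
  · have e : mealy (bδ R) bo bs0 = treeAut (lang R) := by
      funext w
      exact (treeAut_eq_mealy (lang R) (bδ R) bo bs0 (mem_lang R) w).symm
    rw [e, ← encW_lay n k ω ini 0 _ false hZl, iterate_treeAut_encW,
      iterate_cellMap_lay R n k ω ini hini 0 _ _ (by simp [hZl])]
    have h := runD_full (lev n k g) (leaf R ω n ini) 0 1 (List.replicate (n + k) false) false hZl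
    rw [Nat.zero_mul, Nat.one_mul] at h
    rw [h, encW_lay n k ω ini _ _ _ hZl, Nat.zero_add]
    simp [xorSum]

/-! ### The odometer -/

theorem iterate_odo_split (z1 z2 : List Bool) (c : ℕ) :
    (treeAut odo)^[c * 2 ^ z1.length] (z1 ++ z2) = z1 ++ inc^[c] z2 := by
  have hinc : ∀ c n t, inc^[c] (bits n t) = bits n (t + c) := by
    intro c n t
    induction c with
    | zero => rfl
    | succ c ih => rw [Function.iterate_succ_apply', ih, inc_bits, Nat.add_assoc]
  have hv : val z1 < 2 ^ z1.length := by
    have := val_bits z1.length (val z1)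
    rw [bits_val] at this
    rw [this]
    exact Nat.mod_lt _ (by positivity)
  have e : z1 ++ z2 = bits (z1.length + z2.length) (val z1 + 2 ^ z1.length * val z2) := by
    rw [bits_add]
    congr 1
    · rw [bits_congr (t' := val z1) (by simp), bits_val]
    · rw [Nat.add_mul_div_left _ _ (by positivity), Nat.div_eq_of_lt hv, zero_add, bits_val]
  rw [e, iterate_odo, bits_add]
  congr 1
  · rw [bits_congr (t' := val z1) (by
      rw [show val z1 + 2 ^ z1.length * val z2 + c * 2 ^ z1.length =
        val z1 + 2 ^ z1.length * (val z2 + c) by ring]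
      simp), bits_val]
  · rw [show val z1 + 2 ^ z1.length * val z2 + c * 2 ^ z1.length =
        val z1 + 2 ^ z1.length * (val z2 + c) by ring,
      Nat.add_mul_div_left _ _ (by positivity), Nat.div_eq_of_lt hv, zero_add]
    have := hinc c z2.length (val z2)
    rw [bits_val] at this
    exact this.symm

theorem PT.iterate_inc {m : Bool} (c : ℕ) : PT m (fun w : List Bool => inc^[c] w) := by
  induction c with
  | zero => exact PT.id
  | succ c ih =>
    have : PT m (fun w : List Bool => inc (inc^[c] w)) := by fun_prop
    refine this.of_eq (fun w => ?_)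
    rw [Function.iterate_succ_apply']

/-! ### The universal automorphism -/

/-- What we need from the universal automorphism. -/
theorem exists_universal_conj (p r : ℕ) (hp : 1 ≤ p) (hr : 1 ≤ r) (neg : Bool)
    (hne : neg = false → p ≠ r) : ∃ U : Language Bool, U.IsRegular ∧ LevelTransitive U ∧
      (∀ C ∈ Pool.Agent.PPS.P, (neg = false → ∀ w, treeAut C ((treeAut U)^[p] w) =
          (treeAut U)^[r] (treeAut C w)) →
        (neg = true → ∀ w, (treeAut U)^[r] (treeAut C ((treeAut U)^[p] w)) = treeAut C w) →
        PSPACE ⊆ Pool.Agent.PPS.P) ∧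
      (∀ C ∈ Pool.Agent.PPS.P, (∀ w, treeAut C (treeAut U w) = treeAut odo (treeAut C w)) →
        PSPACE ⊆ Pool.Agent.PPS.P) := by
  classical
  obtain ⟨ι, _, _, P, _, m, io, p₀, pol, hpol, hspec⟩ := exists_rowSys pt_uacc
  obtain ⟨κ, ε, vs, hκ, hε1, hεl, hmany, hvne, hvs, hsel⟩ := exists_par p r hp hr neg hne
  let R := flowSys m io
  let U : Language Bool := langX (bδ R) bo bs0 κ ε
  let n : Inst → ℕ := fun x => pol.eval (size x) + 1
  let k : Inst → ℕ := fun x => gX ι P * n x + 1
  let T : Inst → ℕ := fun x => 2 * n x + (gX ι P * n x + 2) * k x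
  have hn : PT true n := by
    have := PT.polyEval (m := true) (n := fun x : Inst => size x) (by fun_prop) pol
    simp only [n]; fun_prop
  have hk : PT true k := by simp only [k]; fun_prop
  have hT : PT true T := by simp only [T]; fun_prop
  have hlen : ∀ x : Inst, (code x).length ≤ n x := by
    intro x
    have := hpol (size x)
    show size x ≤ _
    simp only [n]; omega
  let D0 : Inst → List Bool := fun x => Q io p₀ 1 0 (n x) (k x) (code x)
  let D1 : Inst → List Bool := fun x => Q io p₀ 1 1 (n x) (k x) (code x)
  have hD0 : PT true D0 := PT.Q' io p₀ 1 0 hn hk (by fun_prop)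
  have hD1 : PT true D1 := PT.Q' io p₀ 1 1 hn hk (by fun_prop)
  have hL : ∀ x, (mealy (bδ R) bo bs0)^[2 ^ T x] (D0 x ++ [false]) = D1 x ++ [uacc x] := by
    intro x
    obtain ⟨L, h1, h2⟩ := iterate_query R (n x) (k x) 1 (rowOf (n x) (some p₀, one io (code x)))
      (by simp)
    have e0 := query_eq_Q io p₀ 1 0 (n x) (k x) (code x) (hlen x)
    have e1 := query_eq_Q io p₀ 1 1 (n x) (k x) (code x) (hlen x)
    rw [Nat.zero_mul] at e0
    rw [Nat.one_mul] at e1
    rw [e0, e1, tot_lev] at h2
    have h3 := hspec x (n x) (k x) (by simp only [n]; omega) (by simp only [k]; omega)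
    have h4 : L = uacc x := by
      rw [Bool.eq_iff_iff, h1, ← h3]
    rw [h4] at h2
    exact h2
  refine ⟨U, langX_isRegular (bδ R) bo bs0 κ ε,
    langX_levelTransitive (bδ R) bo bs0 κ ε hκ hε1 hεl, ?_, ?_⟩
  · intro C hC hpos hneg L' hL'
    obtain ⟨red, hred, hredspec⟩ := uacc_complete (mem_PSPACE_iff_memB.1 hL')
    rw [mem_P_iff_memB]
    have hC' := mem_P_iff_memB.1 hC
    -- iterated relations
    have hpos' : neg = false → ∀ c w, treeAut C ((treeAut U)^[p * c] w) =
        (treeAut U)^[r * c] (treeAut C w) := by
      intro hn c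
      induction c with
      | zero => intro w; rfl
      | succ c ih =>
        intro w
        rw [Nat.mul_succ, Nat.add_comm, Function.iterate_add_apply, hpos hn, ih,
          ← Function.iterate_add_apply]
        congr 1
        ring
    have hneg' : neg = true → ∀ c w, (treeAut U)^[r * c]
        (treeAut C ((treeAut U)^[p * c] w)) = treeAut C w := by
      intro hn c
      induction c with
      | zero => intro w; rfl
      | succ c ih =>
        intro w
        rw [Nat.mul_succ, Nat.mul_succ, Function.iterate_add_apply,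
          Nat.add_comm (p * c) p, Function.iterate_add_apply, hneg hn, ih]
    let ph : Inst → List Bool := fun x => phase κ ε C (T x)
    have hph : PT true ph := PT.phase' κ ε hmany hC' hT
    let ok : List (List Bool) := ((List.range (2 ^ κ)).filter (fun w => decide (1 ≤ w ∧
      w + r < 2 ^ κ ∧ ε (w + r) = ε w))).map (bits κ)
    have hok : ∀ u v, img C u (bits κ v) ∈ ok ↔ (1 ≤ psi κ C u v ∧ psi κ C u v + r < 2 ^ κ ∧
        ε (psi κ C u v + r) = ε (psi κ C u v)) := by
      intro u v
      simp only [ok, List.mem_map, List.mem_filter, List.mem_range, decide_eq_true_eq]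
      constructor
      · rintro ⟨w, ⟨hw, h⟩, he⟩
        have : psi κ C u v = w := by
          unfold psi
          rw [← he, val_bits_lt κ w hw]
        rw [this]
        exact h
      · intro h
        exact ⟨psi κ C u v, ⟨psi_lt κ C u v, h⟩, (img_bits κ C u v).symm⟩
    let F : ℕ → Inst → Bool := fun v x =>
      xor (memB C (ph x ++ (bits κ v ++ D0 x))) (memB C (ph x ++ (bits κ (v + p) ++ D1 x)))
    let c : ℕ → Inst → Bool := fun v x =>
      decide (img C (ph x) (bits κ (if neg then v + p else v)) ∈ ok)
    have key : ∀ x, uacc x = vs.foldr (fun v acc => bif c v x then F v x else acc) false := by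
      intro x
      have hex : ∃ v ∈ vs, c v x = true := by
        obtain ⟨v, hv, h⟩ := hsel (psi κ C (ph x)) (psi_lt κ C (ph x))
          (fun hn v => psi_neg (bδ R) bo bs0 κ ε hκ hε1 hεl hmany C (T x) p r
            (fun w => hneg' hn (2 ^ (κ * T x)) w) v)
          (fun hn v => psi_pos (bδ R) bo bs0 κ ε hκ hε1 hεl hmany C (T x) p r
            (fun w => hpos' hn (2 ^ (κ * T x)) w) v)
        exact ⟨v, hv, by simpa [c] using (hok (ph x) _).2 h⟩
      obtain ⟨v, hv, hc, he⟩ := foldr_pick vs (fun v => c v x) (fun v => F v x) false hex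
      rw [he]
      obtain ⟨s1, s2, s3, s4⟩ := hvs v hv
      have hc' := (hok (ph x) _).1 (by simpa [c] using hc)
      obtain ⟨c1, c2, c3⟩ := hc'
      rcases hn : neg with _ | _
      · rw [hn] at c1 c2 c3
        exact decides_pos (bδ R) bo bs0 κ ε hκ hε1 hεl hmany C (T x) p r (D0 x) (D1 x) (uacc x)
          (hL x) (fun w => hpos' hn (2 ^ (κ * T x)) w) v s1 s2 s3 s4 c1 c2 c3
      · rw [hn] at c1 c2 c3
        exact decides_neg (bδ R) bo bs0 κ ε hκ hε1 hεl hmany C (T x) p r (D0 x) (D1 x) (uacc x)
          (hL x) (fun w => hneg' hn (2 ^ (κ * T x)) w) v s1 s2 s3 s4 c1 c2 c3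
    have hF : ∀ v, PT true (F v) := by
      intro v
      have h1 : PT true (fun x => ph x ++ (bits κ v ++ D0 x)) := by fun_prop
      have h2 : PT true (fun x => ph x ++ (bits κ (v + p) ++ D1 x)) := by fun_prop
      exact PT.xor' (hC'.comp h1) (hC'.comp h2)
    have hc : ∀ v, PT true (c v) := by
      intro v
      have h1 : PT true (fun x => img C (ph x) (bits κ (if neg then v + p else v))) :=
        PT.img' hC' hph (by fun_prop)
      exact (PT.memConst ok h1).of_eq (fun x => by simp only [c]; rw [decide_eq_decide])
    have h3 : PT true uacc := by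
      have := PT.foldrConst (m := true) vs hc hF (d := fun _ => false) (by fun_prop)
      exact this.of_eq key
    exact (h3.comp hred).of_eq hredspec
  · intro C hC hrel L' hL'
    obtain ⟨red, hred, hredspec⟩ := uacc_complete (mem_PSPACE_iff_memB.1 hL')
    rw [mem_P_iff_memB]
    have hC' := mem_P_iff_memB.1 hC
    have hrel' : ∀ c w, treeAut C ((treeAut U)^[c] w) = (treeAut odo)^[c] (treeAut C w) := by
      intro c
      induction c with
      | zero => intro w; rfl
      | succ c ih =>
        intro w
        rw [Function.iterate_succ_apply, ih, hrel, Function.iterate_succ_apply]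
    let ph : Inst → List Bool := fun x => phase κ ε C (T x)
    have hph : PT true ph := PT.phase' κ ε hmany hC' hT
    -- a source
    obtain ⟨v, hv⟩ := List.exists_mem_of_ne_nil vs hvne
    obtain ⟨s1, s2, s3, s4⟩ := hvs v hv
    let z : Inst → List Bool := fun x => img C (ph x) (bits κ v ++ (D0 x ++ [false]))
    have key : ∀ x, uacc x = xor (memB C (ph x ++ (bits κ (v + p) ++ D1 x)))
        ((inc^[p] (z x)).reverse.headD false) := by
      intro x
      have hs := X_source (bδ R) bo bs0 κ ε hκ hε1 hεl hmany C (T x) p (D0 x) (D1 x) (uacc x)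
        (hL x) v s1 s2 s3 s4
      have h := hrel' (p * 2 ^ (κ * T x)) (ph x ++ (bits κ v ++ (D0 x ++ [false])))
      have hlph : (treeAut C (ph x)).length = κ * T x := by
        rw [length_treeAut]
        exact length_phase κ ε hmany C (T x)
      have e1 : treeAut C (ph x ++ (bits κ v ++ (D0 x ++ [false]))) = treeAut C (ph x) ++ z x :=
        treeAut_append _ _ _
      have e2 := iterate_odo_split (treeAut C (ph x)) (z x) p
      rw [hlph] at e2
      have e3 : treeAut C (ph x ++ (bits κ (v + p) ++ (D1 x ++ [uacc x]))) =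
          treeAut C (ph x ++ (bits κ (v + p) ++ D1 x)) ++
            [xor (memB C (ph x ++ (bits κ (v + p) ++ D1 x))) (uacc x)] := by
        rw [show ph x ++ (bits κ (v + p) ++ (D1 x ++ [uacc x])) =
          (ph x ++ (bits κ (v + p) ++ D1 x)) ++ [uacc x] by simp, treeAut_snoc']
      have h5 : treeAut C (ph x ++ (bits κ (v + p) ++ (D1 x ++ [uacc x]))) =
          treeAut C (ph x) ++ inc^[p] (z x) := by
        rw [← e2, ← e1, ← h]
        exact (congrArg (treeAut C) hs).symm
      rw [e3] at h5
      have hne : inc^[p] (z x) ≠ [] := by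
        intro hcon
        have h6 : ∀ c, (inc^[c] (z x)).length = (z x).length := by
          intro c
          induction c with
          | zero => rfl
          | succ c ih => rw [Function.iterate_succ_apply', length_inc, ih]
        have := h6 p
        rw [hcon] at this
        simp [z] at this
      rcases List.eq_nil_or_concat (inc^[p] (z x)) with h7 | ⟨N', y, h7⟩
      · exact absurd h7 hne
      · rw [List.concat_eq_append] at h7
        rw [h7] at h5 ⊢
        have h5' := h5.trans (List.append_assoc _ _ _).symm
        have h8 := List.append_inj_right' h5' rfl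
        simp only [List.cons.injEq, and_true] at h8
        rw [List.reverse_append]
        simp only [List.reverse_cons, List.reverse_nil, List.nil_append, List.cons_append,
          List.headD_cons]
        rw [← h8]
        cases memB C (ph x ++ (bits κ (v + p) ++ D1 x)) <;> cases uacc x <;> rfl
    have h3 : PT true uacc := by
      have h1 : PT true (fun x => ph x ++ (bits κ (v + p) ++ D1 x)) := by fun_prop
      have h2 : PT true z := PT.img' hC' hph (by fun_prop)
      have h4 : PT true (fun x => inc^[p] (z x)) := (PT.iterate_inc p).comp h2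
      have h5 : PT true (fun x => (inc^[p] (z x)).reverse.headD false) :=
        PT.headD' h4.reverse' (by fun_prop)
      exact (PT.xor' (hC'.comp h1) h5).of_eq key
    exact (h3.comp hred).of_eq hredspec

/-- Main theorem on conjugacy. -/
theorem main_conj (a b : ℤ) (ha : a ≠ 0) (hb : b ≠ 0) (hab : a ≠ b)
    (hv : padicValInt 2 a = padicValInt 2 b) :
    ∃ u : Equiv.Perm (List Bool), FiniteState u ∧ LevelTrans u ∧
      List.TFAE [
        Pool.Agent.PPS.P = PSPACE,
        ∀ x ∈ GP, ∀ x' ∈ GP, LevelTrans x → LevelTrans x' → ∃ y ∈ GP, y * x * y⁻¹ = x',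
        ∀ x ∈ GP, LevelTrans x → ∃ y ∈ GP, y * x ^ a * y⁻¹ = x ^ b,
        ∃ y ∈ GP, y * u ^ a * y⁻¹ = u ^ b,
        ∃ y ∈ GP, ∀ w, (y * u * y⁻¹) w = treeAut odo w] := by
  obtain ⟨U, hU, hUt, hrel, hodo⟩ := exists_universal_conj a.natAbs b.natAbs
    (Int.natAbs_pos.2 ha) (Int.natAbs_pos.2 hb) (decide (a < 0 ↔ ¬ b < 0)) (by
      intro h hab'
      have h1 : ¬ (a < 0 ↔ ¬ b < 0) := by simpa using h
      apply hab
      omega)
  have huGP : perm (U : Set (List Bool)) ∈ GP := perm_mem_GP (regular_mem_P hU)
  have huT : LevelTrans (perm (U : Set (List Bool))) := (levelTrans_perm _).2 hUt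
  refine ⟨perm U, ⟨U, hU, fun _ => rfl⟩, huT, ?_⟩
  tfae_have 1 → 2 := fun h x hx x' hx' ht ht' => conj_of_eq h hx hx' ht ht'
  tfae_have 2 → 3 := fun h x hx ht => conj_pow_of_conj hx ht h a b ha hb hv
  tfae_have 3 → 4 := fun h => h _ huGP huT
  tfae_have 2 → 5 := by
    intro h
    obtain ⟨y, hy, he⟩ := h _ huGP _ (perm_mem_GP odo_mem_P) huT
      ((levelTrans_perm _).2 odo_levelTransitive)
    exact ⟨y, hy, fun w => by rw [he]; rfl⟩
  tfae_have 5 → 1 := by
    rintro ⟨y, ⟨C, hC, hC'⟩, he⟩
    refine Set.Subset.antisymm P_subset_PSPACE (hodo C hC (fun w => ?_))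
    have h1 := he (y w)
    have h0 : y⁻¹ (y w) = w := by
      rw [← Equiv.Perm.mul_apply, inv_mul_cancel]
      rfl
    rw [Equiv.Perm.mul_apply, Equiv.Perm.mul_apply, h0, perm_apply, hC', hC'] at h1
    exact h1
  tfae_have 4 → 1 := by
    rintro ⟨y, ⟨C, hC, hC'⟩, he⟩
    have hup : ∀ (c : ℕ) w, (perm (U : Set (List Bool)) ^ c) w = (treeAut U)^[c] w :=
      perm_pow_apply _
    have he1 : y * perm (U : Set (List Bool)) ^ a = perm (U : Set (List Bool)) ^ b * y := by
      rw [← he]; group
    refine Set.Subset.antisymm P_subset_PSPACE (hrel C hC (fun hn w => ?_) (fun hn w => ?_))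
    · have hn' : ¬ (a < 0 ↔ ¬ b < 0) := by simpa using hn
      have h2 : y * perm (U : Set (List Bool)) ^ a.natAbs =
          perm (U : Set (List Bool)) ^ b.natAbs * y := by
        rcases lt_or_ge a 0 with h | h
        · have hb' : b < 0 := by omega
          have ea : a = -(a.natAbs : ℤ) := by omega
          have eb : b = -(b.natAbs : ℤ) := by omega
          rw [ea, eb, zpow_neg, zpow_neg, zpow_natCast, zpow_natCast] at he1
          generalize perm (U : Set (List Bool)) ^ a.natAbs = s at *
          generalize perm (U : Set (List Bool)) ^ b.natAbs = t at *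
          have h3 : t * (y * s⁻¹) * s = t * (t⁻¹ * y) * s := by rw [he1]
          have h4 : t * (y * s⁻¹) * s = t * y := by group
          have h5 : t * (t⁻¹ * y) * s = y * s := by group
          rw [h4, h5] at h3
          exact h3.symm
        · have hb' : 0 ≤ b := by omega
          have ea : a = (a.natAbs : ℤ) := by omega
          have eb : b = (b.natAbs : ℤ) := by omega
          rw [ea, eb, zpow_natCast, zpow_natCast] at he1
          exact he1
      have h3 := congrArg (fun f : Equiv.Perm (List Bool) => f w) h2
      simp only [Equiv.Perm.mul_apply] at h3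
      rw [hup, hup, hC', hC'] at h3
      exact h3
    · have hn' : (a < 0 ↔ ¬ b < 0) := by simpa using hn
      have h2 : perm (U : Set (List Bool)) ^ b.natAbs * (y * perm (U : Set (List Bool)) ^ a.natAbs) =
          y := by
        rcases lt_or_ge a 0 with h | h
        · have hb' : 0 ≤ b := by omega
          have ea : a = -(a.natAbs : ℤ) := by omega
          have eb : b = (b.natAbs : ℤ) := by omega
          rw [ea, eb, zpow_neg, zpow_natCast, zpow_natCast] at he1
          generalize perm (U : Set (List Bool)) ^ a.natAbs = s at *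
          generalize perm (U : Set (List Bool)) ^ b.natAbs = t at *
          rw [← mul_assoc, ← he1]
          group
        · have hb' : b < 0 := by omega
          have ea : a = (a.natAbs : ℤ) := by omega
          have eb : b = -(b.natAbs : ℤ) := by omega
          rw [ea, eb, zpow_neg, zpow_natCast, zpow_natCast] at he1
          generalize perm (U : Set (List Bool)) ^ a.natAbs = s at *
          generalize perm (U : Set (List Bool)) ^ b.natAbs = t at *
          rw [he1]
          group
      have h3 := congrArg (fun f : Equiv.Perm (List Bool) => f w) h2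
      simp only [Equiv.Perm.mul_apply] at h3
      rw [hup, hup, hC', hC'] at h3
      exact h3
  tfae_finish

end Pool.Agent.H9
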