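import Pool.Agent.H9.Phase

/-! Conjugacy relations decide the iterates of the basic machine. -/

namespace Pool.Agent.H9

open Pool.Agent.PPS

theorem same_last {a b c d N : List Bool} {x y : Bool} (hN : N ≠ []) (h1 : a ++ [x] = b ++ N)
    (h2 : c ++ [y] = d ++ N) : x = y := by
  rcases List.eq_nil_or_concat N with h | ⟨N', z, h⟩
  · exact absurd h hN
  · rw [List.concat_eq_append] at h
    subst h
    rw [← List.append_assoc] at h1 h2
    have e1 := List.append_inj_right' h1 rfl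
    have e2 := List.append_inj_right' h2 rfl
    simp only [List.cons.injEq, and_true] at e1 e2
    rw [e1, e2]

theorem same_last' {a b c d b' d' N : List Bool} {x y : Bool} (hN : N ≠ [])
    (h1 : a ++ [x] = b ++ (b' ++ N)) (h2 : c ++ [y] = d ++ (d' ++ N)) : x = y :=
  same_last hN (h1.trans (List.append_assoc _ _ _).symm) (h2.trans (List.append_assoc _ _ _).symm)

variable {σ : Type} (δ : σ → Bool → σ) (o : σ → Bool) (s0 : σ) (κ : ℕ) (ε : ℕ → Bool)

theorem Z_one : Z δ o s0 κ ε 1 = treeAut (langX δ o s0 κ ε) :=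
  funext fun w => (treeAut_langX' δ o s0 κ ε w).symm

theorem X_units (hκ : 0 < κ) (hε1 : ε 1 = false) (hεl : ε (2 ^ κ - 1) = false)
    (us : List ℕ) (hus : ∀ v ∈ us, Good κ ε v) (c : ℕ) (N : List Bool) :
    (treeAut (langX δ o s0 κ ε))^[c * 2 ^ (κ * us.length)] (flat κ us ++ N) =
      flat κ us ++ (Z δ o s0 κ ε (2 ^ us.length))^[c] N := by
  have := Z_units δ o s0 κ ε hκ hε1 hεl us hus 1 c N
  rwa [Z_one, Nat.mul_one] at this

theorem mealy_bijective (s : σ) : Function.Surjective (mealy δ o s) := by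
  intro w
  induction w generalizing s with
  | nil => exact ⟨[], rfl⟩
  | cons c w ih =>
    obtain ⟨v, hv⟩ := ih (δ s (xor c (o s)))
    refine ⟨xor c (o s) :: v, ?_⟩
    simp only [mealy]
    rw [hv]
    cases c <;> cases o s <;> rfl

/-- If the values of `ε` at the ends of a path are equal then the tail is not changed. -/
theorem Z_same (hκ : 0 < κ) (m v c : ℕ) (N : List Bool) (hv : 1 ≤ v) (h : v + c < 2 ^ κ)
    (hε : ε (v + c) = ε v) :
    (Z δ o s0 κ ε m)^[c] (bits κ v ++ N) = bits κ (v + c) ++ N := by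
  obtain ⟨D, hD⟩ : ∃ D, E δ o s0 ε m v D = N := by
    unfold E
    rcases ε v with _ | _
    · exact ⟨N, by simp⟩
    · obtain ⟨D, hD⟩ := (mealy_bijective δ o s0).iterate m N
      exact ⟨D, by simpa using hD⟩
  have h1 := Z_path δ o s0 κ ε hκ m v c D hv h
  rw [hD] at h1
  rw [h1]
  congr 1
  rw [← hD]
  unfold E
  rw [hε]

/-- Value of the image of a unit. -/
noncomputable def psi (C : Set (List Bool)) (u : List Bool) (v : ℕ) : ℕ := val (img C u (bits κ v))

theorem img_bits (C : Set (List Bool)) (u : List Bool) (v : ℕ) :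
    img C u (bits κ v) = bits κ (psi κ C u v) := by
  have := bits_val (img C u (bits κ v))
  rw [length_img, length_bits] at this
  exact this.symm

theorem psi_lt (C : Set (List Bool)) (u : List Bool) (v : ℕ) : psi κ C u v < 2 ^ κ := by
  have := val_bits κ (psi κ C u v)
  rw [← img_bits] at this
  unfold psi at this ⊢
  rw [this]
  exact Nat.mod_lt _ (by positivity)

theorem bits_inj {κ a b : ℕ} (h : bits κ a = bits κ b) : a ≡ b [MOD 2 ^ κ] := by
  have := congrArg val h
  rwa [val_bits, val_bits] at this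

section main

variable (hκ : 0 < κ) (hε1 : ε 1 = false) (hεl : ε (2 ^ κ - 1) = false) (hmany : Many κ ε)
  (C : Set (List Bool)) (i p r : ℕ)

include hκ hε1 hεl hmany

theorem X_phase (c : ℕ) (N : List Bool) :
    (treeAut (langX δ o s0 κ ε))^[c * 2 ^ (κ * i)] (phase κ ε C i ++ N) =
      phase κ ε C i ++ (Z δ o s0 κ ε (2 ^ i))^[c] N := by
  obtain ⟨⟨us, h1, h2, h3⟩, -⟩ := phase_spec κ ε hmany C i
  have := X_units δ o s0 κ ε hκ hε1 hεl us h2 c N
  rwa [h1, ← h3] at this

theorem X_image (c : ℕ) (N : List Bool) :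
    (treeAut (langX δ o s0 κ ε))^[c * 2 ^ (κ * i)] (treeAut C (phase κ ε C i) ++ N) =
      treeAut C (phase κ ε C i) ++ (Z δ o s0 κ ε (2 ^ i))^[c] N := by
  obtain ⟨-, ⟨us, h1, h2, h3⟩⟩ := phase_spec κ ε hmany C i
  have := X_units δ o s0 κ ε hκ hε1 hεl us h2 c N
  rwa [h1, ← h3] at this

theorem X_phase_bits (c v : ℕ) :
    (treeAut (langX δ o s0 κ ε))^[c * 2 ^ (κ * i)] (phase κ ε C i ++ bits κ v) =
      phase κ ε C i ++ bits κ (v + c) := by
  rw [X_phase δ o s0 κ ε hκ hε1 hεl hmany C i]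
  obtain ⟨N', hN', h⟩ := Z_unit_any δ o s0 κ ε hκ (2 ^ i) v c []
  rw [List.append_nil] at h
  have hnil : N' = [] := List.eq_nil_of_length_eq_zero (by simpa using hN')
  rw [h, hnil]
  simp

theorem X_image_bits (c v : ℕ) :
    (treeAut (langX δ o s0 κ ε))^[c * 2 ^ (κ * i)] (treeAut C (phase κ ε C i) ++ bits κ v) =
      treeAut C (phase κ ε C i) ++ bits κ (v + c) := by
  rw [X_image δ o s0 κ ε hκ hε1 hεl hmany C i]
  obtain ⟨N', hN', h⟩ := Z_unit_any δ o s0 κ ε hκ (2 ^ i) v c []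
  rw [List.append_nil] at h
  have hnil : N' = [] := List.eq_nil_of_length_eq_zero (by simpa using hN')
  rw [h, hnil]
  simp

/-- The relation between the units, positive case. -/
theorem psi_pos (hC : ∀ w, treeAut C ((treeAut (langX δ o s0 κ ε))^[p * 2 ^ (κ * i)] w) =
      (treeAut (langX δ o s0 κ ε))^[r * 2 ^ (κ * i)] (treeAut C w)) (v : ℕ) :
    psi κ C (phase κ ε C i) (v + p) ≡ psi κ C (phase κ ε C i) v + r [MOD 2 ^ κ] := by
  have h := hC (phase κ ε C i ++ bits κ v)
  rw [X_phase_bits δ o s0 κ ε hκ hε1 hεl hmany C i, treeAut_append, treeAut_append, img_bits,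
    img_bits, X_image_bits δ o s0 κ ε hκ hε1 hεl hmany C i] at h
  exact bits_inj (List.append_cancel_left h)

/-- The relation between the units, negative case. -/
theorem psi_neg (hC : ∀ w, (treeAut (langX δ o s0 κ ε))^[r * 2 ^ (κ * i)]
      (treeAut C ((treeAut (langX δ o s0 κ ε))^[p * 2 ^ (κ * i)] w)) = treeAut C w) (v : ℕ) :
    psi κ C (phase κ ε C i) v ≡ psi κ C (phase κ ε C i) (v + p) + r [MOD 2 ^ κ] := by
  have h := hC (phase κ ε C i ++ bits κ v)
  rw [X_phase_bits δ o s0 κ ε hκ hε1 hεl hmany C i, treeAut_append, treeAut_append, img_bits,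
    img_bits, X_image_bits δ o s0 κ ε hκ hε1 hεl hmany C i] at h
  exact (bits_inj (List.append_cancel_left h)).symm

variable (D0 D1 : List Bool) (L : Bool)
  (hL : (mealy δ o s0)^[2 ^ i] (D0 ++ [false]) = D1 ++ [L])

include hL

/-- The source path. -/
theorem X_source (v : ℕ) (hv1 : 1 ≤ v) (hv2 : v + p < 2 ^ κ) (hv : ε v = false)
    (hvp : ε (v + p) = true) :
    (treeAut (langX δ o s0 κ ε))^[p * 2 ^ (κ * i)]
      (phase κ ε C i ++ (bits κ v ++ (D0 ++ [false]))) =
      phase κ ε C i ++ (bits κ (v + p) ++ (D1 ++ [L])) := by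
  rw [X_phase δ o s0 κ ε hκ hε1 hεl hmany C i]
  have h1 := Z_path δ o s0 κ ε hκ (2 ^ i) v p (D0 ++ [false]) hv1 hv2
  have e1 : E δ o s0 ε (2 ^ i) v (D0 ++ [false]) = D0 ++ [false] := by simp [E, hv]
  have e2 : E δ o s0 ε (2 ^ i) (v + p) (D0 ++ [false]) = D1 ++ [L] := by
    unfold E
    rw [if_pos hvp, hL]
  rw [e1, e2] at h1
  rw [h1]

theorem decides_pos (hC : ∀ w, treeAut C ((treeAut (langX δ o s0 κ ε))^[p * 2 ^ (κ * i)] w) =
      (treeAut (langX δ o s0 κ ε))^[r * 2 ^ (κ * i)] (treeAut C w))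
    (v : ℕ) (hv1 : 1 ≤ v) (hv2 : v + p < 2 ^ κ) (hv : ε v = false)
    (hvp : ε (v + p) = true) (h1 : 1 ≤ psi κ C (phase κ ε C i) v)
    (h2 : psi κ C (phase κ ε C i) v + r < 2 ^ κ)
    (h3 : ε (psi κ C (phase κ ε C i) v + r) = ε (psi κ C (phase κ ε C i) v)) :
    L = xor (memB C (phase κ ε C i ++ (bits κ v ++ D0)))
      (memB C (phase κ ε C i ++ (bits κ (v + p) ++ D1))) := by
  have hs := X_source δ o s0 κ ε hκ hε1 hεl hmany C i p D0 D1 L hL v hv1 hv2 hv hvp
  have h := hC (phase κ ε C i ++ (bits κ v ++ (D0 ++ [false])))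
  rw [hs] at h
  have e1 : treeAut C (phase κ ε C i ++ (bits κ v ++ (D0 ++ [false]))) =
      treeAut C (phase κ ε C i) ++ (bits κ (psi κ C (phase κ ε C i) v) ++
        img C (phase κ ε C i ++ bits κ v) (D0 ++ [false])) := by
    rw [treeAut_append, img_append, img_bits]
  rw [e1, X_image δ o s0 κ ε hκ hε1 hεl hmany C i,
    Z_same δ o s0 κ ε hκ (2 ^ i) _ r _ h1 h2 h3] at h
  have e2 : treeAut C (phase κ ε C i ++ (bits κ v ++ (D0 ++ [false]))) =
      treeAut C (phase κ ε C i ++ (bits κ v ++ D0)) ++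
        [memB C (phase κ ε C i ++ (bits κ v ++ D0))] := by
    rw [show phase κ ε C i ++ (bits κ v ++ (D0 ++ [false])) =
      (phase κ ε C i ++ (bits κ v ++ D0)) ++ [false] by simp, treeAut_snoc', Bool.xor_false]
  have e3 : treeAut C (phase κ ε C i ++ (bits κ (v + p) ++ (D1 ++ [L]))) =
      treeAut C (phase κ ε C i ++ (bits κ (v + p) ++ D1)) ++
        [xor (memB C (phase κ ε C i ++ (bits κ (v + p) ++ D1))) L] := by
    rw [show phase κ ε C i ++ (bits κ (v + p) ++ (D1 ++ [L])) =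
      (phase κ ε C i ++ (bits κ (v + p) ++ D1)) ++ [L] by simp, treeAut_snoc']
  rw [e2] at e1
  rw [e3] at h
  have hne : img C (phase κ ε C i ++ bits κ v) (D0 ++ [false]) ≠ [] := by
    intro hcon
    have := congrArg List.length hcon
    simp at this
  have := same_last' hne e1 h
  rw [this]
  cases memB C (phase κ ε C i ++ (bits κ (v + p) ++ D1)) <;> cases L <;> rfl

theorem decides_neg (hC : ∀ w, (treeAut (langX δ o s0 κ ε))^[r * 2 ^ (κ * i)]
      (treeAut C ((treeAut (langX δ o s0 κ ε))^[p * 2 ^ (κ * i)] w)) = treeAut C w)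
    (v : ℕ) (hv1 : 1 ≤ v) (hv2 : v + p < 2 ^ κ) (hv : ε v = false)
    (hvp : ε (v + p) = true) (h1 : 1 ≤ psi κ C (phase κ ε C i) (v + p))
    (h2 : psi κ C (phase κ ε C i) (v + p) + r < 2 ^ κ)
    (h3 : ε (psi κ C (phase κ ε C i) (v + p) + r) = ε (psi κ C (phase κ ε C i) (v + p))) :
    L = xor (memB C (phase κ ε C i ++ (bits κ v ++ D0)))
      (memB C (phase κ ε C i ++ (bits κ (v + p) ++ D1))) := by
  have hs := X_source δ o s0 κ ε hκ hε1 hεl hmany C i p D0 D1 L hL v hv1 hv2 hv hvp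
  have h := hC (phase κ ε C i ++ (bits κ v ++ (D0 ++ [false])))
  rw [hs] at h
  have e1 : treeAut C (phase κ ε C i ++ (bits κ (v + p) ++ (D1 ++ [L]))) =
      treeAut C (phase κ ε C i) ++ (bits κ (psi κ C (phase κ ε C i) (v + p)) ++
        img C (phase κ ε C i ++ bits κ (v + p)) (D1 ++ [L])) := by
    rw [treeAut_append, img_append, img_bits]
  rw [e1, X_image δ o s0 κ ε hκ hε1 hεl hmany C i,
    Z_same δ o s0 κ ε hκ (2 ^ i) _ r _ h1 h2 h3] at h
  have e2 : treeAut C (phase κ ε C i ++ (bits κ v ++ (D0 ++ [false]))) =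
      treeAut C (phase κ ε C i ++ (bits κ v ++ D0)) ++
        [memB C (phase κ ε C i ++ (bits κ v ++ D0))] := by
    rw [show phase κ ε C i ++ (bits κ v ++ (D0 ++ [false])) =
      (phase κ ε C i ++ (bits κ v ++ D0)) ++ [false] by simp, treeAut_snoc', Bool.xor_false]
  have e3 : treeAut C (phase κ ε C i ++ (bits κ (v + p) ++ (D1 ++ [L]))) =
      treeAut C (phase κ ε C i ++ (bits κ (v + p) ++ D1)) ++
        [xor (memB C (phase κ ε C i ++ (bits κ (v + p) ++ D1))) L] := by
    rw [show phase κ ε C i ++ (bits κ (v + p) ++ (D1 ++ [L])) =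
      (phase κ ε C i ++ (bits κ (v + p) ++ D1)) ++ [L] by simp, treeAut_snoc']
  rw [e3] at e1
  rw [e2] at h
  have hne : img C (phase κ ε C i ++ bits κ (v + p)) (D1 ++ [L]) ≠ [] := by
    intro hcon
    have := congrArg List.length hcon
    simp at this
  have := same_last' hne e1 h.symm
  rw [← this]
  cases memB C (phase κ ε C i ++ (bits κ (v + p) ++ D1)) <;> cases L <;> rfl

end main

end Pool.Agent.H9
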