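import Mathlib

/-! Evaluation of xor-and formulas by an odometer-driven skew product. -/

namespace Pool.Agent.H9

/-- The elementary operation on the register bits: with control bits `bs`, flip the register bit
whose index is the position of the first `false` in `bs` (the last one if there is none), provided
that all the previous register bits are `true`. -/
def op : List Bool → List Bool → List Bool
  | _, [] => []
  | [], y :: Y => (!y) :: Y
  | false :: _, y :: Y => (!y) :: Y
  | true :: bs, y :: Y => y :: (if y then op bs Y else Y)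

theorem op_op (bs Y : List Bool) : op bs (op bs Y) = Y := by
  induction bs generalizing Y with
  | nil => cases Y <;> simp [op]
  | cons b bs ih =>
    cases Y with
    | nil => simp [op]
    | cons y Y =>
      cases b
      · simp [op]
      · cases y <;> simp [op, ih]

/-- Conditional operation. -/
def cop (v : Bool) (bs Y : List Bool) : List Bool := if v then op bs Y else Y

theorem cop_cop (u v : Bool) (bs Y : List Bool) : cop u bs (cop v bs Y) = cop (xor v u) bs Y := by
  cases u <;> cases v <;> simp [cop, op_op]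

/-- The digits of `t`: each level has a digit `b`, an ignored digit and `μ` further digits. -/
def asg : List ℕ → ℕ → List (Bool × ℕ)
  | [], _ => []
  | μ :: μs, t => (t.bodd, (t / 4) % 2 ^ μ) :: asg μs (t / 2 ^ (μ + 2))

/-- What remains of `t` after removing all the levels. -/
def rest : List ℕ → ℕ → ℕ
  | [], t => t
  | μ :: μs, t => rest μs (t / 2 ^ (μ + 2))

/-- The step at time `t` on the register bits. -/
def dyn (μs : List ℕ) (Λ : List (Bool × ℕ) → ℕ → Bool) (t : ℕ) (Y : List Bool) : List Bool :=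
  cop (Λ (asg μs t) (rest μs t)) ((asg μs t).map Prod.fst) Y

/-- `c` steps from time `t` on. -/
def runD (μs : List ℕ) (Λ : List (Bool × ℕ) → ℕ → Bool) : ℕ → ℕ → List Bool → List Bool
  | _, 0, Y => Y
  | t, c + 1, Y => runD μs Λ (t + 1) c (dyn μs Λ t Y)

theorem runD_add (μs : List ℕ) (Λ : List (Bool × ℕ) → ℕ → Bool) (t a b : ℕ) (Y : List Bool) :
    runD μs Λ t (a + b) Y = runD μs Λ (t + a) b (runD μs Λ t a Y) := by
  induction a generalizing t Y with
  | zero => simp [runD]
  | succ a ih =>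
    rw [show a + 1 + b = (a + b) + 1 by omega]
    simp only [runD]
    rw [ih]
    congr 1
    omega

/-- xor over `j < n`. -/
def xorSum : ℕ → (ℕ → Bool) → Bool
  | 0, _ => false
  | n + 1, f => xor (xorSum n f) (f n)

/-- Removing the innermost level. -/
def peel (μ : ℕ) (Λ : List (Bool × ℕ) → ℕ → Bool) (a : List (Bool × ℕ)) (r : ℕ) : Bool :=
  xorSum (2 ^ μ) fun m => Λ ((false, m) :: a) r && Λ ((true, m) :: a) r

theorem dyn_cons (μ : ℕ) (μs : List ℕ) (Λ : List (Bool × ℕ) → ℕ → Bool) (τ m j : ℕ)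
    (hm : m < 2 ^ μ) (hj : j < 4) (y : Bool) (Y : List Bool) :
    dyn (μ :: μs) Λ (τ * 2 ^ (μ + 2) + 4 * m + j) (y :: Y) =
      cop (Λ ((j.bodd, m) :: asg μs τ) (rest μs τ)) (j.bodd :: (asg μs τ).map Prod.fst) (y :: Y) := by
  have h1 : (τ * 2 ^ (μ + 2) + 4 * m + j) / 2 ^ (μ + 2) = τ := by
    rw [show τ * 2 ^ (μ + 2) + 4 * m + j = (4 * m + j) + τ * 2 ^ (μ + 2) by ring]
    rw [Nat.add_mul_div_right _ _ (by positivity)]
    rw [Nat.div_eq_of_lt]
    · simp
    · rw [pow_add]; omega
  have h2 : (τ * 2 ^ (μ + 2) + 4 * m + j) / 4 % 2 ^ μ = m := by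
    have : (τ * 2 ^ (μ + 2) + 4 * m + j) / 4 = m + τ * 2 ^ μ := by
      have e : τ * 2 ^ (μ + 2) = 4 * (τ * 2 ^ μ) := by rw [pow_add]; ring
      rw [e]
      omega
    rw [this, Nat.add_mul_mod_self_right, Nat.mod_eq_of_lt hm]
  have h3 : (τ * 2 ^ (μ + 2) + 4 * m + j).bodd = j.bodd := by
    rw [Nat.bodd_add, Nat.bodd_add, Nat.bodd_mul, Nat.bodd_mul, pow_succ, Nat.bodd_mul]
    simp
  unfold dyn
  simp only [asg, rest, h1, h2, h3, List.map_cons]

theorem four_steps (μ : ℕ) (μs : List ℕ) (Λ : List (Bool × ℕ) → ℕ → Bool) (τ m : ℕ)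
    (hm : m < 2 ^ μ) (y : Bool) (Y : List Bool) :
    runD (μ :: μs) Λ (τ * 2 ^ (μ + 2) + 4 * m) 4 (y :: Y) =
      y :: cop (Λ ((false, m) :: asg μs τ) (rest μs τ) && Λ ((true, m) :: asg μs τ) (rest μs τ))
        ((asg μs τ).map Prod.fst) Y := by
  have e0 := dyn_cons μ μs Λ τ m 0 hm (by norm_num)
  have e1 := dyn_cons μ μs Λ τ m 1 hm (by norm_num)
  have e2 := dyn_cons μ μs Λ τ m 2 hm (by norm_num)
  have e3 := dyn_cons μ μs Λ τ m 3 hm (by norm_num)
  simp only [Nat.bodd_zero, Nat.bodd_one, Nat.bodd_two, show (3 : ℕ).bodd = true from rfl,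
    add_zero] at e0 e1 e2 e3
  simp only [runD, add_assoc, Nat.reduceAdd] at e0 e1 e2 e3 ⊢
  rw [e0]
  generalize Λ ((false, m) :: asg μs τ) (rest μs τ) = u at *
  generalize Λ ((true, m) :: asg μs τ) (rest μs τ) = v at *
  generalize (asg μs τ).map Prod.fst = bs at *
  cases u <;> cases v <;> cases y <;> simp [cop, op, e1, e2, e3, op_op]

theorem peel_run (μ : ℕ) (μs : List ℕ) (Λ : List (Bool × ℕ) → ℕ → Bool) (τ k : ℕ)
    (hk : k ≤ 2 ^ μ) (y : Bool) (Y : List Bool) :
    runD (μ :: μs) Λ (τ * 2 ^ (μ + 2)) (4 * k) (y :: Y) =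
      y :: cop (xorSum k fun m => Λ ((false, m) :: asg μs τ) (rest μs τ) &&
          Λ ((true, m) :: asg μs τ) (rest μs τ)) ((asg μs τ).map Prod.fst) Y := by
  induction k with
  | zero => simp [runD, xorSum, cop]
  | succ k ih =>
    rw [show 4 * (k + 1) = 4 * k + 4 by ring, runD_add, ih (by omega),
      four_steps μ μs Λ τ k (by omega), cop_cop]
    rfl

theorem peel_run_full (μ : ℕ) (μs : List ℕ) (Λ : List (Bool × ℕ) → ℕ → Bool) (τ : ℕ)
    (y : Bool) (Y : List Bool) :
    runD (μ :: μs) Λ (τ * 2 ^ (μ + 2)) (2 ^ (μ + 2)) (y :: Y) =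
      y :: dyn μs (peel μ Λ) τ Y := by
  have := peel_run μ μs Λ τ (2 ^ μ) le_rfl y Y
  rw [show 4 * 2 ^ μ = 2 ^ (μ + 2) by ring] at this
  rw [this]
  rfl

theorem peel_run_mul (μ : ℕ) (μs : List ℕ) (Λ : List (Bool × ℕ) → ℕ → Bool) (τ c : ℕ)
    (y : Bool) (Y : List Bool) :
    runD (μ :: μs) Λ (τ * 2 ^ (μ + 2)) (c * 2 ^ (μ + 2)) (y :: Y) =
      y :: runD μs (peel μ Λ) τ c Y := by
  induction c generalizing τ Y with
  | zero => simp [runD]
  | succ c ih =>
    rw [show (c + 1) * 2 ^ (μ + 2) = 2 ^ (μ + 2) + c * 2 ^ (μ + 2) by ring, runD_add,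
      peel_run_full]
    rw [show τ * 2 ^ (μ + 2) + 2 ^ (μ + 2) = (τ + 1) * 2 ^ (μ + 2) by ring, ih]
    rfl

/-- Removing all the levels. -/
def peelAll : List ℕ → (List (Bool × ℕ) → ℕ → Bool) → ℕ → Bool
  | [], Λ => Λ []
  | μ :: μs, Λ => peelAll μs (peel μ Λ)

/-- Number of bits of all the levels. -/
def tot : List ℕ → ℕ
  | [] => 0
  | μ :: μs => (μ + 2) + tot μs

theorem runD_full (μs : List ℕ) (Λ : List (Bool × ℕ) → ℕ → Bool) (τ c : ℕ) (Y : List Bool)
    (z : Bool) (hY : Y.length = μs.length) :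
    runD μs Λ (τ * 2 ^ tot μs) (c * 2 ^ tot μs) (Y ++ [z]) =
      Y ++ [xor z (xorSum c fun j => peelAll μs Λ (τ + j))] := by
  induction μs generalizing Λ τ c Y z with
  | nil =>
    have : Y = [] := by
      apply List.eq_nil_of_length_eq_zero; simpa using hY
    subst this
    simp only [tot, pow_zero, mul_one, List.nil_append]
    induction c generalizing τ z with
    | zero => simp [runD, xorSum]
    | succ c ih =>
      rw [show c + 1 = c + 1 from rfl, runD_add, ih]
      simp only [runD, dyn, asg, rest, List.map_nil, cop, peelAll, xorSum]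
      cases Λ [] (τ + c) <;> simp [op]
  | cons μ μs ih =>
    cases Y with
    | nil => simp at hY
    | cons y Y =>
      have e : ∀ x : ℕ, x * 2 ^ tot (μ :: μs) = (x * 2 ^ tot μs) * 2 ^ (μ + 2) := by
        intro x
        simp only [tot]
        rw [pow_add]; ring
      rw [e, e, List.cons_append, peel_run_mul, ih]
      · rfl
      · simpa using hY

/-- If nothing is active, nothing happens. -/
theorem runD_idle (μs : List ℕ) (Λ : List (Bool × ℕ) → ℕ → Bool) (t c : ℕ) (Y : List Bool)
    (h : ∀ j < c, Λ (asg μs (t + j)) (rest μs (t + j)) = false) : runD μs Λ t c Y = Y := by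
  induction c generalizing t Y with
  | zero => rfl
  | succ c ih =>
    simp only [runD]
    rw [ih]
    · unfold dyn
      have := h 0 (by omega)
      rw [add_zero] at this
      rw [this]; simp [cop]
    · intro j hj
      have := h (j + 1) (by omega)
      rwa [show t + (j + 1) = t + 1 + j by ring] at this

theorem rest_eq (μs : List ℕ) (t : ℕ) : rest μs t = t / 2 ^ tot μs := by
  induction μs generalizing t with
  | nil => simp [rest, tot]
  | cons μ μs ih =>
    simp only [rest, tot]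
    rw [ih, Nat.div_div_eq_div_mul, ← pow_add]

end Pool.Agent.H9
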