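import Pool.Agent.H9.Rows
import Pool.Agent.PPS.Bridge
import Pool.Agent.PPS.PS

/-! Row systems from flow charts. -/

namespace Pool.Agent.H9

open Pool.Agent.PPS Pool.Agent.PPS.Prog

/-! ### Getting the columns of a step -/

section getElem

variable {g : ℕ}

theorem stepFrom_getElem (R : RowSys g) (f : Col g) (p : Option (Col g)) (cs : List (Col g))
    (j : ℕ) (hj : j < cs.length) :
    (R.stepFrom f p cs)[j]'(by rw [R.length_stepFrom]; exact hj) =
      R.F f (if j = 0 then p else cs[j - 1]?) cs[j] cs[j + 1]? := by
  induction cs generalizing p j with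
  | nil => simp at hj
  | cons c cs ih =>
    cases j with
    | zero => simp [RowSys.stepFrom, List.head?_eq_getElem?]
    | succ j =>
      simp only [RowSys.stepFrom, List.getElem_cons_succ]
      rw [ih (some c) j (by simpa using hj)]
      cases j with
      | zero => simp
      | succ j => simp

theorem step_getElem (R : RowSys g) (cs : List (Col g)) (j : ℕ) (hj : j < cs.length) :
    (R.step cs)[j]'(by rw [R.length_step]; exact hj) =
      R.F (cs[0]'(by omega)) (if j = 0 then none else cs[j - 1]?) cs[j] cs[j + 1]? := by
  cases cs with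
  | nil => simp at hj
  | cons c cs =>
    simp only [RowSys.step]
    rw [stepFrom_getElem R c none (c :: cs) j hj]
    rfl

end getElem

section flow

variable {ι : Type} [DecidableEq ι] [Finite ι] {P : Type} [Finite P]

/-- The content of a column. -/
abbrev X (ι P : Type) := Option P × (ι → Option Bool)

/-- The number of bits of a column. -/
noncomputable def gX (ι P : Type) : ℕ := Nat.card (X ι P)

open Classical in
/-- One-hot encoding. -/
noncomputable def emb (x : X ι P) : Col (gX ι P) := fun i => decide (i = Finite.equivFin (X ι P) x)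

omit [DecidableEq ι] in
theorem emb_injective : Function.Injective (emb : X ι P → Col (gX ι P)) := by
  intro x y h
  have := congrFun h (Finite.equivFin (X ι P) x)
  simp only [emb, decide_true] at this
  have := of_decide_eq_true this.symm
  exact (Finite.equivFin (X ι P)).injective this

/-- Decoding. -/
noncomputable def unemb (c : Col (gX ι P)) : X ι P :=
  haveI : Nonempty (X ι P) := ⟨(none, fun _ => none)⟩
  Function.invFun emb c

theorem unemb_emb (x : X ι P) : unemb (emb x) = x := by
  have : Nonempty (X ι P) := ⟨(none, fun _ => none)⟩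
  exact Function.leftInverse_invFun emb_injective x

/-- New content of a column. -/
def newX (m : P → Instr ι (Option P)) (f : X ι P) (p : Option (X ι P)) (c : X ι P)
    (n : Option (X ι P)) : X ι P :=
  match f.1 with
  | none => c
  | some q =>
    match m q with
    | .nop q' => (q', c.2)
    | .push i b q' => (q', Function.update c.2 i (match p with
      | none => some b
      | some x => x.2 i))
    | .pop i k => (k (f.2 i), Function.update c.2 i (n.bind fun x => x.2 i))

/-- The row system of a flow chart. -/
noncomputable def flowSys (m : P → Instr ι (Option P)) (io : ι) : RowSys (gX ι P) where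
  F f p c n := emb (newX m (unemb f) (p.map unemb) (unemb c) (n.map unemb))
  acc f := decide ((unemb f : X ι P).2 io = some true)

/-- The content of column `j` of a configuration. -/
def colOf (x : Option P × Store ι) (j : ℕ) : X ι P := (x.1, fun i => (x.2 i)[j]?)

/-- The row of a configuration. -/
noncomputable def rowOf (n : ℕ) (x : Option P × Store ι) : List (Col (gX ι P)) :=
  (List.range n).map fun j => emb (colOf x j)

omit [DecidableEq ι] in
@[simp] theorem length_rowOf (n : ℕ) (x : Option P × Store ι) : (rowOf n x).length = n := by
  simp [rowOf]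

theorem step_rowOf (m : P → Instr ι (Option P)) (io : ι) (n : ℕ) (x : Option P × Store ι)
    (hx : ∀ i, (x.2 i).length ≤ n) :
    (flowSys m io).step (rowOf n x) = rowOf n (fstep m x) := by
  apply List.ext_getElem
  · simp
  · intro j h1 h2
    have hj : j < n := by simpa using h2
    rw [step_getElem _ _ _ (by simpa using hj)]
    have e0 : (rowOf n x)[0]'(by simp; omega) = emb (colOf x 0) := by simp [rowOf]
    have e1 : (rowOf n x)[j]'(by simpa using hj) = emb (colOf x j) := by simp [rowOf]
    have e2 : (rowOf n (fstep m x))[j]'(by simpa using hj) = emb (colOf (fstep m x) j) := by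
      simp [rowOf]
    have e3 : (rowOf n x)[j + 1]? = if j + 1 < n then some (emb (colOf x (j + 1))) else none := by
      by_cases h : j + 1 < n
      · rw [List.getElem?_eq_getElem (by simpa using h), if_pos h]
        simp [rowOf]
      · rw [List.getElem?_eq_none (by simpa using h), if_neg h]
    have e4 : (if j = 0 then none else (rowOf n x)[j - 1]?) =
        if j = 0 then none else some (emb (colOf x (j - 1))) := by
      by_cases h : j = 0
      · simp [h]
      · rw [if_neg h, if_neg h, List.getElem?_eq_getElem (by simp; omega)]
        simp [rowOf]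
    rw [e0, e1, e2, e3, e4]
    simp only [flowSys]
    congr 1
    rw [unemb_emb, unemb_emb]
    obtain ⟨o, S⟩ := x
    cases o with
    | none => simp [newX, colOf]
    | some q =>
      simp only [newX, colOf, fstep_some]
      rcases hm : m q with q' | ⟨i, b, q'⟩ | ⟨i, k⟩
      · simp [Instr.exec]
      · simp only [Instr.exec, Prod.mk.injEq, true_and]
        funext i'
        by_cases hi : i' = i
        · subst hi
          simp only [Function.update_self]
          by_cases h : j = 0
          · subst h; simp
          · obtain ⟨j, rfl⟩ := Nat.exists_eq_succ_of_ne_zero h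
            simp [unemb_emb]
        · simp [Function.update_of_ne hi]
      · simp only [Instr.exec, Prod.mk.injEq]
        refine ⟨by rw [List.head?_eq_getElem?], ?_⟩
        funext i'
        by_cases hi : i' = i
        · subst hi
          simp only [Function.update_self]
          rw [List.getElem?_tail]
          by_cases h : j + 1 < n
          · simp [h, unemb_emb]
          · simp only [h, if_false, Option.map_none, Option.bind_none]
            have := hx i'
            simp only at this
            rw [List.getElem?_eq_none (by omega)]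
        · simp [Function.update_of_ne hi]

theorem iterate_step_rowOf (m : P → Instr ι (Option P)) (io : ι) (n : ℕ)
    (x : Option P × Store ι) (hx : ∀ t i, (((fstep m)^[t] x).2 i).length ≤ n) (t : ℕ) :
    (flowSys m io).step^[t] (rowOf n x) = rowOf n ((fstep m)^[t] x) := by
  induction t with
  | zero => rfl
  | succ t ih =>
    rw [Function.iterate_succ_apply', ih, step_rowOf m io n _ (hx t),
      Function.iterate_succ_apply']

theorem rowOf_injective (n : ℕ) (hn : 0 < n) (x y : Option P × Store ι)
    (hx : ∀ i, (x.2 i).length ≤ n) (hy : ∀ i, (y.2 i).length ≤ n)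
    (h : rowOf n x = rowOf n y) : x = y := by
  have key : ∀ j < n, colOf x j = colOf y j := by
    intro j hj
    have h1 : (rowOf n x)[j]'(by simpa using hj) = emb (colOf x j) := by simp [rowOf]
    have h2 : (rowOf n y)[j]'(by simpa using hj) = emb (colOf y j) := by simp [rowOf]
    apply emb_injective
    rw [← h1, ← h2]
    congr 1
  have h0 := key 0 hn
  refine Prod.ext ?_ ?_
  · exact congrArg (fun z : X ι P => z.1) h0
  · funext i
    apply List.ext_getElem?
    intro j
    by_cases hj : j < n
    · have := congrArg (fun z : X ι P => z.2 i) (key j hj)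
      exact this
    · rw [List.getElem?_eq_none (by have := hx i; omega),
        List.getElem?_eq_none (by have := hy i; omega)]

end flow

/-- Every polynomial-space predicate is decided by iterating a row system. -/
theorem exists_rowSys {α : Type} [Rep α] {f : α → Bool} (hf : PT false f) :
    ∃ (ι : Type) (_ : DecidableEq ι) (_ : Finite ι) (P : Type) (_ : Finite P)
      (m : P → Instr ι (Option P)) (io : ι) (p₀ : P) (p : Polynomial ℕ),
      (∀ n, n ≤ p.eval n) ∧
      ∀ x n k, p.eval (size x) < n → gX ι P * n < k →
        ((flowSys m io).Acc ((flowSys m io).step^[2 ^ k - 1]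
          (rowOf n (some p₀, one io (code x)))) ↔ f x = true) := by
  obtain ⟨I⟩ := hf.impl
  refine ⟨I.ι, I.dec, I.fin, I.c.Pos, inferInstance, I.c.instr, I.io, I.c.entry, I.p, I.le, ?_⟩
  intro a n K hn hK
  let c := I.c.instr
  let x₀ : Option I.c.Pos × Store I.ι := (some I.c.entry, one I.io (code a))
  obtain ⟨T, ⟨t, -, hE⟩, -⟩ := I.spec a
  have hS0 : ∀ i, (one I.io (code a) i).length ≤ I.p.eval (size a) := by
    intro i
    simp only [one]
    split_ifs
    · exact I.le _
    · simp
  have hflow0 := flowRun_of_exec hE (embeds_self I.c) hS0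
  have hflow1 : (fstep c)^[t] x₀ = (none, one I.io (code (f a))) := hflow0.1
  have hflow2 : ∀ j ≤ t, ∀ i, (((fstep c)^[j] x₀).2 i).length ≤ I.p.eval (size a) :=
    hflow0.2
  have hex : ∃ t, ((fstep c)^[t] x₀).1 = none := ⟨t, by rw [hflow1]⟩
  classical
  let t₀ := Nat.find hex
  have ht₀ : ((fstep c)^[t₀] x₀).1 = none := Nat.find_spec hex
  have hmin : ∀ j < t₀, ((fstep c)^[j] x₀).1 ≠ none := fun j hj => Nat.find_min hex hj
  have ht₀t : t₀ ≤ t := Nat.find_min' hex (by rw [hflow1])
  have hstay : ∀ j, t₀ ≤ j → (fstep c)^[j] x₀ = (fstep c)^[t₀] x₀ := by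
    intro j hj
    obtain ⟨d, rfl⟩ := Nat.exists_eq_add_of_le hj
    rw [Nat.add_comm, Function.iterate_add_apply]
    generalize hx : (fstep c)^[t₀] x₀ = x at ht₀
    obtain ⟨o, S⟩ := x
    simp only at ht₀
    subst ht₀
    exact fstep_iterate_none c S d
  have hfin : (fstep c)^[t₀] x₀ = (none, one I.io (code (f a))) := by
    rw [← hstay t ht₀t, hflow1]
  have hbd : ∀ j i, (((fstep c)^[j] x₀).2 i).length ≤ n := by
    intro j i
    rcases le_total j t with h | h
    · exact (hflow2 j h i).trans hn.le
    · rw [hstay j (by omega), ← hstay t ht₀t]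
      exact (hflow2 t le_rfl i).trans hn.le
  have hn0 : 0 < n := by omega
  -- the exit is reached in time
  have htime : t₀ < 2 ^ (gX I.ι I.c.Pos * n) := by
    let F : Fin (t₀ + 1) → Fin (2 ^ (gX I.ι I.c.Pos * n)) := fun i =>
      ⟨uncols _ (rowOf n ((fstep c)^[(i : ℕ)] x₀)), by
        have := uncols_lt (rowOf n ((fstep c)^[(i : ℕ)] x₀))
        rwa [length_rowOf] at this⟩
    have hF : Function.Injective F := by
      intro i j hij
      have h1 : uncols _ (rowOf n ((fstep c)^[(i : ℕ)] x₀)) =
          uncols _ (rowOf n ((fstep c)^[(j : ℕ)] x₀)) := congrArg Fin.val hij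
      have h2 := congrArg (cols (gX I.ι I.c.Pos) n) h1
      have e : ∀ y : Option I.c.Pos × Store I.ι,
          cols (gX I.ι I.c.Pos) n (uncols _ (rowOf n y)) = rowOf n y := by
        intro y
        have := cols_uncols (rowOf n y)
        rwa [length_rowOf] at this
      rw [e, e] at h2
      have h3 := rowOf_injective n hn0 _ _ (hbd _) (hbd _) h2
      by_contra hne
      rcases lt_or_gt_of_ne (fun h => hne (Fin.ext h) : (i : ℕ) ≠ j) with h | h
      · exact flow_distinct c x₀ t₀ ht₀ hmin i j h (by omega) h3
      · exact flow_distinct c x₀ t₀ ht₀ hmin j i h (by omega) h3.symm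
    have := Fintype.card_le_of_injective F hF
    rw [Fintype.card_fin, Fintype.card_fin] at this
    omega
  have hK' : t₀ ≤ 2 ^ K - 1 := by
    have : 2 ^ (gX I.ι I.c.Pos * n) ≤ 2 ^ K := Nat.pow_le_pow_right (by norm_num) hK.le
    omega
  have hrow : (flowSys c I.io).step^[2 ^ K - 1] (rowOf n x₀) =
      rowOf n ((none : Option I.c.Pos), one I.io (code (f a))) := by
    rw [iterate_step_rowOf c I.io n x₀ hbd, hstay _ hK', hfin]
  have hgoal : ((flowSys c I.io).Acc ((flowSys c I.io).step^[2 ^ K - 1]
      (rowOf n x₀)) ↔ f a = true) := by
    rw [hrow]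
    unfold RowSys.Acc
    have hh : (rowOf n ((none : Option I.c.Pos), one I.io (code (f a)))).head? =
        some (emb (colOf ((none : Option I.c.Pos), one I.io (code (f a))) 0)) := by
      obtain ⟨n', rfl⟩ := Nat.exists_eq_succ_of_ne_zero hn0.ne'
      simp [rowOf, List.range_succ_eq_map]
    rw [hh]
    simp only [Option.some.injEq, forall_eq']
    simp only [flowSys, unemb_emb, colOf, one, if_true, decide_eq_true_eq]
    cases hfa : f a
    · simp [code_false]
    · simp [code_true]
  exact hgoal

end Pool.Agent.H9
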