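import Pool.Agent.H9.Power

/-! Level transitive automorphisms are conjugate in polynomial space. -/

namespace Pool.Agent.H9

open Pool.Agent.PPS

/-! ### Injectivity, inverses, products -/

theorem treeAut_injective (A : Set (List Bool)) : Function.Injective (treeAut A) := by
  intro v w h
  have hl : v.length = w.length := by
    have := congrArg List.length h
    simpa using this
  have hv := iterate_two_pow A v.length v le_rfl
  have hw := iterate_two_pow A v.length w (by omega)
  obtain ⟨k, hk⟩ : ∃ k, 2 ^ v.length = k + 1 :=
    ⟨2 ^ v.length - 1, by have : 0 < 2 ^ v.length := by positivity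
                          omega⟩
  rw [hk, Function.iterate_succ_apply] at hv hw
  rw [← hv, ← hw, h]

/-- The portrait of the inverse. -/
def invP (A : Set (List Bool)) : Set (List Bool) := {w | ∃ v ∈ A, treeAut A v = w}

theorem memB_invP (A : Set (List Bool)) (w : List Bool) :
    memB (invP A) (treeAut A w) = memB A w := by
  unfold memB
  rw [decide_eq_decide]
  constructor
  · rintro ⟨v, hv, h⟩
    rwa [← treeAut_injective A h]
  · intro h
    exact ⟨w, h, rfl⟩

theorem treeAut_invP (A : Set (List Bool)) (w : List Bool) : treeAut (invP A) (treeAut A w) = w := by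
  induction w using List.reverseRecOn with
  | nil => simp
  | append_singleton w b ih =>
    rw [treeAut_snoc', treeAut_snoc', ih, memB_invP]
    cases memB A w <;> cases b <;> rfl

theorem treeAut_surjective (A : Set (List Bool)) : Function.Surjective (treeAut A) := by
  intro w
  obtain ⟨k, hk⟩ : ∃ k, 2 ^ w.length = k + 1 :=
    ⟨2 ^ w.length - 1, by have : 0 < 2 ^ w.length := by positivity
                          omega⟩
  refine ⟨(treeAut A)^[k] w, ?_⟩
  rw [← Function.iterate_succ_apply' (treeAut A) k w, Nat.succ_eq_add_one, ← hk]
  exact iterate_two_pow A _ w le_rfl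

theorem treeAut_invP' (A : Set (List Bool)) (w : List Bool) : treeAut A (treeAut (invP A) w) = w := by
  obtain ⟨v, rfl⟩ := treeAut_surjective A w
  rw [treeAut_invP]

/-- The portrait of a product. -/
def mulP (A B : Set (List Bool)) : Set (List Bool) := {w | xor (memB B w) (memB A (treeAut B w)) = true}

theorem memB_mulP (A B : Set (List Bool)) (w : List Bool) :
    memB (mulP A B) w = xor (memB B w) (memB A (treeAut B w)) := by
  have h : w ∈ mulP A B ↔ xor (memB B w) (memB A (treeAut B w)) = true := Iff.rfl
  rw [Bool.eq_iff_iff, ← h]
  simp [memB]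

theorem treeAut_mulP (A B : Set (List Bool)) (w : List Bool) :
    treeAut (mulP A B) w = treeAut A (treeAut B w) := by
  induction w using List.reverseRecOn with
  | nil => simp
  | append_singleton w b ih =>
    rw [treeAut_snoc', memB_mulP, ih, treeAut_snoc' B, treeAut_snoc' A]
    congr 2
    cases memB B w <;> cases memB A (treeAut B w) <;> cases b <;> rfl

theorem foldl_invP (A : Set (List Bool)) (w : List Bool) :
    w.foldl (fun v b => v ++ [xor (memB A v) b]) [] = treeAut (invP A) w := by
  induction w using List.reverseRecOn with
  | nil => simp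
  | append_singleton w b ih =>
    rw [List.foldl_append, ih, treeAut_snoc']
    simp only [List.foldl_cons, List.foldl_nil]
    congr 2
    have := memB_invP A (treeAut (invP A) w)
    rw [treeAut_invP'] at this
    rw [this]

theorem PT.invP' {m : Bool} {A : Set (List Bool)} (hA : PT m (fun w => memB A w)) :
    PT m (fun w => treeAut (invP A) w) := by
  have h1 := PT.foldl (m := m) (l := fun w : List Bool => w)
    (ini := fun _ => ([] : List Bool))
    (s := fun z : List Bool × (List Bool × Bool) => z.2.1 ++ [xor (memB A z.2.1) z.2.2])
    (by fun_prop) (by fun_prop)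
    (by
      have : PT m (fun z : List Bool × (List Bool × Bool) => memB A z.2.1) :=
        hA.comp (f := fun z : List Bool × (List Bool × Bool) => z.2.1) (by fun_prop)
      fun_prop)
    (4 * Polynomial.X + 1) (by
      intro w k
      have := foldl_invP A (w.take k)
      simp only at this ⊢
      rw [this]
      have h2 := size_treeAut (invP A) (w.take k)
      have h3 : (w.take k).length ≤ w.length := List.length_take_le' _ _
      have h4 := length_le_size' w
      simp only [Polynomial.eval_add, Polynomial.eval_mul, Polynomial.eval_X,
        Polynomial.eval_ofNat, Polynomial.eval_one]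
      omega)
  refine h1.of_eq (fun w => ?_)
  exact (foldl_invP A w).symm

theorem invP_mem_P {A : Set (List Bool)} (hA : A ∈ Pool.Agent.PPS.P) :
    invP A ∈ Pool.Agent.PPS.P := by
  rw [mem_P_iff_memB] at hA ⊢
  have := hA.comp (PT.invP' hA)
  refine this.of_eq (fun w => ?_)
  have h := memB_invP A (treeAut (invP A) w)
  rw [treeAut_invP'] at h
  exact h

theorem mulP_mem_P {A B : Set (List Bool)} (hA : A ∈ Pool.Agent.PPS.P)
    (hB : B ∈ Pool.Agent.PPS.P) : mulP A B ∈ Pool.Agent.PPS.P := by
  rw [mem_P_iff_memB] at hA hB ⊢
  have h1 := hA.comp (PT.treeAut' hB)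
  have := PT.xor' hB h1
  exact this.of_eq (fun w => memB_mulP A B w)

/-! ### Periods -/

theorem iterate_two_pow_snoc (A : Set (List Bool)) (w : List Bool) (b : Bool) :
    (treeAut A)^[2 ^ w.length] (w ++ [b]) = w ++ [xor (orbSum A w (2 ^ w.length)) b] := by
  rw [iterate_snoc, iterate_two_pow A _ w le_rfl]

theorem dvd_of_fix {A : Set (List Bool)} (hA : LevelTransitive A) (w : List Bool) (t : ℕ)
    (h : (treeAut A)^[t] w = w) : 2 ^ w.length ∣ t := by
  induction w using List.reverseRecOn generalizing t with
  | nil => simp
  | append_singleton w b ih =>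
    have key : ∀ s, (treeAut A)^[s] w = w → ∃ c, s = 2 ^ w.length * c := fun s hs => ih s hs
    have hfix : ∀ s b', (treeAut A)^[s] (w ++ [b]) = w ++ [b'] → (treeAut A)^[s] w = w := by
      intro s b' hs
      rw [iterate_snoc] at hs
      exact List.append_inj_left' hs rfl
    obtain ⟨c, rfl⟩ := key t (hfix t b h)
    have hπ : orbSum A w (2 ^ w.length) = true := by
      by_contra hne
      rw [Bool.not_eq_true] at hne
      obtain ⟨s, hs⟩ := hA (w ++ [b]) (w ++ [!b]) (by simp)
      obtain ⟨d, rfl⟩ := key s (hfix _ _ hs)
      have h1 : ∀ d, (treeAut A)^[2 ^ w.length * d] (w ++ [b]) = w ++ [b] := by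
        intro d
        induction d with
        | zero => rfl
        | succ d ihd =>
          rw [Nat.mul_succ, Nat.add_comm, Function.iterate_add_apply, ihd, iterate_two_pow_snoc,
            hne, Bool.false_xor]
      rw [h1] at hs
      have := List.append_inj_right' hs rfl
      simp at this
    have h1 : ∀ d, (treeAut A)^[2 ^ w.length * d] (w ++ [b]) = w ++ [xor d.bodd b] := by
      intro d
      induction d with
      | zero => simp
      | succ d ihd =>
        rw [Nat.mul_succ, Nat.add_comm, Function.iterate_add_apply, ihd, iterate_two_pow_snoc,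
          hπ, Nat.bodd_succ]
        cases d.bodd <;> cases b <;> rfl
    rw [h1] at h
    have h2 := List.append_inj_right' h rfl
    have h3 : c.bodd = false := by
      simp only [List.cons.injEq, and_true] at h2
      revert h2
      cases c.bodd <;> cases b <;> simp
    have h4 : 2 ∣ c := by
      have := Nat.mod_two_of_bodd c
      rw [h3] at this
      exact Nat.dvd_of_mod_eq_zero (by simpa using this)
    rw [List.length_append, List.length_cons, List.length_nil, pow_succ]
    exact Nat.mul_dvd_mul_left _ h4

theorem congr_of_eq {A : Set (List Bool)} (hA : LevelTransitive A) (w : List Bool) (s t : ℕ)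
    (h : (treeAut A)^[s] w = (treeAut A)^[t] w) : s ≡ t [MOD 2 ^ w.length] := by
  wlog hst : s ≤ t generalizing s t with H
  · exact (H t s h.symm (by omega)).symm
  obtain ⟨d, rfl⟩ := Nat.exists_eq_add_of_le hst
  rw [Nat.add_comm, Function.iterate_add_apply] at h
  have h1 : (treeAut A)^[d] ((treeAut A)^[s] w) = (treeAut A)^[s] w := h.symm
  have h2 := dvd_of_fix hA _ d h1
  rw [length_iterate] at h2
  have h3 := (Nat.modEq_zero_iff_dvd.2 h2).add_left s
  simpa using h3.symm

/-! ### The conjugating automorphism -/

/-- Zero word. -/
def zw (n : ℕ) : List Bool := List.replicate n false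

@[simp] theorem length_zw (n : ℕ) : (zw n).length = n := by simp [zw]

theorem zw_succ (n : ℕ) : zw (n + 1) = zw n ++ [false] := by
  simp [zw, List.replicate_succ']

open Classical in
/-- The time of a word on the orbit of the zero word. -/
noncomputable def tm (A : Set (List Bool)) (w : List Bool) : ℕ :=
  if h : ∃ t, (treeAut A)^[t] (zw w.length) = w then Nat.find h else 0

theorem tm_spec {A : Set (List Bool)} (hA : LevelTransitive A) (w : List Bool) :
    (treeAut A)^[tm A w] (zw w.length) = w := by
  classical
  have h : ∃ t, (treeAut A)^[t] (zw w.length) = w := hA _ _ (by simp)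
  unfold tm
  rw [dif_pos h]
  exact Nat.find_spec h

theorem tm_min {A : Set (List Bool)} (hA : LevelTransitive A) (w : List Bool) (t : ℕ)
    (ht : t < tm A w) : (treeAut A)^[t] (zw w.length) ≠ w := by
  classical
  have h : ∃ t, (treeAut A)^[t] (zw w.length) = w := hA _ _ (by simp)
  unfold tm at ht
  rw [dif_pos h] at ht
  exact Nat.find_min h ht

/-- The conjugating map. -/
noncomputable def cj (A B : Set (List Bool)) (w : List Bool) : List Bool :=
  (treeAut B)^[tm A w] (zw w.length)

theorem cj_iterate {A B : Set (List Bool)} (hA : LevelTransitive A) (n t : ℕ) :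
    cj A B ((treeAut A)^[t] (zw n)) = (treeAut B)^[t] (zw n) := by
  unfold cj
  have hl : ((treeAut A)^[t] (zw n)).length = n := by simp
  rw [hl]
  have h1 := tm_spec hA ((treeAut A)^[t] (zw n))
  rw [hl] at h1
  have h2 := congr_of_eq hA _ _ _ h1
  rw [length_zw] at h2
  exact iterate_congr_mod B n _ _ _ (by simp) h2

theorem length_cj (A B : Set (List Bool)) (w : List Bool) : (cj A B w).length = w.length := by
  simp [cj]

theorem cj_comm {A B : Set (List Bool)} (hA : LevelTransitive A) (w : List Bool) :
    cj A B (treeAut A w) = treeAut B (cj A B w) := by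
  have h := tm_spec hA w
  conv_lhs => rw [← h, ← Function.iterate_succ_apply' (treeAut A)]
  rw [cj_iterate hA, Function.iterate_succ_apply']
  rfl

/-- The portrait of the conjugating map. -/
def cjP (A B : Set (List Bool)) : Set (List Bool) :=
  {w | ∃ u, cj A B (w ++ [false]) = u ++ [true]}

theorem cj_snoc {A B : Set (List Bool)} (hA : LevelTransitive A) (hB : LevelTransitive B)
    (w : List Bool) : ∃ c, ∀ b, cj A B (w ++ [b]) = cj A B w ++ [xor c b] := by
  -- time of `w ++ [false]`
  obtain ⟨t, ht⟩ : ∃ t, (treeAut A)^[t] (zw (w.length + 1)) = w ++ [false] :=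
    hA _ _ (by simp)
  rw [zw_succ, iterate_snoc] at ht
  have h1 : (treeAut A)^[t] (zw w.length) = w := List.append_inj_left' ht rfl
  have h2 : orbSum A (zw w.length) t = false := by
    have := List.append_inj_right' ht rfl
    simpa using this
  refine ⟨orbSum B (zw w.length) t, ?_⟩
  have hw : cj A B w = (treeAut B)^[t] (zw w.length) := by
    conv_lhs => rw [← h1]
    exact cj_iterate hA _ _
  have hflip : ∀ {C : Set (List Bool)}, LevelTransitive C → ∀ (v : List Bool) (b : Bool),
      (treeAut C)^[2 ^ v.length] (v ++ [b]) = v ++ [!b] := by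
    intro C hC v b
    rw [iterate_two_pow_snoc]
    congr 2
    by_contra hne
    have hx : orbSum C v (2 ^ v.length) = false := by
      revert hne
      cases orbSum C v (2 ^ v.length) <;> cases b <;> simp
    have h3 := dvd_of_fix hC (v ++ [b]) (2 ^ v.length) (by
      rw [iterate_two_pow_snoc, hx, Bool.false_xor])
    rw [List.length_append, List.length_cons, List.length_nil] at h3
    have h4 := (Nat.pow_dvd_pow_iff_le_right (by norm_num)).1 h3
    omega
  intro b
  cases b
  · have : (treeAut A)^[t] (zw (w.length + 1)) = w ++ [false] := by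
      rw [zw_succ, iterate_snoc, h1, h2]; rfl
    rw [← this, cj_iterate hA, zw_succ, iterate_snoc, hw]
  · have : (treeAut A)^[2 ^ w.length + t] (zw (w.length + 1)) = w ++ [true] := by
      rw [Function.iterate_add_apply, zw_succ, iterate_snoc, h1, h2]
      exact hflip hA w _
    rw [← this, cj_iterate hA, Function.iterate_add_apply, zw_succ, iterate_snoc, hw]
    have hl : ((treeAut B)^[t] (zw w.length)).length = w.length := by simp
    have := hflip hB ((treeAut B)^[t] (zw w.length)) (xor (orbSum B (zw w.length) t) false)
    rw [hl] at this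
    rw [this]
    simp

theorem memB_cjP {A B : Set (List Bool)} (w : List Bool) (c : Bool)
    (h : ∀ b, cj A B (w ++ [b]) = cj A B w ++ [xor c b]) : memB (cjP A B) w = c := by
  unfold memB
  have h0 := h false
  rw [Bool.xor_false] at h0
  cases c
  · have : w ∉ cjP A B := by
      rintro ⟨u, hu⟩
      rw [h0] at hu
      have := List.append_inj_right' hu rfl
      simp at this
    simpa using this
  · have : w ∈ cjP A B := ⟨_, h0⟩
    simpa using this

theorem treeAut_cjP {A B : Set (List Bool)} (hA : LevelTransitive A) (hB : LevelTransitive B)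
    (w : List Bool) : treeAut (cjP A B) w = cj A B w := by
  induction w using List.reverseRecOn with
  | nil =>
    have : (cj A B []).length = 0 := length_cj A B []
    rw [List.eq_nil_of_length_eq_zero this]
    simp
  | append_singleton w b ih =>
    obtain ⟨c, hc⟩ := cj_snoc hA hB w
    rw [treeAut_snoc', ih, memB_cjP w c hc, hc]

/-- The conjugating automorphism is in polynomial space. -/
theorem cjP_mem_PSPACE {A B : Set (List Bool)} (hA : LevelTransitive A)
    (hB : LevelTransitive B) (hAP : A ∈ PSPACE) (hBP : B ∈ PSPACE) : cjP A B ∈ PSPACE := by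
  rw [mem_PSPACE_iff_memB] at hAP hBP ⊢
  have hf := PT.treeAut' hAP
  have hg := PT.treeAut' hBP
  let s : List Bool × (List Bool × List Bool) → List Bool × List Bool := fun z =>
    (treeAut A z.2.1, treeAut B z.2.2)
  have hit : ∀ (w : List Bool) (k : ℕ), (fun y => s (w, y))^[k] (zw w.length, zw w.length) =
      ((treeAut A)^[k] (zw w.length), (treeAut B)^[k] (zw w.length)) := by
    intro w k
    induction k with
    | zero => rfl
    | succ k ih =>
      rw [Function.iterate_succ_apply', ih]
      simp only [s, Prod.mk.injEq]
      exact ⟨by rw [Function.iterate_succ_apply'], by rw [Function.iterate_succ_apply']⟩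
  have hlen : ∀ (C : Set (List Bool)) (w : List Bool) (k : ℕ),
      size ((treeAut C)^[k] (zw w.length)) ≤ 4 * w.length + 1 := by
    intro C w k
    have := (size_bits ((treeAut C)^[k] (zw w.length))).2
    rwa [length_iterate, length_zw] at this
  have key := PT.loop (m := false) (ini := fun w : List Bool => (zw w.length, zw w.length))
    (s := s) (c := fun z => !(decide (z.2.1 = z.1))) (tm A) (by unfold zw; fun_prop)
    (PT.prodMk (hf.comp (f := fun z : List Bool × (List Bool × List Bool) => z.2.1) (by fun_prop))
      (hg.comp (f := fun z : List Bool × (List Bool × List Bool) => z.2.2) (by fun_prop)))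
    (by fun_prop)
    (8 * Polynomial.X + 3) (by
      intro w k _
      rw [hit, size_pair]
      have h1 := hlen A w k
      have h2 := hlen B w k
      have h3 := length_le_size' w
      simp only [Polynomial.eval_add, Polynomial.eval_mul, Polynomial.eval_X,
        Polynomial.eval_ofNat]
      omega) (by
      intro w k hk
      rw [hit]
      simpa using tm_min hA w k hk) (by
      intro w
      rw [hit]
      simpa using tm_spec hA w) (by simp)
  have h1 : PT false (fun w => cj A B w) := by
    have h2 := (PT.snd (m := false)).comp key
    refine h2.of_eq (fun w => ?_)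
    rw [hit]
    rfl
  have h2 : PT false (fun w => (cj A B (w ++ [false])).reverse.headD false) := by
    have h3 := h1.comp (f := fun w : List Bool => w ++ [false]) (by fun_prop)
    exact PT.headD' h3.reverse' (by fun_prop)
  refine h2.of_eq (fun w => ?_)
  obtain ⟨c, hc⟩ := cj_snoc hA hB w
  rw [memB_cjP w c hc, hc]
  simp

/-! ### The odometer is level transitive -/

theorem odo_levelTransitive : LevelTransitive odo := by
  intro v w h
  refine ⟨2 ^ v.length - val v + val w, ?_⟩
  have hv : val v < 2 ^ v.length := by
    have := val_bits v.length (val v)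
    rw [bits_val] at this
    rw [this]
    exact Nat.mod_lt _ (by positivity)
  have h1 := iterate_odo v.length (val v) (2 ^ v.length - val v + val w)
  rw [bits_val] at h1
  rw [h1]
  rw [show val v + (2 ^ v.length - val v + val w) = val w + 2 ^ v.length by omega]
  rw [bits_congr (t' := val w) (by simp), h, bits_val]

theorem odo_mem_P : odo ∈ Pool.Agent.PPS.P := by
  rw [mem_P_iff_memB]
  have h1 : PT true (fun w : List Bool => decide (w = List.replicate w.length true)) := by fun_prop
  refine h1.of_eq (fun w => ?_)
  unfold memB odo
  rw [decide_eq_decide]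
  constructor
  · intro h
    exact List.eq_replicate_iff.2 ⟨rfl, h⟩
  · intro h
    exact (List.eq_replicate_iff.1 h).2

end Pool.Agent.H9
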