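import Pool.Agent.H9.GroupDef
import Pool.Agent.H9.LevelTrans

/-! The group of the tree automorphisms computable in polynomial time. -/

namespace Pool.Agent.H9

open Pool.Agent.PPS

/-- The permutation with a given portrait. -/
noncomputable def perm (A : Set (List Bool)) : Equiv.Perm (List Bool) where
  toFun := treeAut A
  invFun := treeAut (invP A)
  left_inv := treeAut_invP A
  right_inv := treeAut_invP' A

@[simp] theorem perm_apply (A : Set (List Bool)) (w : List Bool) : perm A w = treeAut A w := rfl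

theorem perm_mem_GP {A : Set (List Bool)} (hA : A ∈ Pool.Agent.PPS.P) : perm A ∈ GP :=
  ⟨A, hA, fun _ => rfl⟩

theorem eq_perm {x : Equiv.Perm (List Bool)} {A : Set (List Bool)} (h : ∀ w, x w = treeAut A w) :
    x = perm A := Equiv.ext h

theorem one_mem_GP : (1 : Equiv.Perm (List Bool)) ∈ GP := by
  refine ⟨∅, ?_, fun w => (treeAut_empty w).symm⟩
  rw [mem_P_iff_memB]
  have : PT true (fun _ : List Bool => false) := by fun_prop
  exact this.of_eq (fun w => by simp [memB])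

theorem mul_mem_GP {x y : Equiv.Perm (List Bool)} (hx : x ∈ GP) (hy : y ∈ GP) : x * y ∈ GP := by
  obtain ⟨A, hA, hA'⟩ := hx
  obtain ⟨B, hB, hB'⟩ := hy
  exact ⟨mulP A B, mulP_mem_P hA hB, fun w => by
    rw [treeAut_mulP, Equiv.Perm.mul_apply, hA', hB']⟩

theorem inv_mem_GP {x : Equiv.Perm (List Bool)} (hx : x ∈ GP) : x⁻¹ ∈ GP := by
  obtain ⟨A, hA, hA'⟩ := hx
  refine ⟨invP A, invP_mem_P hA, fun w => ?_⟩
  rw [eq_perm hA']
  rfl

theorem pow_mem_GP {x : Equiv.Perm (List Bool)} (hx : x ∈ GP) (n : ℕ) : x ^ n ∈ GP := by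
  induction n with
  | zero => rw [pow_zero]; exact one_mem_GP
  | succ n ih => rw [pow_succ]; exact mul_mem_GP ih hx

theorem zpow_mem_GP {x : Equiv.Perm (List Bool)} (hx : x ∈ GP) (n : ℤ) : x ^ n ∈ GP := by
  cases n with
  | ofNat n => rw [Int.ofNat_eq_natCast, zpow_natCast]; exact pow_mem_GP hx n
  | negSucc n => rw [zpow_negSucc]; exact inv_mem_GP (pow_mem_GP hx _)

theorem perm_pow_apply (A : Set (List Bool)) (n : ℕ) (w : List Bool) :
    (perm A ^ n) w = (treeAut A)^[n] w := by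
  induction n generalizing w with
  | zero => rfl
  | succ n ih => rw [pow_succ, Equiv.Perm.mul_apply, ih, perm_apply, Function.iterate_succ_apply]

/-- Order on the words of length `n`. -/
theorem perm_zpow_congr (A : Set (List Bool)) (w : List Bool) (a b : ℤ)
    (h : a ≡ b [ZMOD (2 ^ w.length : ℕ)]) : (perm A ^ a) w = (perm A ^ b) w := by
  have key : ∀ v : List Bool, v.length = w.length → ∀ k : ℤ,
      (perm A ^ ((2 ^ w.length : ℕ) * k)) v = v := by
    intro v hv k
    rw [zpow_mul, zpow_natCast]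
    have h1 : (perm A ^ 2 ^ w.length) v = v := by
      rw [perm_pow_apply]
      exact iterate_two_pow A _ v (by omega)
    exact (Equiv.Perm.zpow_apply_eq_self_of_apply_eq_self h1 k)
  obtain ⟨k, hk⟩ := h.symm.dvd
  have e : a = b + (2 ^ w.length : ℕ) * k := by linarith
  rw [e, zpow_add, Equiv.Perm.mul_apply, key w rfl]

theorem levelTrans_perm (A : Set (List Bool)) : LevelTrans (perm A) ↔ LevelTransitive A := by
  constructor
  · intro h v w hvw
    obtain ⟨m, hm⟩ := h v w hvw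
    refine ⟨(m % (2 ^ v.length : ℕ)).toNat, ?_⟩
    rw [← perm_pow_apply, ← hm, ← zpow_natCast]
    have hnn : 0 ≤ m % (2 ^ v.length : ℕ) := Int.emod_nonneg _ (by positivity)
    rw [Int.toNat_of_nonneg hnn]
    exact perm_zpow_congr A v _ _ (Int.mod_modEq _ _)
  · intro h v w hvw
    obtain ⟨m, hm⟩ := h v w hvw
    exact ⟨m, by rw [zpow_natCast, perm_pow_apply, hm]⟩

/-- Odd powers of level transitive automorphisms are level transitive. -/
theorem levelTrans_zpow {x : Equiv.Perm (List Bool)} (hx : x ∈ GP) (h : LevelTrans x) (a : ℤ)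
    (ha : Odd a) : LevelTrans (x ^ a) := by
  obtain ⟨A, -, hA⟩ := hx
  rw [eq_perm hA] at h ⊢
  intro v w hvw
  obtain ⟨m, hm⟩ := h v w hvw
  -- an inverse of `a`
  have hcop : IsCoprime a ((2 ^ v.length : ℕ) : ℤ) := by
    rw [Int.isCoprime_iff_gcd_eq_one, Int.gcd_eq_natAbs]
    simp only [Int.natAbs_natCast]
    exact Nat.Coprime.pow_right _ (Nat.coprime_two_right.2 (Int.natAbs_odd.2 ha))
  obtain ⟨c, d, hcd⟩ := hcop
  refine ⟨c * m, ?_⟩
  rw [← zpow_mul, ← hm]
  apply perm_zpow_congr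
  apply Int.ModEq.symm
  rw [Int.modEq_iff_dvd]
  refine ⟨- d * m, ?_⟩
  have : a * (c * m) = (c * a) * m := by ring
  rw [this, show c * a = 1 - d * (2 ^ v.length : ℕ) by linarith]
  ring

/-- Any two level transitive elements are conjugate if `P = PSPACE`. -/
theorem conj_of_eq (hP : Pool.Agent.PPS.P = PSPACE) {x x' : Equiv.Perm (List Bool)}
    (hx : x ∈ GP) (hx' : x' ∈ GP) (h : LevelTrans x) (h' : LevelTrans x') :
    ∃ y ∈ GP, y * x * y⁻¹ = x' := by
  obtain ⟨A, hA, hA'⟩ := hx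
  obtain ⟨B, hB, hB'⟩ := hx'
  rw [eq_perm hA'] at h ⊢
  rw [eq_perm hB'] at h' ⊢
  rw [levelTrans_perm] at h h'
  have hC : cjP A B ∈ Pool.Agent.PPS.P := by
    rw [hP] at hA hB ⊢
    exact cjP_mem_PSPACE h h' hA hB
  refine ⟨perm (cjP A B), perm_mem_GP hC, ?_⟩
  rw [mul_inv_eq_iff_eq_mul]
  ext1 w
  rw [Equiv.Perm.mul_apply, Equiv.Perm.mul_apply]
  simp only [perm_apply]
  rw [treeAut_cjP h h', treeAut_cjP h h', cj_comm h]

/-- Conjugacy of powers. -/
theorem conj_pow_of_conj {x : Equiv.Perm (List Bool)} (hx : x ∈ GP) (h : LevelTrans x)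
    (hconj : ∀ x ∈ GP, ∀ x' ∈ GP, LevelTrans x → LevelTrans x' → ∃ y ∈ GP, y * x * y⁻¹ = x')
    (a b : ℤ) (ha : a ≠ 0) (hb : b ≠ 0) (hv : padicValInt 2 a = padicValInt 2 b) :
    ∃ y ∈ GP, y * x ^ a * y⁻¹ = x ^ b := by
  have dec : ∀ a : ℤ, a ≠ 0 → ∃ a' : ℤ, Odd a' ∧ a = a' * (2 ^ padicValInt 2 a : ℕ) := by
    intro a ha
    obtain ⟨s, m, hm, he⟩ := Nat.exists_eq_two_pow_mul_odd (Int.natAbs_ne_zero.2 ha)
    have hs : padicValInt 2 a = s := by
      unfold padicValInt
      rw [he, padicValNat.mul (by positivity) (by rintro rfl; simp at hm),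
        padicValNat.prime_pow, padicValNat.eq_zero_of_not_dvd (fun h2 => by
          rw [← even_iff_two_dvd] at h2
          exact (Nat.not_even_iff_odd.2 hm) h2)]
      simp
    rw [hs]
    rcases Int.natAbs_eq a with h1 | h1
    · refine ⟨m, by exact_mod_cast hm, ?_⟩
      rw [h1, he]; push_cast; ring
    · refine ⟨-m, by simpa using (by exact_mod_cast hm : Odd (m : ℤ)), ?_⟩
      rw [h1, he]; push_cast; ring
  obtain ⟨a', ha', hae⟩ := dec a ha
  obtain ⟨b', hb', hbe⟩ := dec b hb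
  obtain ⟨y, hy, he⟩ := hconj _ (zpow_mem_GP hx a') _ (zpow_mem_GP hx b')
    (levelTrans_zpow hx h a' ha') (levelTrans_zpow hx h b' hb')
  refine ⟨y, hy, ?_⟩
  rw [hae, hbe, ← hv, zpow_mul, zpow_mul, ← he, zpow_natCast, zpow_natCast, conj_pow]

end Pool.Agent.H9
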