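import Pool.Agent.H9.TransDef
import Pool.Agent.PPS.Defs

/-! The group of the tree automorphisms computable in polynomial time. -/

namespace Pool.Agent.H9

/-- The permutations of the words over `{0,1}` that are tree automorphisms with portrait in `P`. -/
def GP : Set (Equiv.Perm (List Bool)) := {x | ∃ A ∈ Pool.Agent.PPS.P, ∀ w, x w = treeAut A w}

/-- Transitive on the words of each length. -/
def LevelTrans (x : Equiv.Perm (List Bool)) : Prop :=
  ∀ v w : List Bool, v.length = w.length → ∃ m : ℤ, (x ^ m) v = w

/-- Tree automorphisms given by finite transducers: the portrait is regular. -/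
def FiniteState (x : Equiv.Perm (List Bool)) : Prop :=
  ∃ A : Language Bool, A.IsRegular ∧ ∀ w, x w = treeAut A w

end Pool.Agent.H9
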