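import Pool.Agent.H9.Machine

/-! The layout of the counters, and the step theorem. -/

namespace Pool.Agent.H9

variable {g : ℕ}

/-- Cells of a constant column. -/
def kc (c : Col g) : List (Fin g) → List (Cell g)
  | [] => []
  | i :: is => (.kb i, c i) :: kc c is

/-- Update several bits of a column by another column. -/
def updCol (cur c : Col g) : List (Fin g) → Col g
  | [] => cur
  | i :: is => updCol (Function.update cur i (c i)) c is

theorem go_kc (R : RowSys g) (q : St g) (c : Col g) (is : List (Fin g)) :
    go R q (kc c is) = (kc c is, { q with cur := updCol q.cur c is }) := by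
  induction is generalizing q with
  | nil => simp [kc, go, updCol]
  | cons i is ih => simp [kc, go, nxt, out, ih, updCol]

theorem updCol_apply (cur c : Col g) (is : List (Fin g)) (i : Fin g) :
    updCol cur c is i = if i ∈ is then c i else cur i := by
  induction is generalizing cur with
  | nil => simp [updCol]
  | cons j is ih =>
    simp only [updCol, ih, List.mem_cons]
    by_cases h : i ∈ is
    · simp [h]
    · simp only [h, if_false, or_false]
      by_cases hij : i = j
      · subst hij; simp
      · simp [hij]

theorem updCol_finRange (cur c : Col g) : updCol cur c (List.finRange g) = c := by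
  funext i
  rw [updCol_apply]; simp

/-- A column of a counter block: main counter value `τ`, local counter value `l`. -/
def colM (τ l : ℕ) : List (Cell g) :=
  (.ptr, l.bodd) :: (.lcl, (l / 2).bodd) :: (cc ((List.finRange g).map .mb) τ ++ [(.col, false)])

/-- A column of the constant block. -/
def colK (c : Col g) (l : ℕ) : List (Cell g) :=
  (.ptr, l.bodd) :: (.lcl, (l / 2).bodd) :: (kc c (List.finRange g) ++ [(.col, false)])

/-- The state after a column with pointer bit `b` and content `c`. -/
def St.column (q : St g) (b : Bool) (c : Col g) : St g := { q with p := b, cur := c }.complete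

@[simp] theorem St.complete_c (q : St g) : q.complete.c = q.c := by
  unfold St.complete; split_ifs <;> rfl
@[simp] theorem St.complete_l (q : St g) : q.complete.l = q.l := by
  unfold St.complete; split_ifs <;> rfl
@[simp] theorem St.complete_side (q : St g) : q.complete.side = q.side := by
  unfold St.complete; split_ifs <;> rfl
@[simp] theorem St.complete_L (q : St g) : q.complete.L = q.L := by
  unfold St.complete; split_ifs <;> rfl
@[simp] theorem St.complete_R (q : St g) : q.complete.R = q.R := by
  unfold St.complete; split_ifs <;> rfl
@[simp] theorem St.complete_wz (q : St g) : q.complete.wz = q.wz := by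
  unfold St.complete; split_ifs <;> rfl
@[simp] theorem St.complete_live (q : St g) : q.complete.live = q.live := by
  unfold St.complete; split_ifs <;> rfl

/-- The part of the state that describes the reading of a block. -/
def St.blockState (q : St g) : Option (Col g) × Option (Col g) × Option (Info g) × Bool :=
  (q.bf, q.bp, q.cap, q.wt)

/-- Evolution of the block state. -/
def bstep (s : Option (Col g) × Option (Col g) × Option (Info g) × Bool) (b : Bool) (c : Col g) :
    Option (Col g) × Option (Col g) × Option (Info g) × Bool :=
  if s.2.2.2 then
    (s.1, some c, s.2.2.1.map (fun i => (i.1, i.2.1, i.2.2.1, some c)), false)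
  else if s.2.2.1.isNone && !b then
    (some (s.1.getD c), some c, some (s.1.getD c, s.2.1, c, none), true)
  else (some (s.1.getD c), some c, s.2.2.1, false)

theorem blockState_column (q : St g) (b : Bool) (c : Col g) :
    (q.column b c).blockState = bstep q.blockState b c := by
  unfold St.column St.complete bstep St.blockState
  simp only
  split_ifs <;> simp_all

/-- The final block state, for the list of pointer bits `bs` and the list of columns `cs`. -/
def bfold (s : Option (Col g) × Option (Col g) × Option (Info g) × Bool) :
    List Bool → List (Col g) → Option (Col g) × Option (Col g) × Option (Info g) × Bool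
  | b :: bs, c :: cs => bfold (bstep s b c) bs cs
  | _, _ => s

theorem bfold_some (f p : Option (Col g)) (i : Info g) (bs : List Bool) (cs : List (Col g)) :
    (bfold (f, p, some i, false) bs cs).2.2.1 = some i := by
  induction cs generalizing f p bs with
  | nil => cases bs <;> rfl
  | cons c cs ih =>
    cases bs with
    | nil => rfl
    | cons b bs =>
      have : bstep (f, p, some i, false) b c = (some (f.getD c), some c, some i, false) := by
        simp [bstep]
      rw [bfold, this]
      exact ih _ _ _

theorem bfold_waiting (f p : Option (Col g)) (i : Info g) (hi : i.2.2.2 = none) (bs : List Bool)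
    (cs : List (Col g)) (hl : bs.length = cs.length) :
    (bfold (f, p, some i, true) bs cs).2.2.1 = some (i.1, i.2.1, i.2.2.1, cs.head?) := by
  cases cs with
  | nil =>
    cases bs with
    | nil =>
      simp only [bfold, List.head?_nil]
      rw [← hi]
    | cons b bs => simp at hl
  | cons c cs =>
    cases bs with
    | nil => simp at hl
    | cons b bs =>
      have : bstep (f, p, some i, true) b c =
          (f, some c, some (i.1, i.2.1, i.2.2.1, some c), false) := by
        simp [bstep]
      rw [bfold, this, bfold_some]
      rfl

theorem bfold_none (f p : Option (Col g)) (bs : List Bool) (cs : List (Col g))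
    (hl : bs.length = cs.length) :
    (bfold (f, p, none, false) bs cs).2.2.1 = capFrom f p bs cs := by
  induction cs generalizing f p bs with
  | nil =>
    cases bs with
    | nil => rfl
    | cons b bs => simp at hl
  | cons c cs ih =>
    cases bs with
    | nil => simp at hl
    | cons b bs =>
      cases b with
      | true =>
        have : bstep (f, p, none, false) true c = (some (f.getD c), some c, none, false) := by
          simp [bstep]
        rw [bfold, this, ih _ _ _ (by simpa using hl)]
        simp [capFrom]
      | false =>
        have : bstep (f, p, none, false) false c =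
            (some (f.getD c), some c, some (f.getD c, p, c, none), true) := by
          simp [bstep]
        rw [bfold, this, bfold_waiting _ _ _ rfl _ _ (by simpa using hl)]
        simp [capFrom]

theorem go_colM (R : RowSys g) (q : St g) (τ l : ℕ) :
    go R q (colM τ l) = (colM (τ + q.c.toNat) (l + q.l.toNat),
      { q with c := co g τ q.c, l := co 2 l q.l }.column l.bodd (fun i => τ.testBit i)) := by
  unfold colM
  simp only [go, nxt, out, go_append, go_cc_mb, bodd_add_toNat, div2_add_toNat,
    updAll_finRange, List.length_finRange, co, Bool.xor_false]
  simp only [St.column]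

theorem go_colK (R : RowSys g) (q : St g) (c : Col g) (l : ℕ) :
    go R q (colK c l) = (colK c (l + q.l.toNat),
      { q with l := co 2 l q.l }.column l.bodd c) := by
  unfold colK
  simp only [go, nxt, out, go_append, go_kc, bodd_add_toNat, div2_add_toNat,
    updCol_finRange, co, Bool.xor_false]
  simp only [St.column]

/-- The columns of a counter block. -/
def colsM (g : ℕ) : ℕ → ℕ → ℕ → List (Cell g)
  | 0, _, _ => []
  | n + 1, τ, l => colM τ l ++ colsM g n (τ / 2 ^ g) (l / 4)

/-- The columns of the constant block. -/
def colsK : List (Col g) → ℕ → List (Cell g)
  | [], _ => []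
  | c :: cs, l => colK c l ++ colsK cs (l / 4)

/-- The first `n` pointer bits of the local counter `l`. -/
def ptrs : ℕ → ℕ → List Bool
  | 0, _ => []
  | n + 1, l => l.bodd :: ptrs n (l / 4)

@[simp] theorem length_ptrs (n l : ℕ) : (ptrs n l).length = n := by
  induction n generalizing l with
  | zero => rfl
  | succ n ih => simp [ptrs, ih]

/-- The state after reading the columns `cs` with pointer bits `bs`. -/
def St.columns (q : St g) : List Bool → List (Col g) → St g
  | b :: bs, c :: cs => (q.column b c).columns bs cs
  | _, _ => q

@[simp] theorem St.column_c (q : St g) (b : Bool) (c : Col g) : (q.column b c).c = q.c := by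
  simp [St.column]
@[simp] theorem St.column_l (q : St g) (b : Bool) (c : Col g) : (q.column b c).l = q.l := by
  simp [St.column]

theorem St.column_upd (q : St g) (b : Bool) (c : Col g) (x y : Bool) :
    ({ q.column b c with c := x, l := y } : St g) = { q with c := x, l := y }.column b c := by
  unfold St.column St.complete
  simp only
  split_ifs <;> rfl

theorem St.columns_upd (q : St g) (bs : List Bool) (cs : List (Col g)) (x y : Bool) :
    ({ q.columns bs cs with c := x, l := y } : St g) = { q with c := x, l := y }.columns bs cs := by
  induction cs generalizing q bs with
  | nil => cases bs <;> rfl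
  | cons c cs ih =>
    cases bs with
    | nil => rfl
    | cons b bs =>
      simp only [St.columns]
      rw [ih, St.column_upd]

theorem go_colsM (R : RowSys g) (q : St g) (n τ l : ℕ) :
    go R q (colsM g n τ l) = (colsM g n (τ + q.c.toNat) (l + q.l.toNat),
      { q with c := co (g * n) τ q.c, l := co (2 * n) l q.l }.columns (ptrs n l) (cols g n τ)) := by
  induction n generalizing q τ l with
  | zero => simp [colsM, go, co, St.columns, ptrs]
  | succ n ih =>
    simp only [colsM, go_append, go_colM, ih]
    have e1 : (τ + q.c.toNat) / 2 ^ g = τ / 2 ^ g + (co g τ q.c).toNat := div_pow_add_toNat _ _ _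
    have e2 : (l + q.l.toNat) / 4 = l / 4 + (co 2 l q.l).toNat := div_pow_add_toNat 2 _ _
    have e3 : co (g * (n + 1)) τ q.c = co (g * n) (τ / 2 ^ g) (co g τ q.c) := by
      rw [show g * (n + 1) = g + g * n by ring, co_add]
    have e4 : co (2 * (n + 1)) l q.l = co (2 * n) (l / 4) (co 2 l q.l) := by
      rw [show 2 * (n + 1) = 2 + 2 * n by ring, co_add]
      norm_num
    rw [e1, e2, e3, e4]
    simp only [St.column_c, St.column_l, ptrs, cols, St.columns, St.column_upd]

theorem go_colsK (R : RowSys g) (q : St g) (cs : List (Col g)) (l : ℕ) :
    go R q (colsK cs l) = (colsK cs (l + q.l.toNat),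
      { q with l := co (2 * cs.length) l q.l }.columns (ptrs cs.length l) cs) := by
  induction cs generalizing q l with
  | nil => simp [colsK, go, co, St.columns, ptrs]
  | cons c cs ih =>
    simp only [colsK, go_append, go_colK, ih]
    have e2 : (l + q.l.toNat) / 4 = l / 4 + (co 2 l q.l).toNat := div_pow_add_toNat 2 _ _
    have e4 : co (2 * (cs.length + 1)) l q.l = co (2 * cs.length) (l / 4) (co 2 l q.l) := by
      rw [show 2 * (cs.length + 1) = 2 + 2 * cs.length by ring, co_add]
      norm_num
    rw [e2]
    simp only [List.length_cons]
    rw [e4]
    simp only [St.column_l, ptrs, St.columns]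
    have := St.column_upd { q with l := co 2 l q.l } l.bodd c q.c
      (co (2 * cs.length) (l / 4) (co 2 l q.l))
    simp only at this
    rw [← this]
    simp [St.column]

end Pool.Agent.H9
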