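import Pool.Agent.H9.Rows

/-! The finite-state transducer on words of cells, and its action on the layout. -/

namespace Pool.Agent.H9

variable {g : ℕ}

/-- The tags of the cells. -/
inductive Tag (g : ℕ) : Type
  | cnt | blk | ini | ptr | lcl | mb (i : Fin g) | kb (i : Fin g) | col | fin | win | sec
  | dig | oth | yy | yf
  deriving DecidableEq

/-- Cells: a tag and a bit. -/
abbrev Cell (g : ℕ) := Tag g × Bool

/-- States of the transducer. -/
@[ext] structure St (g : ℕ) : Type where
  /-- carry of the main counter -/
  c : Bool
  /-- carry of the local counter -/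
  l : Bool
  /-- last digit read -/
  p : Bool
  cur : Col g
  /-- first column of the block -/
  bf : Option (Col g)
  /-- previous column -/
  bp : Option (Col g)
  /-- captured information -/
  cap : Option (Info g)
  /-- waiting for the next column -/
  wt : Bool
  side : Bool
  L : Option (Info g)
  R : Option (Col g)
  /-- all window bits are zero -/
  wz : Bool
  live : Bool

/-- Complete a column. -/
def St.complete (q : St g) : St g :=
  if q.wt then
    { q with wt := false, bp := some q.cur,
             cap := q.cap.map fun i => (i.1, i.2.1, i.2.2.1, some q.cur) }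
  else if q.cap.isNone && !q.p then
    { q with wt := true, bp := some q.cur, bf := some (q.bf.getD q.cur),
             cap := some (q.bf.getD q.cur, q.bp, q.cur, none) }
  else
    { q with bp := some q.cur, bf := some (q.bf.getD q.cur) }

/-- Complete a block. -/
def St.commit (q : St g) : St g :=
  if q.side then { q with L := q.L.or q.cap }
  else { q with R := q.R.or (q.cap.map Info.cur) }

/-- Start a block. -/
def St.start (q : St g) (side : Bool) : St g :=
  { q with l := true, bf := none, bp := none, cap := none, wt := false, side := side }

/-- Transition function of the transducer. -/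
def nxt (R : RowSys g) (q : St g) : Tag g → Bool → St g
  | .cnt, b => { q with c := q.c && b }
  | .blk, b => { q.start b with c := q.c && b }
  | .ini, _ => q.start true
  | .ptr, b => { q with l := q.l && b, p := b }
  | .lcl, b => { q with l := q.l && b }
  | .mb i, b => { q with c := q.c && b, cur := Function.update q.cur i b }
  | .kb i, b => { q with cur := Function.update q.cur i b }
  | .col, _ => q.complete
  | .fin, _ => q.commit
  | .win, b => { q with c := q.c && b, wz := q.wz && !b }
  | .sec, _ => { q with c := true, live := q.wz && verdict R q.L q.R }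
  | .dig, b => { q with c := q.c && b, p := b }
  | .oth, b => { q with c := q.c && b }
  | .yy, y => { q with live := q.live && (q.p && y) }
  | .yf, _ => q

/-- Output function of the transducer: whether the bit is flipped. -/
def out (q : St g) : Tag g → Bool
  | .cnt => q.c
  | .blk => q.c
  | .ini => false
  | .ptr => q.l
  | .lcl => q.l
  | .mb _ => q.c
  | .kb _ => false
  | .col => false
  | .fin => false
  | .win => q.c
  | .sec => false
  | .dig => q.c
  | .oth => q.c
  | .yy => q.live && !q.p
  | .yf => q.live

/-- The transducer. -/
def go (R : RowSys g) : St g → List (Cell g) → List (Cell g) × St g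
  | q, [] => ([], q)
  | q, (τ, b) :: w =>
    ((τ, xor b (out q τ)) :: (go R (nxt R q τ b) w).1, (go R (nxt R q τ b) w).2)

theorem go_append (R : RowSys g) (q : St g) (u v : List (Cell g)) :
    go R q (u ++ v) = ((go R q u).1 ++ (go R (go R q u).2 v).1, (go R (go R q u).2 v).2) := by
  induction u generalizing q with
  | nil => simp [go]
  | cons a u ih => obtain ⟨τ, b⟩ := a; simp [go, ih]

/-- Initial state. -/
def st0 : St g where
  c := true
  l := true
  p := false
  cur := fun _ => false
  bf := none
  bp := none
  cap := none
  wt := false
  side := true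
  L := none
  R := none
  wz := true
  live := false

/-! ### Counters -/

/-- Cells of a counter with tags `ts` and value `τ`. -/
def cc : List (Tag g) → ℕ → List (Cell g)
  | [], _ => []
  | t :: ts, τ => (t, τ.bodd) :: cc ts (τ / 2)

/-- The carry out of `n` bits. -/
def co : ℕ → ℕ → Bool → Bool
  | 0, _, c => c
  | n + 1, τ, c => co n (τ / 2) (c && τ.bodd)

theorem bodd_add_toNat (τ : ℕ) (c : Bool) : (τ + c.toNat).bodd = xor τ.bodd c := by
  rw [Nat.bodd_add]; cases c <;> simp

theorem div2_add_toNat (τ : ℕ) (c : Bool) :
    (τ + c.toNat) / 2 = τ / 2 + (c && τ.bodd).toNat := by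
  have h := Nat.mod_two_of_bodd τ
  cases c
  · simp
  · simp only [Bool.toNat_true, Bool.true_and]
    rcases hb : τ.bodd with _ | _
    · rw [hb] at h; simp at h ⊢; omega
    · rw [hb] at h; simp at h ⊢; omega

theorem div_pow_add_toNat (n τ : ℕ) (c : Bool) :
    (τ + c.toNat) / 2 ^ n = τ / 2 ^ n + (co n τ c).toNat := by
  induction n generalizing τ c with
  | zero => simp [co]
  | succ n ih =>
    rw [pow_succ', ← Nat.div_div_eq_div_mul, ← Nat.div_div_eq_div_mul, div2_add_toNat, ih]
    rfl

theorem co_add (a b τ : ℕ) (c : Bool) : co (a + b) τ c = co b (τ / 2 ^ a) (co a τ c) := by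
  induction a generalizing τ c with
  | zero => simp [co]
  | succ a ih =>
    rw [show a + 1 + b = (a + b) + 1 by omega]
    simp only [co]
    rw [ih, pow_succ', Nat.div_div_eq_div_mul]

theorem go_cc_cnt (R : RowSys g) (q : St g) (n τ : ℕ) :
    go R q (cc (List.replicate n .cnt) τ) =
      (cc (List.replicate n .cnt) (τ + q.c.toNat), { q with c := co n τ q.c }) := by
  induction n generalizing q τ with
  | zero => simp [cc, go, co]
  | succ n ih =>
    simp only [List.replicate_succ, cc, go, nxt, out, ih, bodd_add_toNat, div2_add_toNat, co]

theorem go_cc_oth (R : RowSys g) (q : St g) (n τ : ℕ) :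
    go R q (cc (List.replicate n .oth) τ) =
      (cc (List.replicate n .oth) (τ + q.c.toNat), { q with c := co n τ q.c }) := by
  induction n generalizing q τ with
  | zero => simp [cc, go, co]
  | succ n ih =>
    simp only [List.replicate_succ, cc, go, nxt, out, ih, bodd_add_toNat, div2_add_toNat, co]

/-- All the bits of the `n`-bit counter are zero. -/
def allZero : ℕ → ℕ → Bool
  | 0, _ => true
  | n + 1, τ => !τ.bodd && allZero n (τ / 2)

theorem allZero_iff (n τ : ℕ) : allZero n τ = decide (τ % 2 ^ n = 0) := by
  induction n generalizing τ with
  | zero => simp [allZero, Nat.mod_one]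
  | succ n ih =>
    simp only [allZero, ih]
    have h := Nat.mod_two_of_bodd τ
    have h1 : τ % 2 ^ (n + 1) = τ % 2 + 2 * (τ / 2 % 2 ^ n) := by
      rw [pow_succ', Nat.mod_mul]
    rw [h1, h]
    rcases τ.bodd with _ | _
    · simp
    · simp

theorem go_cc_win (R : RowSys g) (q : St g) (n τ : ℕ) :
    go R q (cc (List.replicate n .win) τ) =
      (cc (List.replicate n .win) (τ + q.c.toNat),
        { q with c := co n τ q.c, wz := q.wz && allZero n τ }) := by
  induction n generalizing q τ with
  | zero => simp [cc, go, co, allZero]
  | succ n ih =>
    simp only [List.replicate_succ, cc, go, nxt, out, ih, bodd_add_toNat, div2_add_toNat, co,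
      allZero, Bool.and_assoc]

/-- Update several bits of a column by the bits of `τ`. -/
def updAll (cur : Col g) : List (Fin g) → ℕ → Col g
  | [], _ => cur
  | i :: is, τ => updAll (Function.update cur i τ.bodd) is (τ / 2)

theorem go_cc_mb (R : RowSys g) (q : St g) (is : List (Fin g)) (τ : ℕ) :
    go R q (cc (is.map .mb) τ) =
      (cc (is.map .mb) (τ + q.c.toNat),
        { q with c := co is.length τ q.c, cur := updAll q.cur is τ }) := by
  induction is generalizing q τ with
  | nil => simp [cc, go, co, updAll]
  | cons i is ih =>
    simp only [List.map_cons, cc, go, nxt, out, ih, bodd_add_toNat, div2_add_toNat, co,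
      List.length_cons, updAll]

theorem updAll_notMem (cur : Col g) (is : List (Fin g)) (τ : ℕ) (i : Fin g) (hi : i ∉ is) :
    updAll cur is τ i = cur i := by
  induction is generalizing cur τ with
  | nil => rfl
  | cons j is ih =>
    simp only [List.mem_cons, not_or] at hi
    simp only [updAll]
    rw [ih _ _ hi.2, Function.update_of_ne hi.1]

theorem updAll_getElem (cur : Col g) (is : List (Fin g)) (τ : ℕ) (hn : is.Nodup) (k : ℕ)
    (hk : k < is.length) : updAll cur is τ is[k] = τ.testBit k := by
  induction is generalizing cur τ k with
  | nil => simp at hk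
  | cons j is ih =>
    simp only [updAll]
    rw [List.nodup_cons] at hn
    cases k with
    | zero =>
      rw [List.getElem_cons_zero, updAll_notMem _ _ _ _ hn.1, Function.update_self]
      rw [Nat.testBit_zero, Nat.bodd_eq_one_and_ne_zero]
      rcases Nat.mod_two_eq_zero_or_one τ with h | h <;> simp [h, Nat.and_comm 1 τ, Nat.and_one_is_mod]
    | succ k =>
      rw [List.getElem_cons_succ, ih _ _ hn.2 k (by simpa using hk), Nat.testBit_succ]

theorem updAll_finRange (cur : Col g) (τ : ℕ) :
    updAll cur (List.finRange g) τ = fun i : Fin g => τ.testBit i := by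
  funext i
  have h := updAll_getElem cur (List.finRange g) τ (List.nodup_finRange g) i (by simp)
  simpa using h

end Pool.Agent.H9
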