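import Pool.Agent.H9.UnitMachine

/-! The greedy choice of good phases. -/

namespace Pool.Agent.H9

open Pool.Agent.PPS

/-! ### Images of extensions -/

theorem treeAut_append_exists (A : Set (List Bool)) (u l : List Bool) :
    ∃ l', l'.length = l.length ∧ treeAut A (u ++ l) = treeAut A u ++ l' := by
  induction l using List.reverseRecOn with
  | nil => exact ⟨[], rfl, by simp⟩
  | append_singleton l b ih =>
    obtain ⟨l', h1, h2⟩ := ih
    refine ⟨l' ++ [xor (memB A (u ++ l)) b], by simp [h1], ?_⟩
    rw [← List.append_assoc, treeAut_snoc', h2, List.append_assoc]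

/-- The image of an extension. -/
noncomputable def img (C : Set (List Bool)) (u l : List Bool) : List Bool :=
  (treeAut C (u ++ l)).drop u.length

theorem treeAut_append (C : Set (List Bool)) (u l : List Bool) :
    treeAut C (u ++ l) = treeAut C u ++ img C u l := by
  obtain ⟨l', h1, h2⟩ := treeAut_append_exists C u l
  unfold img
  rw [h2, List.drop_append_of_le_length (by simp), List.drop_of_length_le (by simp)]
  rfl

@[simp] theorem length_img (C : Set (List Bool)) (u l : List Bool) :
    (img C u l).length = l.length := by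
  unfold img
  simp

theorem img_injective (C : Set (List Bool)) (u : List Bool) : Function.Injective (img C u) := by
  intro l l' h
  have h1 := treeAut_append C u l
  have h2 := treeAut_append C u l'
  rw [h] at h1
  rw [← h2] at h1
  exact List.append_cancel_left (treeAut_injective C h1)

theorem img_append (C : Set (List Bool)) (u l l' : List Bool) :
    img C u (l ++ l') = img C u l ++ img C (u ++ l) l' := by
  have h1 := treeAut_append C u (l ++ l')
  rw [← List.append_assoc, treeAut_append C (u ++ l) l', treeAut_append C u l,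
    List.append_assoc] at h1
  exact (List.append_cancel_left h1).symm

/-! ### Good words -/

variable (κ : ℕ) (ε : ℕ → Bool)

open Classical in
/-- The good words of length `κ`. -/
noncomputable def goodWords : List (List Bool) :=
  ((List.range (2 ^ κ)).filter (fun v => decide (Good κ ε v))).map (bits κ)

theorem mem_goodWords (l : List Bool) :
    l ∈ goodWords κ ε ↔ ∃ v, Good κ ε v ∧ l = bits κ v := by
  classical
  unfold goodWords
  simp only [List.mem_map, List.mem_filter, List.mem_range, decide_eq_true_eq]
  constructor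
  · rintro ⟨v, ⟨_, h⟩, rfl⟩
    exact ⟨v, h, rfl⟩
  · rintro ⟨v, h, rfl⟩
    exact ⟨v, ⟨h.2.1, h⟩, rfl⟩

/-- The next unit. -/
noncomputable def pickW (C : Set (List Bool)) (u : List Bool) : List Bool :=
  (goodWords κ ε).foldr (fun g acc => bif decide (img C u g ∈ goodWords κ ε) then g else acc) []

theorem foldr_pick {γ β : Type} (L : List γ) (c : γ → Bool) (F : γ → β) (d : β)
    (h : ∃ g ∈ L, c g = true) :
    ∃ g ∈ L, c g = true ∧ L.foldr (fun g acc => bif c g then F g else acc) d = F g := by
  induction L with
  | nil => simp at h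
  | cons a L ih =>
    rcases ha : c a with _ | _
    · have h' : ∃ g ∈ L, c g = true := by
        obtain ⟨g, hg, hc⟩ := h
        rcases List.mem_cons.1 hg with rfl | hg
        · rw [ha] at hc; simp at hc
        · exact ⟨g, hg, hc⟩
      obtain ⟨g, hg, hc, he⟩ := ih h'
      refine ⟨g, by simp [hg], hc, ?_⟩
      rw [List.foldr_cons, ha]
      exact he
    · refine ⟨a, by simp, ha, ?_⟩
      rw [List.foldr_cons, ha]
      rfl

open Classical in
/-- The number of good values is more than half. -/
def Many (κ : ℕ) (ε : ℕ → Bool) : Prop :=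
  2 ^ κ < 2 * ((Finset.range (2 ^ κ)).filter (fun v => Good κ ε v)).card

theorem exists_pick (hmany : Many κ ε) (C : Set (List Bool)) (u : List Bool) :
    ∃ g ∈ goodWords κ ε, img C u g ∈ goodWords κ ε := by
  classical
  by_contra hcon
  push Not at hcon
  let S := (Finset.range (2 ^ κ)).filter (fun v => Good κ ε v)
  let T := (Finset.range (2 ^ κ)).filter (fun v => ¬ Good κ ε v)
  have hval : ∀ l : List Bool, l.length = κ → val l < 2 ^ κ ∧ bits κ (val l) = l := by
    intro l hl
    have h1 := bits_val l
    rw [hl] at h1
    refine ⟨?_, h1⟩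
    have h2 := val_bits κ (val l)
    rw [h1] at h2
    rw [h2]
    exact Nat.mod_lt _ (by positivity)
  have h1 : S.card ≤ T.card := by
    refine Finset.card_le_card_of_injOn (fun v => val (img C u (bits κ v))) ?_ ?_
    · intro v hv
      have hv' : Good κ ε v := by
        have := Finset.mem_coe.1 hv
        exact (Finset.mem_filter.1 this).2
      have h2 := hcon (bits κ v) ((mem_goodWords κ ε _).2 ⟨v, hv', rfl⟩)
      obtain ⟨h3, h4⟩ := hval (img C u (bits κ v)) (by simp)
      refine Finset.mem_coe.2 (Finset.mem_filter.2 ⟨Finset.mem_range.2 h3, ?_⟩)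
      intro hg
      exact h2 ((mem_goodWords κ ε _).2 ⟨_, hg, h4.symm⟩)
    · intro v hv v' hv' h
      have hlt : v < 2 ^ κ := by
        have := Finset.mem_coe.1 hv
        exact Finset.mem_range.1 (Finset.mem_filter.1 this).1
      have hlt' : v' < 2 ^ κ := by
        have := Finset.mem_coe.1 hv'
        exact Finset.mem_range.1 (Finset.mem_filter.1 this).1
      simp only at h
      have h2 : img C u (bits κ v) = img C u (bits κ v') := by
        rw [← (hval (img C u (bits κ v)) (by simp)).2, h, (hval (img C u (bits κ v')) (by simp)).2]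
      have h3 := congrArg val (img_injective C u h2)
      rw [val_bits_lt κ v hlt, val_bits_lt κ v' hlt'] at h3
      exact h3
  have h2 : S.card + T.card = 2 ^ κ := by
    have := Finset.card_filter_add_card_filter_not (s := Finset.range (2 ^ κ))
      (fun v => Good κ ε v)
    rw [Finset.card_range] at this
    exact this
  unfold Many at hmany
  have h3 : 2 ^ κ < 2 * S.card := hmany
  omega

theorem pickW_spec (hmany : Many κ ε) (C : Set (List Bool)) (u : List Bool) :
    pickW κ ε C u ∈ goodWords κ ε ∧ img C u (pickW κ ε C u) ∈ goodWords κ ε := by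
  obtain ⟨g, hg, hg'⟩ := exists_pick κ ε hmany C u
  obtain ⟨g', h1, h2, h3⟩ := foldr_pick (goodWords κ ε)
    (fun g => decide (img C u g ∈ goodWords κ ε)) (fun g => g) [] ⟨g, hg, by simpa using hg'⟩
  unfold pickW
  rw [h3]
  exact ⟨h1, by simpa using h2⟩

/-- The phases. -/
noncomputable def phase (C : Set (List Bool)) (i : ℕ) : List Bool :=
  (fun u => u ++ pickW κ ε C u)^[i] []

theorem phase_succ (C : Set (List Bool)) (i : ℕ) :
    phase κ ε C (i + 1) = phase κ ε C i ++ pickW κ ε C (phase κ ε C i) := by
  unfold phase
  rw [Function.iterate_succ_apply']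

theorem phase_spec (hmany : Many κ ε) (C : Set (List Bool)) (i : ℕ) :
    (∃ us : List ℕ, us.length = i ∧ (∀ v ∈ us, Good κ ε v) ∧ phase κ ε C i = flat κ us) ∧
    (∃ us : List ℕ, us.length = i ∧ (∀ v ∈ us, Good κ ε v) ∧
      treeAut C (phase κ ε C i) = flat κ us) := by
  induction i with
  | zero => exact ⟨⟨[], rfl, by simp, rfl⟩, ⟨[], rfl, by simp, by simp [phase, flat]⟩⟩
  | succ i ih =>
    obtain ⟨⟨us, h1, h2, h3⟩, ⟨vs, h4, h5, h6⟩⟩ := ih
    obtain ⟨h7, h8⟩ := pickW_spec κ ε hmany C (phase κ ε C i)
    obtain ⟨v, hv, hv'⟩ := (mem_goodWords κ ε _).1 h7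
    obtain ⟨w, hw, hw'⟩ := (mem_goodWords κ ε _).1 h8
    rw [phase_succ]
    refine ⟨⟨us ++ [v], by simp [h1], ?_, ?_⟩, ⟨vs ++ [w], by simp [h4], ?_, ?_⟩⟩
    · intro x hx
      rcases List.mem_append.1 hx with hx | hx
      · exact h2 x hx
      · rw [List.mem_singleton.1 hx]; exact hv
    · rw [flat_append, hv', ← h3]
      simp [flat]
    · intro x hx
      rcases List.mem_append.1 hx with hx | hx
      · exact h5 x hx
      · rw [List.mem_singleton.1 hx]; exact hw
    · rw [flat_append, treeAut_append, h6, hw']
      simp [flat]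

theorem length_phase (hmany : Many κ ε) (C : Set (List Bool)) (i : ℕ) :
    (phase κ ε C i).length = κ * i := by
  obtain ⟨⟨us, h1, h2, h3⟩, -⟩ := phase_spec κ ε hmany C i
  rw [h3, length_flat, h1]

/-! ### Polynomial time -/

section pt

variable {m : Bool} {α : Type} [Rep α]

theorem PT.memConst {β : Type} [Rep β] [DecidableEq β] (L : List β) {f : α → β} (hf : PT m f) :
    PT m (fun a => decide (f a ∈ L)) := by
  induction L with
  | nil =>
    have : PT m (fun _ : α => false) := by fun_prop
    exact this.of_eq (fun a => by simp)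
  | cons b L ih =>
    have h1 : PT m (fun a => decide (f a = b)) := PT.decideEq hf (by fun_prop)
    have := PT.or' h1 ih
    refine this.of_eq (fun a => ?_)
    simp [List.mem_cons]

theorem PT.foldrConst {γ β : Type} [Rep β] (L : List γ) {c : γ → α → Bool} {F : γ → α → β}
    {d : α → β} (hc : ∀ g, PT m (c g)) (hF : ∀ g, PT m (F g)) (hd : PT m d) :
    PT m (fun a => L.foldr (fun g acc => bif c g a then F g a else acc) (d a)) := by
  induction L with
  | nil => exact hd
  | cons g L ih =>
    have := PT.cond (hc g) (hF g) ih
    exact this.of_eq (fun a => rfl)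

theorem PT.img' {C : Set (List Bool)} (hC : PT m (fun w => memB C w)) {u l : α → List Bool}
    (hu : PT m u) (hl : PT m l) : PT m (fun a => img C (u a) (l a)) := by
  unfold img
  have h1 : PT m (fun a => treeAut C (u a ++ l a)) :=
    (PT.treeAut' hC).comp (f := fun a => u a ++ l a) (by fun_prop)
  fun_prop

theorem PT.pickW' {C : Set (List Bool)} (hC : PT m (fun w => memB C w)) :
    PT m (fun u => pickW κ ε C u) := by
  unfold pickW
  refine PT.foldrConst (goodWords κ ε) (c := fun g u => decide (img C u g ∈ goodWords κ ε))
    (F := fun g _ => g) (d := fun _ => []) (fun g => ?_) (fun g => by fun_prop) (by fun_prop)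
  have h1 : PT m (fun u : List Bool => img C u g) :=
    PT.img' hC (u := fun u : List Bool => u) (l := fun _ : List Bool => g) (by fun_prop)
      (by fun_prop)
  exact (PT.memConst (goodWords κ ε) h1).of_eq (fun u => by rw [decide_eq_decide])

theorem PT.phase' (hmany : Many κ ε) {C : Set (List Bool)} (hC : PT m (fun w => memB C w))
    {i : α → ℕ} (hi : PT m i) : PT m (fun a => phase κ ε C (i a)) := by
  obtain ⟨p, hp⟩ := hi.exists_size_le
  have h1 : PT m (fun z : α × List Bool => z.2 ++ pickW κ ε C z.2) := by
    have h2 : PT m (fun z : α × List Bool => pickW κ ε C z.2) :=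
      (PT.pickW' κ ε hC).comp (f := fun z : α × List Bool => z.2) (by fun_prop)
    fun_prop
  have := PT.iterate (m := m) (n := i) (ini := fun _ => ([] : List Bool))
    (s := fun z : α × List Bool => z.2 ++ pickW κ ε C z.2) hi (by fun_prop) h1
    (4 * Polynomial.C κ * p + 1) (by
      intro a k hk
      have h2 := (size_bits (phase κ ε C k)).2
      rw [length_phase κ ε hmany] at h2
      have h3 := hp a
      rw [size_nat] at h3
      simp only [Polynomial.eval_add, Polynomial.eval_mul, Polynomial.eval_ofNat,
        Polynomial.eval_C, Polynomial.eval_one]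
      have h4 : κ * k ≤ κ * p.eval (size a) := Nat.mul_le_mul_left _ (by omega)
      refine le_trans h2 ?_
      rw [Nat.mul_assoc 4 κ]
      omega)
  exact this

end pt

end Pool.Agent.H9
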