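import Pool.Agent.H9.TreeDef

/-! Level transitivity and the odometer. -/

namespace Pool.Agent.H9

/-- The automorphism with portrait `A` acts transitively on the words of each length. -/
def LevelTransitive (A : Set (List Bool)) : Prop :=
  ∀ v w : List Bool, v.length = w.length → ∃ m : ℕ, (treeAut A)^[m] v = w

/-- The portrait of the odometer (adding machine): the words `11...1`. -/
def odo : Set (List Bool) := {w | ∀ b ∈ w, b = true}

end Pool.Agent.H9
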