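import Pool.Agent.H9.Upper
import Pool.Agent.H9.TransDef
import Pool.Agent.PPS.Bits

/-! Powers of tree automorphisms, subtrees, the odometer. -/

namespace Pool.Agent.H9

open Pool.Agent.PPS

/-! ### Powers -/

/-- The portrait of a power. -/
def pw (A : Set (List Bool)) (k : ℕ) : Set (List Bool) :=
  {w | ∃ u, (treeAut A)^[k] (w ++ [false]) = u ++ [true]}

theorem memB_pw (A : Set (List Bool)) (k : ℕ) (w : List Bool) :
    memB (pw A k) w = orbSum A w k := by
  unfold memB
  have h := iterate_snoc A w false k
  rw [Bool.xor_false] at h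
  rcases ho : orbSum A w k with _ | _
  · have : w ∉ pw A k := by
      rintro ⟨u, hu⟩
      rw [h, ho] at hu
      have := List.append_inj_right' hu rfl
      simp at this
    simpa using this
  · have : w ∈ pw A k := by
      refine ⟨(treeAut A)^[k] w, ?_⟩
      rw [h, ho]
    simpa using this

theorem treeAut_pw (A : Set (List Bool)) (k : ℕ) (w : List Bool) :
    treeAut (pw A k) w = (treeAut A)^[k] w := by
  induction w using List.reverseRecOn with
  | nil =>
    have : ∀ k, (treeAut A)^[k] [] = [] := by
      intro k
      induction k with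
      | zero => rfl
      | succ k ihk => rw [Function.iterate_succ_apply', ihk]; simp
    rw [this]; simp
  | append_singleton w b ih => rw [treeAut_snoc', memB_pw, ih, iterate_snoc]

theorem treeAut_pw' (A : Set (List Bool)) (k : ℕ) : treeAut (pw A k) = (treeAut A)^[k] :=
  funext (treeAut_pw A k)

theorem pw_mem_P {A : Set (List Bool)} (hA : A ∈ Pool.Agent.PPS.P) (k : ℕ) :
    pw A k ∈ Pool.Agent.PPS.P := by
  rw [mem_P_iff_memB] at hA ⊢
  have h1 : PT true (fun w : List Bool => ((treeAut A)^[k] (w ++ [false])).reverse.headD false) := by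
    have h2 := (PT.iterate_treeAut hA k).comp (f := fun w : List Bool => w ++ [false])
      (by fun_prop)
    exact PT.headD' h2.reverse' (by fun_prop)
  refine h1.of_eq (fun w => ?_)
  rw [memB_pw, iterate_snoc]
  simp

/-- Odd roots are unique. -/
theorem eq_of_iterate_eq (e : ℕ) (he : Odd e) (A B : Set (List Bool))
    (h : (treeAut A)^[e] = (treeAut B)^[e]) : treeAut A = treeAut B := by
  funext w
  have h1 := iterate_congr_mod A w.length _ 1 w le_rfl (ex_spec e he w.length)
  have h2 := iterate_congr_mod B w.length _ 1 w le_rfl (ex_spec e he w.length)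
  rw [Function.iterate_mul] at h1 h2
  rw [h] at h1
  rw [Function.iterate_one] at h1 h2
  rw [← h1, h2]

/-! ### Subtrees -/

/-- The part of a portrait below a letter. -/
def sub (A : Set (List Bool)) (b : Bool) : Set (List Bool) := {w | b :: w ∈ A}

theorem treeAut_cons (A : Set (List Bool)) (b : Bool) (w : List Bool) :
    treeAut A (b :: w) = xor (memB A []) b :: treeAut (sub A b) w := by
  induction w using List.reverseRecOn with
  | nil =>
    have := treeAut_snoc' A [] b
    simpa using this
  | append_singleton w c ih =>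
    have h1 := treeAut_snoc' A (b :: w) c
    rw [List.cons_append] at h1
    rw [h1, ih, treeAut_snoc', List.cons_append]
    rfl

theorem iterate_treeAut_cons (A : Set (List Bool)) (h : memB A [] = false) (b : Bool)
    (w : List Bool) (m : ℕ) :
    (treeAut A)^[m] (b :: w) = b :: (treeAut (sub A b))^[m] w := by
  induction m with
  | zero => rfl
  | succ m ih =>
    rw [Function.iterate_succ_apply', ih, treeAut_cons, h, Bool.false_xor,
      Function.iterate_succ_apply']

theorem sub_mem_P {A : Set (List Bool)} (hA : A ∈ Pool.Agent.PPS.P) (b : Bool) :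
    sub A b ∈ Pool.Agent.PPS.P := by
  rw [mem_P_iff_memB] at hA ⊢
  exact hA.comp (f := fun w : List Bool => b :: w) (by fun_prop)

/-! ### The odometer -/

theorem sub_odo_true : sub odo true = odo := by
  ext w
  simp [sub, odo]

theorem treeAut_empty (w : List Bool) : treeAut ∅ w = w := by
  apply List.ext_getElem
  · simp
  · intro i h1 h2
    simp [treeAut]

theorem sub_odo_false : sub odo false = ∅ := by
  ext w
  simp [sub, odo]

theorem treeAut_odo (w : List Bool) : treeAut odo w = inc w := by
  induction w with
  | nil => simp [inc]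
  | cons b w ih =>
    have h0 : memB odo [] = true := by simp [memB, odo]
    rw [treeAut_cons, h0]
    cases b
    · rw [sub_odo_false, treeAut_empty]; rfl
    · rw [sub_odo_true, ih]; rfl

theorem iterate_odo (n t m : ℕ) : (treeAut odo)^[m] (bits n t) = bits n (t + m) := by
  induction m with
  | zero => rfl
  | succ m ih => rw [Function.iterate_succ_apply', ih, treeAut_odo, inc_bits, Nat.add_assoc]

theorem dvd_of_iterate_odo (w : List Bool) (m : ℕ) (h : (treeAut odo)^[m] w = w) :
    2 ^ w.length ∣ m := by
  have h1 := iterate_odo w.length (val w) m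
  rw [bits_val, h] at h1
  have h2 := congrArg val h1
  rw [val_bits] at h2
  have h3 : val w < 2 ^ w.length := by
    have := val_bits w.length (val w)
    rw [bits_val] at this
    rw [this]
    exact Nat.mod_lt _ (by positivity)
  have h4 : val w ≡ val w + m [MOD 2 ^ w.length] := by
    unfold Nat.ModEq
    rw [← h2, Nat.mod_eq_of_lt h3]
  have h5 : val w + 0 ≡ val w + m [MOD 2 ^ w.length] := by simpa using h4
  have := Nat.ModEq.add_left_cancel' _ h5
  exact (Nat.modEq_zero_iff_dvd).1 this.symm

/-! ### The odometer beside another language -/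

/-- The odometer below `0` and `U` below `1`. -/
def joinOdo (U : Set (List Bool)) : Set (List Bool) :=
  {w | ∃ v, (w = false :: v ∧ v ∈ odo) ∨ (w = true :: v ∧ v ∈ U)}

theorem sub_joinOdo_false (U : Set (List Bool)) : sub (joinOdo U) false = odo := by
  ext w
  simp [sub, joinOdo]

theorem sub_joinOdo_true (U : Set (List Bool)) : sub (joinOdo U) true = U := by
  ext w
  simp [sub, joinOdo]

theorem memB_joinOdo_nil (U : Set (List Bool)) : memB (joinOdo U) [] = false := by
  simp [memB, joinOdo]

/-- States of the automaton for `joinOdo`. -/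
theorem joinOdo_isRegular {U : Language Bool} (hU : U.IsRegular) :
    Language.IsRegular (joinOdo U : Language Bool) := by
  classical
  obtain ⟨σ, _, M, rfl⟩ := hU
  let N : DFA Bool (Unit ⊕ (Bool ⊕ σ)) :=
    { step := fun s b => match s with
        | .inl _ => if b then .inr (.inr M.start) else .inr (.inl true)
        | .inr (.inl c) => .inr (.inl (c && b))
        | .inr (.inr s) => .inr (.inr (M.step s b))
      start := .inl ()
      accept := {s | match s with
        | .inl _ => False
        | .inr (.inl c) => c = true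
        | .inr (.inr s) => s ∈ M.accept} }
  refine ⟨Unit ⊕ (Bool ⊕ σ), inferInstance, N, ?_⟩
  have h1 : ∀ (w : List Bool) (c : Bool),
      w.foldl N.step (.inr (.inl c)) = .inr (.inl (c && w.all (fun b => b))) := by
    intro w
    induction w with
    | nil => intro c; simp
    | cons b w ih =>
      intro c
      rw [List.foldl_cons]
      show w.foldl N.step (.inr (.inl (c && b))) = _
      rw [ih, List.all_cons, Bool.and_assoc]
  have h2 : ∀ (w : List Bool) (s : σ),
      w.foldl N.step (.inr (.inr s)) = .inr (.inr (w.foldl M.step s)) := by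
    intro w
    induction w with
    | nil => intro s; rfl
    | cons b w ih =>
      intro s
      rw [List.foldl_cons, List.foldl_cons]
      exact ih _
  ext w
  show w.foldl N.step N.start ∈ N.accept ↔ w ∈ joinOdo M.accepts
  cases w with
  | nil =>
    show False ↔ _
    simp [joinOdo]
  | cons b w =>
    rw [List.foldl_cons]
    cases b
    · show w.foldl N.step (.inr (.inl true)) ∈ N.accept ↔ _
      rw [h1]
      show (true && w.all fun b => b) = true ↔ _
      simp [joinOdo, odo]
    · show w.foldl N.step (.inr (.inr M.start)) ∈ N.accept ↔ _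
      rw [h2]
      show w.foldl M.step M.start ∈ M.accept ↔ _
      have : (true :: w) ∈ joinOdo M.accepts ↔ w ∈ M.accepts := by
        constructor
        · rintro ⟨v, ⟨h, _⟩ | ⟨h, hv⟩⟩
          · simp at h
          · rw [(List.cons.inj h).2]
            exact hv
        · intro hw
          exact ⟨w, Or.inr ⟨rfl, hw⟩⟩
      rw [this]
      rfl

/-- A solution of `y^q = x^a`, `a > 0`, for `x = joinOdo U` does not move the first letter, if `U`
fixes `1^n` for all `n`. -/
theorem solution_nil (U B : Set (List Bool)) (q a : ℕ) (ha : 0 < a)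
    (hU : ∀ n, treeAut U (List.replicate n true) = List.replicate n true)
    (h : (treeAut B)^[q] = (treeAut (joinOdo U))^[a]) : memB B [] = false := by
  by_contra hne
  have hB : memB B [] = true := by simpa using hne
  have hit : ∀ m n, (treeAut U)^[m] (List.replicate n true) = List.replicate n true := by
    intro m n
    induction m with
    | zero => rfl
    | succ m ih => rw [Function.iterate_succ_apply', ih, hU]
  -- the commuting powers
  have hcomm : ∀ w, (treeAut (joinOdo U))^[a] (treeAut B w) =
      treeAut B ((treeAut (joinOdo U))^[a] w) := by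
    intro w
    rw [← h, ← Function.iterate_succ_apply, Function.iterate_succ_apply']
  have h1 := hcomm (true :: List.replicate a true)
  rw [iterate_treeAut_cons _ (memB_joinOdo_nil U), sub_joinOdo_true, hit] at h1
  rw [treeAut_cons, hB] at h1
  simp only [Bool.xor_true, Bool.not_true] at h1
  rw [iterate_treeAut_cons _ (memB_joinOdo_nil U), sub_joinOdo_false] at h1
  have h2 := dvd_of_iterate_odo _ _ (List.cons.inj h1).2
  rw [length_treeAut, List.length_replicate] at h2
  have h3 := Nat.le_of_dvd ha h2
  have h4 : a < 2 ^ a := Nat.lt_two_pow_self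
  omega

/-- Restriction of a solution to a subtree. -/
theorem solution_sub (A B : Set (List Bool)) (q a : ℕ) (hA : memB A [] = false)
    (hB : memB B [] = false) (h : (treeAut B)^[q] = (treeAut A)^[a]) (b : Bool) :
    (treeAut (sub B b))^[q] = (treeAut (sub A b))^[a] := by
  funext w
  have h1 := congrFun h (b :: w)
  rw [iterate_treeAut_cons _ hB, iterate_treeAut_cons _ hA] at h1
  exact (List.cons.inj h1).2

/-- The odometer has no roots of even order. -/
theorem odo_no_root (B : Set (List Bool)) (q a : ℕ) (ha : 0 < a) (hq : 0 < q)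
    (h : (treeAut B)^[q] = (treeAut odo)^[a]) : Odd (q / Nat.gcd q a) := by
  by_contra hcon
  rw [Nat.not_odd_iff_even] at hcon
  obtain ⟨g, hg⟩ := hcon
  have hd : 0 < Nat.gcd q a := Nat.gcd_pos_of_pos_left _ hq
  have hcop : Nat.Coprime (q / Nat.gcd q a) (a / Nat.gcd q a) := Nat.coprime_div_gcd_div_gcd hd
  have haodd : Odd (a / Nat.gcd q a) := by
    rw [← Nat.not_even_iff_odd]
    intro he
    have h2 : 2 ∣ Nat.gcd (q / Nat.gcd q a) (a / Nat.gcd q a) :=
      Nat.dvd_gcd ⟨g, by omega⟩ he.two_dvd
    rw [hcop] at h2
    omega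
  -- the power of two in `a`
  obtain ⟨s, e, he, hae⟩ := Nat.exists_eq_two_pow_mul_odd ha.ne'
  have hsq : 2 ^ (s + 1) ∣ q := by
    obtain ⟨s', e', he', hde⟩ := Nat.exists_eq_two_pow_mul_odd hd.ne'
    have hq' : q = Nat.gcd q a * (q / Nat.gcd q a) := (Nat.mul_div_cancel' (Nat.gcd_dvd_left _ _)).symm
    have ha' : a = Nat.gcd q a * (a / Nat.gcd q a) := (Nat.mul_div_cancel' (Nat.gcd_dvd_right _ _)).symm
    have hss : s ≤ s' := by
      have h3 : 2 ^ s ∣ 2 ^ s' * (e' * (a / Nat.gcd q a)) := by
        rw [← Nat.mul_assoc, ← hde, ← ha', hae]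
        exact Dvd.intro _ rfl
      have hodd : Odd (e' * (a / Nat.gcd q a)) := he'.mul haodd
      have h4 : Nat.Coprime (2 ^ s) (e' * (a / Nat.gcd q a)) :=
        Nat.Coprime.pow_left _ (Nat.coprime_two_left.2 hodd)
      have h5 := h4.dvd_of_dvd_mul_right h3
      exact (Nat.pow_dvd_pow_iff_le_right (by norm_num)).1 h5
    rw [hq', hg, hde]
    have : 2 ^ (s' + 1) ∣ 2 ^ s' * e' * (g + g) := ⟨e' * g, by ring⟩
    exact dvd_trans (pow_dvd_pow 2 (by omega)) this
  obtain ⟨c, hc⟩ := hsq
  have h1 := congrFun h (List.replicate (s + 1) false)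
  rw [hc, iterate_mul_two_pow B (s + 1) c _ (by simp)] at h1
  have h2 := dvd_of_iterate_odo _ _ h1.symm
  rw [List.length_replicate] at h2
  rw [hae] at h2
  have h4 : Nat.Coprime (2 ^ (s + 1)) e := Nat.Coprime.pow_left _ (Nat.coprime_two_left.2 he)
  have h5 := h4.dvd_of_dvd_mul_right h2
  have h6 := (Nat.pow_dvd_pow_iff_le_right (by norm_num)).1 h5
  omega

end Pool.Agent.H9
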