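import Pool.Agent.H9.Bits
import Pool.Agent.H9.FlowRow

/-! The query words can be computed in polynomial time. -/

namespace Pool.Agent.H9

open Pool.Agent.PPS

variable {g : ℕ}

/-! ### Zero counters -/

/-- Cells with the bit `false`. -/
def zc (ts : List (Tag g)) : List (Cell g) := ts.map fun t => (t, false)

theorem bodd_of_dvd {τ n : ℕ} (h : 2 ^ (n + 1) ∣ τ) : τ.bodd = false := by
  have h2 : 2 ∣ τ := dvd_trans (dvd_pow_self 2 (by omega)) h
  have := Nat.mod_two_of_bodd τ
  rw [Nat.mod_eq_zero_of_dvd h2] at this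
  cases hb : τ.bodd
  · rfl
  · rw [hb] at this; simp at this

theorem dvd_div_two {τ n : ℕ} (h : 2 ^ (n + 1) ∣ τ) : 2 ^ n ∣ τ / 2 := by
  obtain ⟨d, rfl⟩ := h
  rw [pow_succ, Nat.mul_assoc, Nat.mul_comm 2 d, ← Nat.mul_assoc, Nat.mul_div_cancel _ (by norm_num)]
  exact Dvd.intro _ rfl

theorem dvd_div_pow {τ a b : ℕ} (h : 2 ^ (a + b) ∣ τ) : 2 ^ b ∣ τ / 2 ^ a := by
  obtain ⟨d, rfl⟩ := h
  rw [pow_add, Nat.mul_assoc, Nat.mul_div_cancel_left _ (by positivity)]
  exact Dvd.intro _ rfl

theorem cc_zero (ts : List (Tag g)) (τ : ℕ) (h : 2 ^ ts.length ∣ τ) : cc ts τ = zc ts := by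
  induction ts generalizing τ with
  | nil => rfl
  | cons t ts ih =>
    rw [List.length_cons] at h
    simp only [cc, zc, List.map_cons]
    rw [bodd_of_dvd h, ih _ (dvd_div_two h)]
    rfl

/-- Repetition of a word. -/
def rep {α : Type} (n : ℕ) (w : List α) : List α := (List.replicate n w).flatten

/-- Zero column. -/
def colM0 (g : ℕ) : List (Cell g) :=
  (.ptr, false) :: (.lcl, false) :: (zc ((List.finRange g).map .mb) ++ [(.col, false)])

/-- Constant column, zero local counter. -/
def colK0 (c : Col g) : List (Cell g) :=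
  (.ptr, false) :: (.lcl, false) :: (kc c (List.finRange g) ++ [(.col, false)])

theorem colM_zero (τ l : ℕ) (hτ : 2 ^ g ∣ τ) (hl : 2 ^ 2 ∣ l) : (colM τ l : List (Cell g)) = colM0 g := by
  unfold colM colM0
  rw [bodd_of_dvd hl, bodd_of_dvd (dvd_div_two hl), cc_zero _ _ (by simpa using hτ)]

theorem colK_zero (c : Col g) (l : ℕ) (hl : 2 ^ 2 ∣ l) : colK c l = colK0 c := by
  unfold colK colK0
  rw [bodd_of_dvd hl, bodd_of_dvd (dvd_div_two hl)]

theorem colsM_zero (n τ l : ℕ) (hτ : 2 ^ (g * n) ∣ τ) (hl : 2 ^ (2 * n) ∣ l) :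
    colsM g n τ l = rep n (colM0 g) := by
  induction n generalizing τ l with
  | zero => rfl
  | succ n ih =>
    have h1 : 2 ^ (g + g * n) ∣ τ := by rwa [show g + g * n = g * (n + 1) by ring]
    have h2 : 2 ^ (2 + 2 * n) ∣ l := by rwa [show 2 + 2 * n = 2 * (n + 1) by ring]
    simp only [colsM]
    rw [ih _ _ (dvd_div_pow h1) (by
      have := dvd_div_pow h2
      norm_num at this ⊢
      exact this)]
    rw [colM_zero _ _ (dvd_trans (pow_dvd_pow 2 (by omega)) h1)
      (dvd_trans (pow_dvd_pow 2 (by omega)) h2)]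
    simp [rep, List.replicate_succ]

theorem colsK_zero (cs : List (Col g)) (l : ℕ) (hl : 2 ^ (2 * cs.length) ∣ l) :
    colsK cs l = cs.flatMap colK0 := by
  induction cs generalizing l with
  | nil => rfl
  | cons c cs ih =>
    have h2 : 2 ^ (2 + 2 * cs.length) ∣ l := by
      rw [List.length_cons] at hl
      rwa [show 2 + 2 * cs.length = 2 * (cs.length + 1) by ring]
    simp only [colsK, List.flatMap_cons]
    rw [ih _ (by
      have := dvd_div_pow h2
      norm_num at this ⊢
      exact this), colK_zero _ _ (dvd_trans (pow_dvd_pow 2 (by omega)) h2)]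

/-- Zero block. -/
def blockM0 (g n : ℕ) : List (Cell g) :=
  (.blk, false) :: (.cnt, false) :: (rep n (colM0 g) ++ [(.fin, false)])

theorem blocksM_zero (n t k τ : ℕ) (ht : 2 ^ (2 * n) ∣ t) (hτ : 2 ^ ((g * n + 2) * k) ∣ τ) :
    blocksM g n t k τ = rep k (blockM0 g n) := by
  induction k generalizing τ with
  | zero => rfl
  | succ k ih =>
    have h1 : 2 ^ ((g * n + 2) + (g * n + 2) * k) ∣ τ := by
      rwa [show (g * n + 2) + (g * n + 2) * k = (g * n + 2) * (k + 1) by ring]
    have h3 : 2 ^ (g * n + 2) ∣ τ := dvd_trans (pow_dvd_pow 2 (by omega)) h1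
    have h4 : 2 ^ (2 + g * n) ∣ τ := by rwa [Nat.add_comm] at h3
    simp only [blocksM]
    rw [ih _ (dvd_div_pow h1)]
    have : blockM g n t τ = blockM0 g n := by
      unfold blockM blockM0
      rw [bodd_of_dvd (n := g * n + 1) h3, bodd_of_dvd (n := g * n) (dvd_div_two h3),
        colsM_zero _ _ _ (by have := dvd_div_pow h4; norm_num at this ⊢; exact this) ht]
    rw [this]
    simp [rep, List.replicate_succ]

/-- Zero level. -/
def level0 (g μ : ℕ) : List (Cell g) :=
  (.dig, false) :: (.yy, false) :: zc (List.replicate (μ + 1) .oth)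

theorem levelsI_zero (μs : List ℕ) (τ : ℕ) (hτ : 2 ^ tot μs ∣ τ) (Y : List Bool)
    (hY : Y = List.replicate μs.length false) : levelsI g μs τ Y = μs.flatMap (level0 g) := by
  subst hY
  induction μs generalizing τ with
  | nil => rfl
  | cons μ μs ih =>
    simp only [tot] at hτ
    simp only [List.length_cons, List.replicate_succ, levelsI, List.flatMap_cons]
    have h1 : 2 ^ ((μ + 1) + 1) ∣ τ := dvd_trans (pow_dvd_pow 2 (by omega)) hτ
    rw [ih _ (dvd_div_pow hτ), bodd_of_dvd h1, ← List.replicate_succ,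
      cc_zero _ _ (by simpa using dvd_div_two h1)]
    simp [level0]

theorem tot_lev (n k g : ℕ) : tot (lev n k g) = 2 * n + (g * n + 2) * k := by
  unfold lev
  have : ∀ μs νs : List ℕ, tot (μs ++ νs) = tot μs + tot νs := by
    intro μs νs
    induction μs with
    | nil => simp [tot]
    | cons μ μs ih => simp [tot, ih]; ring
  rw [this, tot_replicate, tot_replicate]
  ring

/-- Closed form of the cells of the query words. -/
def queryCells (n k ω c : ℕ) (ini : List (Col g)) : List (Cell g) :=
  zc (List.replicate (2 * n) .cnt) ++ (rep k (blockM0 g n) ++ ((.ini, false) ::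
    (ini.flatMap colK0 ++ ((.fin, false) :: (cc (List.replicate ω .win) c ++
      ((.sec, false) :: (rep n (level0 g 0) ++ rep k (level0 g (g * n)))))))))

theorem query_eq (n k ω c : ℕ) (ini : List (Col g)) (hini : ini.length = n) :
    query n k ω ini (c * 2 ^ tot (lev n k g)) (List.replicate (n + k) false) =
      encW (queryCells n k ω c ini) ++ (List.replicate 12 true ++ [false]) := by
  have htot := tot_lev n k g
  have hd : 2 ^ (2 * n + (g * n + 2) * k) ∣ c * 2 ^ tot (lev n k g) := by
    rw [htot]; exact Dvd.intro_left _ rfl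
  have h4 : (4 : ℕ) ^ n = 2 ^ (2 * n) := by rw [pow_mul]; norm_num
  have hq : c * 2 ^ tot (lev n k g) / 4 ^ n = c * 2 ^ ((g * n + 2) * k) := by
    rw [htot, h4, pow_add, show c * (2 ^ (2 * n) * 2 ^ ((g * n + 2) * k)) =
      2 ^ (2 * n) * (c * 2 ^ ((g * n + 2) * k)) by ring, Nat.mul_div_cancel_left _ (by positivity)]
  have hq2 : c * 2 ^ tot (lev n k g) / 4 ^ n / 2 ^ ((g * n + 2) * k) = c := by
    rw [hq, Nat.mul_div_cancel _ (by positivity)]
  unfold query copy1 queryCells
  rw [hq2, hq]
  rw [cc_zero _ _ (by simpa using dvd_trans (pow_dvd_pow 2 (by omega)) hd)]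
  rw [blocksM_zero _ _ _ _ (dvd_trans (pow_dvd_pow 2 (by omega)) hd) (Dvd.intro_left _ rfl)]
  rw [levelsI_zero _ _ (Dvd.intro_left _ rfl) _ (by rw [length_lev])]
  unfold blockK
  rw [colsK_zero _ _ (by rw [hini]; exact dvd_trans (pow_dvd_pow 2 (by omega)) hd)]
  have hlev : (lev n k g).flatMap (level0 g) = rep n (level0 g 0) ++ rep k (level0 g (g * n)) := by
    unfold lev rep
    rw [List.flatMap_append]
    simp [List.flatMap_def, List.map_replicate]
  rw [hlev]
  simp [Tag.toNat]

theorem encW_append (u v : List (Cell g)) : encW (u ++ v) = encW u ++ encW v := by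
  simp [encW]

theorem encW_cons (x : Cell g) (v : List (Cell g)) : encW (x :: v) = encCell x ++ encW v := by
  simp [encW]

theorem encW_rep (n : ℕ) (w : List (Cell g)) : encW (rep n w) = rep n (encW w) := by
  unfold encW rep
  induction n with
  | zero => rfl
  | succ n ih => simp [List.replicate_succ, ih]

theorem encW_zc_replicate (n : ℕ) (t : Tag g) :
    encW (zc (List.replicate n t)) = rep n (encCell (t, false)) := by
  unfold encW rep zc
  induction n with
  | zero => rfl
  | succ n ih => simp [List.replicate_succ] at ih ⊢; rw [ih]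

/-! ### Polynomial time -/

section pt

variable {m : Bool} {α β : Type} [Rep α] [Rep β]

theorem size_flatten_le (l : List (List β)) : size l.flatten ≤ size l := by
  induction l with
  | nil => exact le_rfl
  | cons a l ih =>
    have h := size_append a l.flatten
    rw [List.flatten_cons, size_cons]
    omega

theorem flatten_foldr (l : List (List β)) : l.foldr (fun a y => a ++ y) [] = l.flatten := by
  induction l with
  | nil => rfl
  | cons a l ih => rw [List.foldr_cons, ih, List.flatten_cons]

theorem PT.flatten' {f : α → List (List β)} (hf : PT m f) : PT m (fun a => (f a).flatten) := by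
  obtain ⟨p, hp⟩ := hf.exists_size_le
  have := PT.foldr (m := m) (l := f) (ini := fun _ => ([] : List β))
    (s := fun z : α × (List β × List β) => z.2.1 ++ z.2.2) hf (by fun_prop) (by fun_prop) p (by
      intro a k
      simp only
      rw [flatten_foldr]
      exact (size_flatten_le _).trans ((size_drop_le _ _).trans (hp a)))
  refine this.of_eq (fun a => ?_)
  exact (flatten_foldr _).symm

theorem PT.rep' {n : α → ℕ} {w : α → List β} (hn : PT m n) (hw : PT m w) :
    PT m (fun a => rep (n a) (w a)) :=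
  PT.flatten' (hn.replicate' hw)

attribute [fun_prop] PT.rep' PT.flatten'

theorem PT.memB' {B : Set (List Bool)} (hB : B ∈ Pool.Agent.PPS.P) {f : α → List Bool}
    (hf : PT true f) : PT true (fun a => memB B (f a)) := by
  have h1 := mem_P_iff.1 hB
  have h2 : PT true (fun x => memB B x) := by
    refine h1.of_eq (fun x => ?_)
    unfold memB
    congr 1
  exact h2.comp hf

end pt

end Pool.Agent.H9
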