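import Pool.Agent.H9.Eval

/-! Row systems and the evaluation of their iterates by a quantified formula. -/

namespace Pool.Agent.H9

/-- A column: `g` bits. -/
abbrev Col (g : ℕ) := Fin g → Bool

/-- A row system: the new value of a column is a function of the first column, the previous column,
the column itself and the next column. -/
structure RowSys (g : ℕ) where
  F : Col g → Option (Col g) → Col g → Option (Col g) → Col g
  acc : Col g → Bool

variable {g : ℕ}

namespace RowSys

/-- The new values of the columns from some place on, where `f` is the first column and `p` the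
previous column. -/
def stepFrom (R : RowSys g) (f : Col g) : Option (Col g) → List (Col g) → List (Col g)
  | _, [] => []
  | p, c :: cs => R.F f p c cs.head? :: stepFrom R f (some c) cs

/-- One step of a row system. -/
def step (R : RowSys g) (cs : List (Col g)) : List (Col g) :=
  match cs with
  | [] => []
  | c :: cs => R.stepFrom c none (c :: cs)

theorem length_stepFrom (R : RowSys g) (f : Col g) (p : Option (Col g)) (cs : List (Col g)) :
    (R.stepFrom f p cs).length = cs.length := by
  induction cs generalizing p with
  | nil => rfl
  | cons c cs ih => simp [stepFrom, ih]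

@[simp] theorem length_step (R : RowSys g) (cs : List (Col g)) : (R.step cs).length = cs.length := by
  cases cs with
  | nil => rfl
  | cons c cs => exact R.length_stepFrom _ _ _

@[simp] theorem length_iterate_step (R : RowSys g) (cs : List (Col g)) (n : ℕ) :
    (R.step^[n] cs).length = cs.length := by
  induction n with
  | zero => rfl
  | succ n ih => rw [Function.iterate_succ_apply', length_step, ih]

end RowSys

/-- The information captured at the pointer position: first, previous, current and next column. -/
abbrev Info (g : ℕ) := Col g × Option (Col g) × Col g × Option (Col g)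

/-- Capture the information at the first position `p` with `bs[p] = false`. -/
def capFrom (f : Option (Col g)) (p : Option (Col g)) : List Bool → List (Col g) → Option (Info g)
  | b :: bs, c :: cs =>
    if b then capFrom (some (f.getD c)) (some c) bs cs else some (f.getD c, p, c, cs.head?)
  | _, _ => none

/-- Captured information of a block. -/
def cap (bs : List Bool) (cs : List (Col g)) : Option (Info g) := capFrom none none bs cs

/-- The verdict. -/
def verdict (R : RowSys g) (l : Option (Info g)) (r : Option (Col g)) : Bool :=
  match l with
  | none => true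
  | some (f, p, c, n) =>
    match r with
    | none => R.acc f
    | some c' => c' == R.F f p c n

/-- The current column of an information. -/
def Info.cur (i : Info g) : Col g := i.2.2.1

theorem verdict_acc_from (R : RowSys g) (f p : Option (Col g)) (cs : List (Col g)) :
    (∀ bs : List Bool, bs.length = cs.length → verdict R (capFrom f p bs cs) none = true) ↔
      ∀ c, cs.head? = some c → R.acc (f.getD c) = true := by
  induction cs generalizing f p with
  | nil =>
    simp only [List.length_nil, List.head?_nil, reduceCtorEq, false_implies, implies_true, iff_true]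
    intro bs hbs
    cases bs with
    | nil => rfl
    | cons b bs => simp at hbs
  | cons c cs ih =>
    simp only [List.head?_cons, Option.some.injEq, forall_eq']
    constructor
    · intro h
      have h1 := h (false :: List.replicate cs.length false) (by simp)
      simpa only [capFrom, Bool.false_eq_true, if_false, verdict] using h1
    · intro h bs hbs
      cases bs with
      | nil => simp at hbs
      | cons b bs =>
        cases b with
        | false =>
          simpa only [capFrom, Bool.false_eq_true, if_false, verdict] using h
        | true =>
          simp only [capFrom, if_true]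
          refine (ih _ _).2 ?_ bs (by simpa using hbs)
          intro c' _
          simpa using h

theorem verdict_step_from (R : RowSys g) (f : Col g) (fo p f' p' : Option (Col g))
    (cs cs' : List (Col g)) (hf : fo = some f ∨ (fo = none ∧ cs.head? = some f) ∨ cs = [])
    (hl : cs'.length = cs.length) :
    (∀ bs : List Bool, bs.length = cs.length →
      verdict R (capFrom fo p bs cs) ((capFrom f' p' bs cs').map Info.cur) = true) ↔
      cs' = R.stepFrom f p cs := by
  induction cs generalizing fo p f' p' cs' with
  | nil =>
    cases cs' with
    | nil =>
      simp only [RowSys.stepFrom, iff_true]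
      intro bs hbs
      cases bs with
      | nil => rfl
      | cons b bs => simp at hbs
    | cons c' cs' => simp at hl
  | cons c cs ih =>
    cases cs' with
    | nil => simp at hl
    | cons c' cs' =>
      have hfc : fo.getD c = f := by
        rcases hf with h | ⟨h, h'⟩ | h
        · simp [h]
        · simp only [List.head?_cons, Option.some.injEq] at h'
          simp [h, h']
        · simp at h
      simp only [RowSys.stepFrom, List.cons.injEq]
      rw [← ih (some f) (some c) (some (f'.getD c')) (some c') cs' (Or.inl rfl) (by simpa using hl)]
      constructor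
      · intro h
        refine ⟨?_, ?_⟩
        · have h1 := h (false :: List.replicate cs.length false) (by simp)
          simp only [capFrom, Bool.false_eq_true, if_false, verdict, Option.map_some, Info.cur,
            hfc, beq_iff_eq] at h1
          exact h1
        · intro bs hbs
          have := h (true :: bs) (by simp [hbs])
          simpa [capFrom, hfc] using this
      · rintro ⟨h1, h2⟩ bs hbs
        cases bs with
        | nil => simp at hbs
        | cons b bs =>
          cases b with
          | false =>
            simp only [capFrom, Bool.false_eq_true, if_false, verdict, Option.map_some, Info.cur,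
              hfc, beq_iff_eq]
            exact h1
          | true =>
            simp only [capFrom, if_true, hfc]
            exact h2 bs (by simpa using hbs)

/-- A row is accepting if its first column is. -/
def RowSys.Acc (R : RowSys g) (cs : List (Col g)) : Prop :=
  ∀ c, cs.head? = some c → R.acc c = true

theorem verdict_acc (R : RowSys g) (cs : List (Col g)) :
    (∀ bs : List Bool, bs.length = cs.length → verdict R (cap bs cs) none = true) ↔
      R.Acc cs := verdict_acc_from R none none cs

theorem verdict_step (R : RowSys g) (cs cs' : List (Col g)) (hl : cs'.length = cs.length) :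
    (∀ bs : List Bool, bs.length = cs.length →
      verdict R (cap bs cs) ((cap bs cs').map Info.cur) = true) ↔ cs' = R.step cs := by
  cases cs with
  | nil =>
    cases cs' with
    | nil =>
      simp only [RowSys.step, iff_true]
      intro bs hbs
      cases bs with
      | nil => rfl
      | cons b bs => simp at hbs
    | cons c' cs' => simp at hl
  | cons c cs =>
    exact verdict_step_from R c none none none none (c :: cs) cs' (Or.inr (Or.inl ⟨rfl, rfl⟩)) hl

/-! ### Columns as numbers -/

/-- The `n` columns coded by the number `x`. -/
def cols (g : ℕ) : ℕ → ℕ → List (Col g)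
  | 0, _ => []
  | n + 1, x => (fun i : Fin g => x.testBit i) :: cols g n (x / 2 ^ g)

@[simp] theorem length_cols (g n x : ℕ) : (cols g n x).length = n := by
  induction n generalizing x with
  | zero => rfl
  | succ n ih => simp [cols, ih]

theorem cols_injOn (g n : ℕ) (x y : ℕ) (hx : x < 2 ^ (g * n)) (hy : y < 2 ^ (g * n))
    (h : cols g n x = cols g n y) : x = y := by
  induction n generalizing x y with
  | zero => simp at hx hy; omega
  | succ n ih =>
    simp only [cols, List.cons.injEq] at h
    have hx' : x / 2 ^ g < 2 ^ (g * n) := by
      rw [Nat.div_lt_iff_lt_mul (by positivity), ← pow_add]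
      rwa [show g * n + g = g * (n + 1) by ring]
    have hy' : y / 2 ^ g < 2 ^ (g * n) := by
      rw [Nat.div_lt_iff_lt_mul (by positivity), ← pow_add]
      rwa [show g * n + g = g * (n + 1) by ring]
    have h2 := ih _ _ hx' hy' h.2
    have h1 : x % 2 ^ g = y % 2 ^ g := by
      apply Nat.eq_of_testBit_eq
      intro i
      rw [Nat.testBit_mod_two_pow, Nat.testBit_mod_two_pow]
      by_cases hi : i < g
      · have := congrFun h.1 ⟨i, hi⟩
        simp only at this
        rw [this]
      · simp [hi]
    rw [← Nat.mod_add_div x (2 ^ g), ← Nat.mod_add_div y (2 ^ g), h1, h2]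

/-- The number coding a list of columns. -/
def uncols (g : ℕ) : List (Col g) → ℕ
  | [] => 0
  | c :: cs => Nat.ofBits c + 2 ^ g * uncols g cs

theorem uncols_lt (cs : List (Col g)) : uncols g cs < 2 ^ (g * cs.length) := by
  induction cs with
  | nil => simp [uncols]
  | cons c cs ih =>
    simp only [uncols, List.length_cons]
    have h1 : Nat.ofBits c < 2 ^ g := Nat.ofBits_lt_two_pow c
    have h2 : uncols g cs + 1 ≤ 2 ^ (g * cs.length) := ih
    calc Nat.ofBits c + 2 ^ g * uncols g cs < 2 ^ g + 2 ^ g * uncols g cs := by omega
      _ = 2 ^ g * (uncols g cs + 1) := by ring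
      _ ≤ 2 ^ g * 2 ^ (g * cs.length) := Nat.mul_le_mul_left _ h2
      _ = 2 ^ (g * (cs.length + 1)) := by rw [← pow_add]; ring_nf

theorem cols_uncols (cs : List (Col g)) : cols g cs.length (uncols g cs) = cs := by
  induction cs with
  | nil => rfl
  | cons c cs ih =>
    simp only [uncols, List.length_cons, cols]
    have h1 : Nat.ofBits c < 2 ^ g := Nat.ofBits_lt_two_pow c
    congr 1
    · funext i
      rw [Nat.add_comm, Nat.testBit_two_pow_mul_add _ h1]
      simp [Nat.testBit_ofBits_lt]
    · rw [Nat.add_mul_div_left _ _ (by positivity), Nat.div_eq_of_lt h1, zero_add]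
      exact ih

/-! ### Peeling pointer levels -/

theorem xorSum_eq_false (n : ℕ) (f : ℕ → Bool) (h : ∀ m < n, f m = false) : xorSum n f = false := by
  induction n with
  | zero => rfl
  | succ n ih =>
    simp only [xorSum]
    rw [ih (fun m hm => h m (by omega)), h n (by omega)]
    rfl

theorem xorSum_single (n : ℕ) (f : ℕ → Bool) (k : ℕ) (hk : k < n)
    (h : ∀ m < n, m ≠ k → f m = false) : xorSum n f = f k := by
  induction n with
  | zero => omega
  | succ n ih =>
    simp only [xorSum]
    by_cases hkn : k = n
    · subst hkn
      rw [xorSum_eq_false k f (fun m hm => h m (by omega) (by omega))]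
      simp
    · rw [ih (by omega) (fun m hm hmk => h m (by omega) hmk), h n (by omega) (fun e => hkn e.symm)]
      simp

theorem peel_zero (Λ : List (Bool × ℕ) → ℕ → Bool) (a : List (Bool × ℕ)) (r : ℕ) :
    peel 0 Λ a r = (Λ ((false, 0) :: a) r && Λ ((true, 0) :: a) r) := by
  simp [peel, xorSum]

/-- Peeling `n` pointer levels amounts to a universal quantifier over `n` bits. -/
theorem peel_pointers (n : ℕ) (Λ : List (Bool × ℕ) → ℕ → Bool) (a : List (Bool × ℕ)) (r : ℕ) :
    ((peel 0)^[n] Λ) a r = true ↔
      ∀ bs : List Bool, bs.length = n → Λ (bs.map (fun b => (b, 0)) ++ a) r = true := by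
  induction n generalizing Λ a with
  | zero =>
    constructor
    · intro h bs hbs
      have : bs = [] := List.eq_nil_of_length_eq_zero hbs
      subst this
      simpa using h
    · intro h
      simpa using h [] rfl
  | succ n ih =>
    rw [Function.iterate_succ_apply, ih]
    constructor
    · intro h bs hbs
      cases bs with
      | nil => simp at hbs
      | cons b bs =>
        have := h bs (by simpa using hbs)
        rw [peel_zero, Bool.and_eq_true] at this
        cases b
        · simpa using this.1
        · simpa using this.2
    · intro h bs hbs
      rw [peel_zero, Bool.and_eq_true]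
      refine ⟨?_, ?_⟩
      · simpa using h (false :: bs) (by simp [hbs])
      · simpa using h (true :: bs) (by simp [hbs])

theorem peelAll_append (μs νs : List ℕ) (Λ : List (Bool × ℕ) → ℕ → Bool) :
    peelAll (μs ++ νs) Λ = peelAll νs (μs.foldl (fun Λ μ => peel μ Λ) Λ) := by
  induction μs generalizing Λ with
  | nil => rfl
  | cons μ μs ih => simp [peelAll, ih]

theorem foldl_replicate_peel (n μ : ℕ) (Λ : List (Bool × ℕ) → ℕ → Bool) :
    (List.replicate n μ).foldl (fun Λ μ => peel μ Λ) Λ = (peel μ)^[n] Λ := by
  induction n generalizing Λ with
  | zero => rfl
  | succ n ih => simp [List.replicate_succ, ih]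

theorem peelAll_replicate (n μ : ℕ) (Λ : List (Bool × ℕ) → ℕ → Bool) (r : ℕ) :
    peelAll (List.replicate n μ) Λ r = ((peel μ)^[n] Λ) [] r := by
  induction n generalizing Λ with
  | zero => rfl
  | succ n ih => simp [List.replicate_succ, peelAll, ih]

/-! ### Contexts -/

/-- Left context: the columns of the first block with digit `true`. -/
def ctxL (n : ℕ) (ini : List (Col g)) : List (Bool × ℕ) → List (Col g)
  | [] => ini
  | (true, m) :: _ => cols g n m
  | (false, _) :: bl => ctxL n ini bl

/-- Right context: the columns of the first block with digit `false`. -/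
def ctxR (g n : ℕ) : List (Bool × ℕ) → Option (List (Col g))
  | [] => none
  | (false, m) :: _ => some (cols g n m)
  | (true, _) :: bl => ctxR g n bl

theorem length_ctxL (n : ℕ) (ini : List (Col g)) (h : ini.length = n) (bl : List (Bool × ℕ)) :
    (ctxL n ini bl).length = n := by
  induction bl with
  | nil => exact h
  | cons b bl ih =>
    obtain ⟨b, m⟩ := b
    cases b <;> simp [ctxL, ih]

theorem length_ctxR (n : ℕ) (bl : List (Bool × ℕ)) (c : List (Col g)) (hc : ctxR g n bl = some c) :
    c.length = n := by
  induction bl with
  | nil => simp [ctxR] at hc
  | cons b bl ih =>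
    obtain ⟨b, m⟩ := b
    cases b
    · simp only [ctxR, Option.some.injEq] at hc
      rw [← hc]; simp
    · simp only [ctxR] at hc
      exact ih hc

/-- Reachability in `2^j` steps; `none` stands for acceptance. -/
def Reach (R : RowSys g) (j : ℕ) (c : List (Col g)) : Option (List (Col g)) → Prop
  | none => R.Acc (R.step^[2 ^ j - 1] c)
  | some c' => c' = R.step^[2 ^ j] c

theorem Reach_succ (R : RowSys g) (j : ℕ) (c : List (Col g)) (c' : Option (List (Col g))) :
    Reach R (j + 1) c c' ↔ Reach R j (R.step^[2 ^ j] c) c' := by
  cases c' with
  | none =>
    simp only [Reach]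
    rw [← Function.iterate_add_apply]
    have : 2 ^ (j + 1) - 1 = 2 ^ j - 1 + 2 ^ j := by
      have : 0 < 2 ^ j := by positivity
      rw [pow_succ]; omega
    rw [this]
  | some c' =>
    simp only [Reach]
    rw [← Function.iterate_add_apply, pow_succ, mul_two]

/-- The leaf predicate: `n` pointer levels, then block levels. -/
def leaf (R : RowSys g) (ω n : ℕ) (ini : List (Col g)) (a : List (Bool × ℕ)) (r : ℕ) : Bool :=
  decide (r % 2 ^ ω = 0) &&
    verdict R (cap ((a.take n).map Prod.fst) (ctxL n ini (a.drop n)))
      ((ctxR g n (a.drop n)).bind fun cs => (cap ((a.take n).map Prod.fst) cs).map Info.cur)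

theorem leaf_pointers (R : RowSys g) (ω n : ℕ) (ini : List (Col g)) (hini : ini.length = n)
    (a : List (Bool × ℕ)) (r : ℕ) :
    ((peel 0)^[n] (leaf R ω n ini)) a r = true ↔
      r % 2 ^ ω = 0 ∧ Reach R 0 (ctxL n ini a) (ctxR g n a) := by
  rw [peel_pointers]
  have key : ∀ bs : List Bool, bs.length = n →
      leaf R ω n ini (bs.map (fun b => (b, 0)) ++ a) r =
        (decide (r % 2 ^ ω = 0) && verdict R (cap bs (ctxL n ini a))
          ((ctxR g n a).bind fun cs => (cap bs cs).map Info.cur)) := by
    intro bs hbs
    unfold leaf
    have h1 : (bs.map (fun b => (b, 0)) ++ a).take n = bs.map (fun b => (b, 0)) := by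
      rw [List.take_append_of_le_length (by simp [hbs]), List.take_of_length_le (by simp [hbs])]
    have h2 : (bs.map (fun b => (b, 0)) ++ a).drop n = a := by
      rw [List.drop_append_of_le_length (by simp [hbs]), List.drop_of_length_le (by simp [hbs])]
      simp
    rw [h1, h2]
    simp [List.map_map, Function.comp_def]
  constructor
  · intro h
    have h0 := h (List.replicate n true) (by simp)
    rw [key _ (by simp), Bool.and_eq_true, decide_eq_true_eq] at h0
    refine ⟨h0.1, ?_⟩
    have h' : ∀ bs : List Bool, bs.length = n → verdict R (cap bs (ctxL n ini a))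
          ((ctxR g n a).bind fun cs => (cap bs cs).map Info.cur) = true := by
      intro bs hbs
      have := h bs hbs
      rw [key bs hbs, Bool.and_eq_true] at this
      exact this.2
    have hL : (ctxL n ini a).length = n := length_ctxL n ini hini a
    rcases hR : ctxR g n a with _ | c'
    · rw [hR] at h'
      simp only [Option.bind_none] at h'
      simp only [Reach, pow_zero, Nat.sub_self, Function.iterate_zero, id]
      exact (verdict_acc R _).1 (fun bs hbs => h' bs (by omega))
    · rw [hR] at h'
      simp only [Option.bind_some] at h'
      simp only [Reach, pow_zero, Function.iterate_one]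
      exact (verdict_step R _ _ (by rw [hL, length_ctxR n a c' hR])).1
        (fun bs hbs => h' bs (by omega))
  · rintro ⟨h1, h2⟩ bs hbs
    rw [key bs hbs, Bool.and_eq_true, decide_eq_true_eq]
    refine ⟨h1, ?_⟩
    have hL : (ctxL n ini a).length = n := length_ctxL n ini hini a
    rcases hR : ctxR g n a with _ | c'
    · rw [hR] at h2
      simp only [Reach, pow_zero, Nat.sub_self, Function.iterate_zero, id] at h2
      exact (verdict_acc R _).2 h2 bs (by omega)
    · rw [hR] at h2
      simp only [Reach, pow_zero, Function.iterate_one] at h2
      exact (verdict_step R _ _ (by rw [hL, length_ctxR n a c' hR])).2 h2 bs (by omega)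

theorem leaf_blocks (R : RowSys g) (ω n : ℕ) (ini : List (Col g)) (hini : ini.length = n)
    (j : ℕ) (a : List (Bool × ℕ)) (r : ℕ) :
    ((peel (g * n))^[j] ((peel 0)^[n] (leaf R ω n ini))) a r = true ↔
      r % 2 ^ ω = 0 ∧ Reach R j (ctxL n ini a) (ctxR g n a) := by
  induction j generalizing a with
  | zero => exact leaf_pointers R ω n ini hini a r
  | succ j ih =>
    rw [Function.iterate_succ_apply', Reach_succ]
    set Λ := (peel (g * n))^[j] ((peel 0)^[n] (leaf R ω n ini)) with hΛ
    set tgt := R.step^[2 ^ j] (ctxL n ini a) with htgt
    have hlen : tgt.length = n := by rw [htgt]; simp [length_ctxL n ini hini a]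
    have hm0 : uncols g tgt < 2 ^ (g * n) := by
      have := uncols_lt tgt
      rwa [hlen] at this
    have hcols : cols g n (uncols g tgt) = tgt := by
      have := cols_uncols tgt
      rwa [hlen] at this
    unfold peel
    rw [xorSum_single _ _ _ hm0]
    · rw [Bool.and_eq_true, ih, ih]
      simp only [ctxL, ctxR, Reach, hcols]
      constructor
      · rintro ⟨_, h1, h2⟩; exact ⟨h1, h2⟩
      · rintro ⟨h1, h2⟩; exact ⟨⟨h1, htgt⟩, h1, h2⟩
    · intro m hm hne
      rw [Bool.and_eq_false_iff]
      left
      by_contra hcon
      rw [Bool.not_eq_false, ih] at hcon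
      simp only [ctxL, ctxR, Reach] at hcon
      apply hne
      apply cols_injOn g n _ _ hm hm0
      rw [hcols, htgt]
      exact hcon.2

/-- The value of the whole formula. -/
theorem peelAll_leaf (R : RowSys g) (ω n k : ℕ) (ini : List (Col g)) (hini : ini.length = n)
    (r : ℕ) :
    peelAll (List.replicate n 0 ++ List.replicate k (g * n)) (leaf R ω n ini) r = true ↔
      r % 2 ^ ω = 0 ∧ R.Acc (R.step^[2 ^ k - 1] ini) := by
  rw [peelAll_append, foldl_replicate_peel, peelAll_replicate, leaf_blocks R ω n ini hini]
  simp [Reach, ctxL, ctxR]

end Pool.Agent.H9
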