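import Pool.Agent.H9.Decide

/-! Choice of the parameters of the unit machine. -/

namespace Pool.Agent.H9

/-- The combinatorial heart: three far apart sources cannot all be mapped near the changes. -/
theorem sel_aux (p r d1 d2 d3 a1 a2 a3 b1 b2 b3 x1 x2 x3 : ℤ) (hp : 1 ≤ p) (hr : 1 ≤ r)
    (g1 : 8 * (p + r) ≤ d1) (g2 : 8 * (a1 + b1 + p + r) ≤ d2) (g3 : 8 * (a2 + b2 + p + r) ≤ d3)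
    (ha1 : d1 ≤ a1) (ha2 : d2 ≤ a2) (ha3 : d3 ≤ a3) (hb1 : d1 ≤ b1) (hb2 : d2 ≤ b2)
    (hb3 : d3 ≤ b3)
    (z1 : (-r ≤ x1 ∧ x1 ≤ 0) ∨ (a1 - r ≤ x1 ∧ x1 ≤ a1 + p) ∨ (a2 - r ≤ x1 ∧ x1 ≤ a2 + p) ∨
      (a3 - r ≤ x1 ∧ x1 ≤ a3 + p))
    (z2 : (-r ≤ x2 ∧ x2 ≤ 0) ∨ (a1 - r ≤ x2 ∧ x2 ≤ a1 + p) ∨ (a2 - r ≤ x2 ∧ x2 ≤ a2 + p) ∨
      (a3 - r ≤ x2 ∧ x2 ≤ a3 + p))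
    (z3 : (-r ≤ x3 ∧ x3 ≤ 0) ∨ (a1 - r ≤ x3 ∧ x3 ≤ a1 + p) ∨ (a2 - r ≤ x3 ∧ x3 ≤ a2 + p) ∨
      (a3 - r ≤ x3 ∧ x3 ≤ a3 + p))
    (hcase : (x3 - x1 = b3 - b1 ∧ x2 - x1 = b2 - b1 ∧ (a3 + d3 ≤ b3 ∨ b3 + d3 ≤ a3)) ∨
      (x3 - x1 = b1 - b3 ∧ x2 - x1 = b1 - b2 ∧ ((a3 + d3 ≤ b3 ∨ b3 + d3 ≤ a3) ∨
        (a1 = b1 ∧ a2 = b2 ∧ a3 = b3)))) : False := by
  rcases hcase with ⟨h1, h2, h3 | h3⟩ | ⟨h1, h2, (h3 | h3) | h3⟩ <;>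
  rcases z1 with z1 | z1 | z1 | z1 <;>
  rcases z2 with z2 | z2 | z2 | z2 <;>
  rcases z3 with z3 | z3 | z3 | z3 <;>
  omega

end Pool.Agent.H9
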