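import Pool.Agent.H9.Layout

/-! Blocks, levels, and the step theorem for the whole layout. -/

namespace Pool.Agent.H9

variable {g : ℕ}

@[simp] theorem St.column_side (q : St g) (b : Bool) (c : Col g) : (q.column b c).side = q.side := by
  simp [St.column]
@[simp] theorem St.column_L (q : St g) (b : Bool) (c : Col g) : (q.column b c).L = q.L := by
  simp [St.column]
@[simp] theorem St.column_R (q : St g) (b : Bool) (c : Col g) : (q.column b c).R = q.R := by
  simp [St.column]
@[simp] theorem St.column_wz (q : St g) (b : Bool) (c : Col g) : (q.column b c).wz = q.wz := by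
  simp [St.column]

theorem St.columns_fields (q : St g) (bs : List Bool) (cs : List (Col g)) :
    (q.columns bs cs).c = q.c ∧ (q.columns bs cs).side = q.side ∧ (q.columns bs cs).L = q.L ∧
      (q.columns bs cs).R = q.R ∧ (q.columns bs cs).wz = q.wz ∧
      (q.columns bs cs).blockState = bfold q.blockState bs cs := by
  induction cs generalizing q bs with
  | nil => cases bs <;> simp [St.columns, bfold]
  | cons c cs ih =>
    cases bs with
    | nil => simp [St.columns, bfold]
    | cons b bs =>
      have := ih (q.column b c) bs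
      simpa [St.columns, bfold, blockState_column] using this

theorem St.blockState_cap (q : St g) : q.cap = q.blockState.2.2.1 := rfl

/-- A counter block; `t` is the value of the local counter, `τ` the one of the main counter. -/
def blockM (g n t τ : ℕ) : List (Cell g) :=
  (.blk, τ.bodd) :: (.cnt, (τ / 2).bodd) :: (colsM g n (τ / 4) t ++ [(.fin, false)])

theorem go_blockM (R : RowSys g) (q : St g) (n t τ : ℕ) :
    (go R q (blockM g n t τ)).1 = blockM g n (t + 1) (τ + q.c.toNat) ∧
    (go R q (blockM g n t τ)).2.c = co (g * n + 2) τ q.c ∧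
    (go R q (blockM g n t τ)).2.L =
      (if τ.bodd then q.L.or (cap (ptrs n t) (cols g n (τ / 4))) else q.L) ∧
    (go R q (blockM g n t τ)).2.R =
      (if τ.bodd then q.R else q.R.or ((cap (ptrs n t) (cols g n (τ / 4))).map Info.cur)) ∧
    (go R q (blockM g n t τ)).2.wz = q.wz := by
  have e1 : (τ + q.c.toNat) / 4 = τ / 4 + (co 2 τ q.c).toNat := div_pow_add_toNat 2 _ _
  have e2 : co (g * n + 2) τ q.c = co (g * n) (τ / 4) (co 2 τ q.c) := by
    rw [Nat.add_comm, co_add]; norm_num
  unfold blockM
  simp only [go, nxt, out, go_append, go_colsM, bodd_add_toNat, div2_add_toNat, e1, e2]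
  simp only [St.start, Bool.toNat_true, Bool.xor_false]
  refine ⟨?_, ?_⟩
  · simp only [List.cons.injEq, true_and, List.append_left_inj]
    rfl
  · have key := St.columns_fields
      ({ c := co (g * n) (τ / 4) (q.c && τ.bodd && (τ / 2).bodd), l := co (2 * n) t true, p := q.p,
         cur := q.cur, bf := none, bp := none, cap := none, wt := false, side := τ.bodd, L := q.L,
         R := q.R, wz := q.wz, live := q.live } : St g) (ptrs n t) (cols g n (τ / 4))
    obtain ⟨k1, k2, k3, k4, k5, k6⟩ := key
    simp only at k1 k2 k3 k4 k5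
    have hcap := St.blockState_cap (St.columns
      ({ c := co (g * n) (τ / 4) (q.c && τ.bodd && (τ / 2).bodd), l := co (2 * n) t true, p := q.p,
         cur := q.cur, bf := none, bp := none, cap := none, wt := false, side := τ.bodd, L := q.L,
         R := q.R, wz := q.wz, live := q.live } : St g) (ptrs n t) (cols g n (τ / 4)))
    rw [k6] at hcap
    simp only [St.blockState] at hcap
    rw [bfold_none _ _ _ _ (by simp)] at hcap
    have hc2 : co 2 τ q.c = (q.c && τ.bodd && (τ / 2).bodd) := by simp [co]
    unfold St.commit
    rw [k2]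
    rcases hb : τ.bodd with _ | _
    · rw [hb] at k1 k2 k3 k4 k5 hcap hc2
      simp only [Bool.false_eq_true, if_false]
      refine ⟨?_, ?_, ?_, ?_⟩
      · rw [k1, hc2]
      · rw [k3]
      · rw [k4, hcap]; rfl
      · rw [k5]
    · rw [hb] at k1 k2 k3 k4 k5 hcap hc2
      simp only [if_true]
      refine ⟨?_, ?_, ?_, ?_⟩
      · rw [k1, hc2]
      · rw [k3, hcap]; rfl
      · rw [k4]
      · rw [k5]

/-- The counter blocks. -/
def blocksM (g n t : ℕ) : ℕ → ℕ → List (Cell g)
  | 0, _ => []
  | k + 1, τ => blockM g n t τ ++ blocksM g n t k (τ / 2 ^ (g * n + 2))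

/-- The left information after some blocks. -/
def capsL (g n : ℕ) (bs : List Bool) : List (Bool × ℕ) → Option (Info g)
  | [] => none
  | (true, m) :: bl => (cap bs (cols g n m)).or (capsL g n bs bl)
  | (false, _) :: bl => capsL g n bs bl

/-- The right information after some blocks. -/
def capsR (g n : ℕ) (bs : List Bool) : List (Bool × ℕ) → Option (Col g)
  | [] => none
  | (false, m) :: bl => ((cap bs (cols g n m)).map Info.cur).or (capsR g n bs bl)
  | (true, _) :: bl => capsR g n bs bl

theorem cols_mod (g n x : ℕ) : cols g n (x % 2 ^ (g * n)) = cols g n x := by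
  induction n generalizing x with
  | zero => rfl
  | succ n ih =>
    simp only [cols]
    congr 1
    · funext i
      rw [Nat.testBit_mod_two_pow]
      have : (i : ℕ) < g * (n + 1) := by
        have := i.2
        calc (i : ℕ) < g := this
          _ ≤ g * (n + 1) := Nat.le_mul_of_pos_right _ (by omega)
      simp [this]
    · rw [← ih (x / 2 ^ g)]
      congr 1
      rw [show g * (n + 1) = g + g * n by ring, pow_add, Nat.mod_mul_right_div_self]

theorem go_blocksM (R : RowSys g) (q : St g) (n t k τ : ℕ) :
    (go R q (blocksM g n t k τ)).1 = blocksM g n (t + 1) k (τ + q.c.toNat) ∧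
    (go R q (blocksM g n t k τ)).2.c = co ((g * n + 2) * k) τ q.c ∧
    (go R q (blocksM g n t k τ)).2.L =
      q.L.or (capsL g n (ptrs n t) (asg (List.replicate k (g * n)) τ)) ∧
    (go R q (blocksM g n t k τ)).2.R =
      q.R.or (capsR g n (ptrs n t) (asg (List.replicate k (g * n)) τ)) ∧
    (go R q (blocksM g n t k τ)).2.wz = q.wz := by
  induction k generalizing q τ with
  | zero => simp [blocksM, go, co, asg, capsL, capsR]
  | succ k ih =>
    simp only [blocksM, go_append]
    obtain ⟨h1, h2, h3, h4, h5⟩ := go_blockM R q n t τ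
    obtain ⟨k1, k2, k3, k4, k5⟩ := ih (go R q (blockM g n t τ)).2 (τ / 2 ^ (g * n + 2))
    rw [h1, k1, k2, k3, k4, k5, h2, h3, h4, h5]
    have e1 : (τ + q.c.toNat) / 2 ^ (g * n + 2) =
        τ / 2 ^ (g * n + 2) + (co (g * n + 2) τ q.c).toNat := div_pow_add_toNat _ _ _
    refine ⟨?_, ?_, ?_, ?_, rfl⟩
    · rw [e1]
    · rw [show (g * n + 2) * (k + 1) = (g * n + 2) + (g * n + 2) * k by ring,
        co_add (g * n + 2) ((g * n + 2) * k)]
    · simp only [List.replicate_succ, asg]
      rcases τ.bodd with _ | _
      · simp [capsL]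
      · simp [capsL, cols_mod, Option.or_assoc]
    · simp only [List.replicate_succ, asg]
      rcases τ.bodd with _ | _
      · simp [capsR, cols_mod, Option.or_assoc]
      · simp [capsR]

theorem capFrom_eq_none_iff (f p : Option (Col g)) (bs : List Bool) (cs : List (Col g))
    (h : cs.length = bs.length) : capFrom f p bs cs = none ↔ ∀ b ∈ bs, b = true := by
  induction bs generalizing f p cs with
  | nil => simp [capFrom]
  | cons b bs ih =>
    cases cs with
    | nil => simp at h
    | cons c cs =>
      cases b with
      | false => simp [capFrom]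
      | true =>
        simp only [capFrom, if_true, List.mem_cons, forall_eq_or_imp, true_and]
        exact ih _ _ _ (by simpa using h)

theorem cap_or_cap (bs : List Bool) (cs cs' : List (Col g)) (h : cs.length = bs.length)
    (h' : cs'.length = bs.length) : (cap bs cs).or (cap bs cs') = cap bs cs := by
  rcases hc : cap bs cs with _ | i
  · have := (capFrom_eq_none_iff none none bs cs h).1 hc
    have := (capFrom_eq_none_iff none none bs cs' h').2 this
    simpa [cap] using this
  · simp

theorem capsL_or (n : ℕ) (ini : List (Col g)) (hini : ini.length = n) (bs : List Bool)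
    (hbs : bs.length = n) (bl : List (Bool × ℕ)) :
    (capsL g n bs bl).or (cap bs ini) = cap bs (ctxL n ini bl) := by
  induction bl with
  | nil => simp [capsL, ctxL]
  | cons b bl ih =>
    obtain ⟨b, m⟩ := b
    cases b
    · simpa [capsL, ctxL] using ih
    · simp only [capsL, ctxL, Option.or_assoc, ih]
      exact cap_or_cap bs _ _ (by simp [hbs]) (by rw [length_ctxL n ini hini, hbs])

theorem capsR_eq (n : ℕ) (bs : List Bool) (hbs : bs.length = n) (bl : List (Bool × ℕ)) :
    capsR g n bs bl = (ctxR g n bl).bind fun cs => (cap bs cs).map Info.cur := by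
  induction bl with
  | nil => simp [capsR, ctxR]
  | cons b bl ih =>
    obtain ⟨b, m⟩ := b
    cases b
    · simp only [capsR, ctxR, Option.bind_some, ih]
      rcases hc : cap bs (cols g n m) with _ | i
      · have h1 := (capFrom_eq_none_iff none none bs (cols g n m) (by simp [hbs])).1 hc
        simp only [Option.map_none, Option.none_or]
        rcases hR : ctxR g n bl with _ | cs
        · rfl
        · have h2 := (capFrom_eq_none_iff none none bs cs
            (by rw [length_ctxR n bl cs hR, hbs])).2 h1
          simp only [Option.bind_some]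
          rw [show cap bs cs = none from h2]
          rfl
      · simp
    · simpa [capsR, ctxR] using ih

/-- The constant block. -/
def blockK (ini : List (Col g)) (t : ℕ) : List (Cell g) :=
  (.ini, false) :: (colsK ini t ++ [(.fin, false)])

theorem go_blockK (R : RowSys g) (q : St g) (ini : List (Col g)) (t : ℕ) :
    (go R q (blockK ini t)).1 = blockK ini (t + 1) ∧
    (go R q (blockK ini t)).2.c = q.c ∧
    (go R q (blockK ini t)).2.L = q.L.or (cap (ptrs ini.length t) ini) ∧
    (go R q (blockK ini t)).2.R = q.R ∧
    (go R q (blockK ini t)).2.wz = q.wz := by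
  unfold blockK
  simp only [go, nxt, out, go_append, go_colsK]
  simp only [St.start, Bool.toNat_true, Bool.xor_false]
  refine ⟨trivial, ?_⟩
  obtain ⟨k1, k2, k3, k4, k5, k6⟩ := St.columns_fields
      ({ c := q.c, l := co (2 * ini.length) t true, p := q.p,
         cur := q.cur, bf := none, bp := none, cap := none, wt := false, side := true, L := q.L,
         R := q.R, wz := q.wz, live := q.live } : St g) (ptrs ini.length t) ini
  have hcap := St.blockState_cap (St.columns
      ({ c := q.c, l := co (2 * ini.length) t true, p := q.p,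
         cur := q.cur, bf := none, bp := none, cap := none, wt := false, side := true, L := q.L,
         R := q.R, wz := q.wz, live := q.live } : St g) (ptrs ini.length t) ini)
  rw [k6] at hcap
  simp only [St.blockState] at hcap
  rw [bfold_none _ _ _ _ (by simp)] at hcap
  simp only at k1 k2 k3 k4 k5
  unfold St.commit
  rw [k2]
  simp only [if_true]
  refine ⟨?_, ?_, ?_, ?_⟩
  · rw [k1]
  · rw [k3, hcap]; rfl
  · rw [k4]
  · rw [k5]

/-- First copy of the counter. -/
def copy1 (n k ω : ℕ) (ini : List (Col g)) (t : ℕ) : List (Cell g) :=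
  cc (List.replicate (2 * n) .cnt) t ++ (blocksM g n t k (t / 4 ^ n) ++
    (blockK ini t ++ cc (List.replicate ω .win) (t / 4 ^ n / 2 ^ ((g * n + 2) * k))))

/-- The levels. -/
def lev (n k g : ℕ) : List ℕ := List.replicate n 0 ++ List.replicate k (g * n)

theorem asg_append (μs νs : List ℕ) (t : ℕ) :
    asg (μs ++ νs) t = asg μs t ++ asg νs (rest μs t) := by
  induction μs generalizing t with
  | nil => rfl
  | cons μ μs ih => simp [asg, rest, ih]

theorem rest_append (μs νs : List ℕ) (t : ℕ) : rest (μs ++ νs) t = rest νs (rest μs t) := by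
  induction μs generalizing t with
  | nil => rfl
  | cons μ μs ih => simp [rest, ih]

theorem asg_pointers (n t : ℕ) : asg (List.replicate n 0) t = (ptrs n t).map fun b => (b, 0) := by
  induction n generalizing t with
  | zero => rfl
  | succ n ih =>
    simp only [List.replicate_succ, asg, ptrs, List.map_cons, pow_zero, Nat.mod_one, zero_add]
    rw [show 2 ^ 2 = 4 by norm_num, ih]

theorem tot_replicate (n μ : ℕ) : tot (List.replicate n μ) = n * (μ + 2) := by
  induction n with
  | zero => simp [tot]
  | succ n ih => simp [List.replicate_succ, tot, ih]; ring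

theorem rest_pointers (n t : ℕ) : rest (List.replicate n 0) t = t / 4 ^ n := by
  rw [rest_eq, tot_replicate, show 4 = 2 ^ 2 by norm_num, ← pow_mul]
  ring_nf

theorem rest_lev (n k g t : ℕ) :
    rest (lev n k g) t = t / 4 ^ n / 2 ^ ((g * n + 2) * k) := by
  unfold lev
  rw [rest_append, rest_pointers, rest_eq, tot_replicate, Nat.mul_comm k]

theorem leaf_lev (R : RowSys g) (ω n k : ℕ) (ini : List (Col g)) (t : ℕ) :
    leaf R ω n ini (asg (lev n k g) t) (rest (lev n k g) t) =
      (decide (t / 4 ^ n / 2 ^ ((g * n + 2) * k) % 2 ^ ω = 0) &&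
        verdict R (cap (ptrs n t) (ctxL n ini (asg (List.replicate k (g * n)) (t / 4 ^ n))))
          ((ctxR g n (asg (List.replicate k (g * n)) (t / 4 ^ n))).bind
            fun cs => (cap (ptrs n t) cs).map Info.cur)) := by
  have h1 : asg (lev n k g) t =
      (ptrs n t).map (fun b => (b, 0)) ++ asg (List.replicate k (g * n)) (t / 4 ^ n) := by
    unfold lev
    rw [asg_append, asg_pointers, rest_pointers]
  have h2 : (asg (lev n k g) t).take n = (ptrs n t).map (fun b => (b, 0)) := by
    rw [h1, List.take_append_of_le_length (by simp), List.take_of_length_le (by simp)]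
  have h3 : (asg (lev n k g) t).drop n = asg (List.replicate k (g * n)) (t / 4 ^ n) := by
    rw [h1, List.drop_append_of_le_length (by simp), List.drop_of_length_le (by simp)]
    simp
  unfold leaf
  rw [h2, h3, rest_lev]
  simp [List.map_map, Function.comp_def]

theorem go_copy1 (R : RowSys g) (n k ω : ℕ) (ini : List (Col g)) (hini : ini.length = n) (t : ℕ) :
    (go R st0 (copy1 n k ω ini t)).1 = copy1 n k ω ini (t + 1) ∧
    ((go R st0 (copy1 n k ω ini t)).2.wz &&
      verdict R (go R st0 (copy1 n k ω ini t)).2.L (go R st0 (copy1 n k ω ini t)).2.R) =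
      leaf R ω n ini (asg (lev n k g) t) (rest (lev n k g) t) := by
  unfold copy1
  simp only [go_append, go_cc_cnt]
  have hc1 : ({ (st0 : St g) with c := co (2 * n) t (st0 : St g).c } : St g).c =
    co (2 * n) t true := rfl
  have hL1 : ({ (st0 : St g) with c := co (2 * n) t (st0 : St g).c } : St g).L = none := rfl
  have hR1 : ({ (st0 : St g) with c := co (2 * n) t (st0 : St g).c } : St g).R = none := rfl
  have hw1 : ({ (st0 : St g) with c := co (2 * n) t (st0 : St g).c } : St g).wz = true := rfl
  generalize ({ (st0 : St g) with c := co (2 * n) t (st0 : St g).c } : St g) = q1 at *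
  obtain ⟨h1, h2, h3, h4, h5⟩ := go_blocksM R q1 n t k (t / 4 ^ n)
  generalize go R q1 (blocksM g n t k (t / 4 ^ n)) = r2 at *
  obtain ⟨w2, q2⟩ := r2
  simp only at h1 h2 h3 h4 h5 ⊢
  obtain ⟨k1, k2, k3, k4, k5⟩ := go_blockK R q2 ini t
  generalize go R q2 (blockK ini t) = r3 at *
  obtain ⟨w3, q3⟩ := r3
  simp only at k1 k2 k3 k4 k5 ⊢
  have e0 : (t + 1) / 4 ^ n = t / 4 ^ n + (co (2 * n) t true).toNat := by
    have := div_pow_add_toNat (2 * n) t true
    rw [Bool.toNat_true, show (2 : ℕ) ^ (2 * n) = 4 ^ n by rw [pow_mul]; norm_num] at this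
    exact this
  have e1 : (t + 1) / 4 ^ n / 2 ^ ((g * n + 2) * k) =
      t / 4 ^ n / 2 ^ ((g * n + 2) * k) +
        (co ((g * n + 2) * k) (t / 4 ^ n) (co (2 * n) t true)).toNat := by
    rw [e0, div_pow_add_toNat]
  refine ⟨?_, ?_⟩
  · rw [h1, hc1, k1, e1, e0, go_cc_win, k2, h2, hc1]
    rfl
  · rw [leaf_lev, go_cc_win]
    simp only
    rw [k3, k4, k5, h3, h4, h5, hini, hL1, hR1, hw1, Option.none_or, Option.none_or,
      Bool.true_and, allZero_iff, capsL_or n ini hini _ (by simp), capsR_eq n _ (by simp)]

/-- The second copy of the counter, with the register bits. -/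
def levels (g : ℕ) : List ℕ → ℕ → List Bool → List (Cell g)
  | [], _, y :: _ => [(.yf, y)]
  | μ :: μs, τ, y :: Y =>
    (.dig, τ.bodd) :: (.yy, y) :: (cc (List.replicate (μ + 1) .oth) (τ / 2) ++
      levels g μs (τ / 2 ^ (μ + 2)) Y)
  | _, _, [] => []

theorem go_levels (R : RowSys g) (q : St g) (μs : List ℕ) (τ : ℕ) (Y : List Bool)
    (hY : Y.length = μs.length + 1) :
    (go R q (levels g μs τ Y)).1 =
      levels g μs (τ + q.c.toNat) (cop q.live ((asg μs τ).map Prod.fst) Y) := by
  induction μs generalizing q τ Y with
  | nil =>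
    cases Y with
    | nil => simp at hY
    | cons y Y =>
      simp only [levels, go, out, asg, List.map_nil, cop]
      cases q.live <;> simp [op, levels]
  | cons μ μs ih =>
    cases Y with
    | nil => simp at hY
    | cons y Y =>
      have hY' : Y.length = μs.length + 1 := by simpa using hY
      simp only [levels, go, out, nxt, go_append, go_cc_oth]
      rw [ih _ _ _ hY']
      have e1 : (τ + q.c.toNat) / 2 ^ (μ + 2) =
          τ / 2 ^ (μ + 2) + (co (μ + 1) (τ / 2) (q.c && τ.bodd)).toNat := by
        rw [div_pow_add_toNat, show μ + 2 = (μ + 1) + 1 by ring]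
        rfl
      simp only [asg, List.map_cons]
      rcases hb : τ.bodd with _ | _
      · have : cop q.live (false :: (asg μs (τ / 2 ^ (μ + 2))).map Prod.fst) (y :: Y) =
            xor y q.live :: Y := by
          cases q.live <;> simp [cop, op]
        rw [this]
        simp only [levels, e1, hb, bodd_add_toNat, div2_add_toNat]
        simp [cop]
      · have : cop q.live (true :: (asg μs (τ / 2 ^ (μ + 2))).map Prod.fst) (y :: Y) =
            y :: cop (q.live && y) ((asg μs (τ / 2 ^ (μ + 2))).map Prod.fst) Y := by
          cases q.live <;> cases y <;> simp [cop, op]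
        rw [this]
        simp only [levels, e1, hb, bodd_add_toNat, div2_add_toNat]
        simp

/-- The whole layout. -/
def lay (n k ω : ℕ) (ini : List (Col g)) (t : ℕ) (Y : List Bool) : List (Cell g) :=
  copy1 n k ω ini t ++ ((.sec, false) :: levels g (lev n k g) t Y)

/-- The map on words of cells. -/
def cellMap (R : RowSys g) (w : List (Cell g)) : List (Cell g) := (go R st0 w).1

theorem cellMap_lay (R : RowSys g) (n k ω : ℕ) (ini : List (Col g)) (hini : ini.length = n)
    (t : ℕ) (Y : List Bool) (hY : Y.length = (lev n k g).length + 1) :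
    cellMap R (lay n k ω ini t Y) =
      lay n k ω ini (t + 1) (dyn (lev n k g) (leaf R ω n ini) t Y) := by
  unfold cellMap lay
  obtain ⟨h1, h2⟩ := go_copy1 R n k ω ini hini t
  simp only [go_append, go, out, nxt]
  rw [h1, go_levels _ _ _ _ _ hY]
  simp only [h2]
  simp [dyn]

theorem length_op (bs Y : List Bool) : (op bs Y).length = Y.length := by
  induction bs generalizing Y with
  | nil => cases Y <;> simp [op]
  | cons b bs ih =>
    cases Y with
    | nil => simp [op]
    | cons y Y =>
      cases b
      · simp [op]
      · cases y <;> simp [op, ih]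

theorem length_dyn (μs : List ℕ) (Λ : List (Bool × ℕ) → ℕ → Bool) (t : ℕ) (Y : List Bool) :
    (dyn μs Λ t Y).length = Y.length := by
  unfold dyn cop
  split_ifs
  · exact length_op _ _
  · rfl

theorem iterate_cellMap_lay (R : RowSys g) (n k ω : ℕ) (ini : List (Col g)) (hini : ini.length = n)
    (t m : ℕ) (Y : List Bool) (hY : Y.length = (lev n k g).length + 1) :
    (cellMap R)^[m] (lay n k ω ini t Y) =
      lay n k ω ini (t + m) (runD (lev n k g) (leaf R ω n ini) t m Y) := by
  induction m generalizing t Y with
  | zero => rfl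
  | succ m ih =>
    rw [Function.iterate_succ_apply, cellMap_lay R n k ω ini hini t Y hY,
      ih _ _ (by rw [length_dyn]; exact hY)]
    simp only [runD]
    rw [show t + 1 + m = t + (m + 1) by ring]

end Pool.Agent.H9
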