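import Mathlib

/-! Automorphisms of the rooted binary tree given by a language (the portrait). -/

namespace Pool.Agent.H9

open Classical in
/-- The automorphism of the rooted binary tree `{0,1}^*` with portrait `A`: the `i`-th letter of `w`
is flipped exactly when the prefix of `w` of length `i` belongs to `A`. -/
noncomputable def treeAut (A : Set (List Bool)) (w : List Bool) : List Bool :=
  w.mapIdx fun i b => if w.take i ∈ A then !b else b

end Pool.Agent.H9
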