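import Pool.Agent.H9.LevelTrans
import Pool.Agent.H9.Bits

/-! A level transitive transducer built from an arbitrary one. -/

namespace Pool.Agent.H9

open Pool.Agent.PPS

variable {σ : Type} (δ : σ → Bool → σ) (o : σ → Bool) (s0 : σ) (κ : ℕ) (ε : ℕ → Bool)

/-- What a unit value asks for. -/
inductive Act
  | cont | fwd | bwd | idle
  deriving DecidableEq

/-- The action of a unit value. -/
def beta (ε : ℕ → Bool) (v : ℕ) : Act :=
  if v ≤ 1 then .cont
  else if ε (v - 1) = ε v then .idle
  else if ε v then .fwd else .bwd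

/-- States of the machine reading units. -/
inductive BM (σ : Type) (κ : ℕ)
  | unit (l : {l : List Bool // l.length ≤ κ})
  | run (i : Bool) (s : σ)
  | dead

/-- Initial state. -/
def bm0 : BM σ κ := .unit ⟨[], by simp⟩

/-- State after a unit. -/
def afterUnit (a : Act) : BM σ κ :=
  match a with
  | .cont => bm0 κ
  | .fwd => .run false s0
  | .bwd => .run true s0
  | .idle => .dead

/-- Transition. -/
def stepB : BM σ κ → Bool → BM σ κ
  | .unit l, c =>
    if h : l.1.length + 1 < κ then .unit ⟨l.1 ++ [c], by simp; omega⟩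
    else afterUnit s0 κ (beta ε (val (l.1 ++ [c])))
  | .run i s, c => .run i (δ s (xor c (i && o s)))
  | .dead, _ => .dead

/-- Output. -/
def outB : BM σ κ → Bool
  | .unit _ => false
  | .run _ s => o s
  | .dead => false

/-- Product with the odometer: transition. -/
def stepX (q : Bool × BM σ κ) (c : Bool) : Bool × BM σ κ :=
  (q.1 && c, stepB δ o s0 κ ε q.2 (xor c q.1))

/-- Product with the odometer: output. -/
def outX (q : Bool × BM σ κ) : Bool := xor q.1 (outB o κ q.2)

/-- The portrait of the product. -/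
def langX : Language Bool :=
  {w | outX o κ (w.foldl (stepX δ o s0 κ ε) (true, bm0 κ)) = true}

/-- The portrait of the unit machine. -/
def langB : Language Bool :=
  {w | outB o κ (w.foldl (stepB δ o s0 κ ε) (bm0 κ)) = true}

/-- The map of the unit machine. -/
def bmap : List Bool → List Bool := mealy (stepB δ o s0 κ ε) (outB o κ) (bm0 κ)

theorem treeAut_langB (w : List Bool) :
    treeAut (langB δ o s0 κ ε) w = bmap δ o s0 κ ε w :=
  treeAut_eq_mealy _ _ _ _ (fun _ => Iff.rfl) w

theorem mealy_stepX (k : Bool) (s : BM σ κ) (w : List Bool) :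
    mealy (stepX δ o s0 κ ε) (outX o κ) (k, s) w =
      mealy (stepB δ o s0 κ ε) (outB o κ) s (if k then inc w else w) := by
  induction w generalizing k s with
  | nil => cases k <;> rfl
  | cons c w ih =>
    simp only [mealy]
    have e : stepX δ o s0 κ ε (k, s) c = (k && c, stepB δ o s0 κ ε s (xor c k)) := rfl
    rw [e, ih]
    cases k <;> cases c <;> simp [inc, mealy, outX]

theorem treeAut_langX (w : List Bool) :
    treeAut (langX δ o s0 κ ε) w = bmap δ o s0 κ ε (inc w) := by
  have h1 := treeAut_eq_mealy (langX δ o s0 κ ε) (stepX δ o s0 κ ε) (outX o κ) (true, bm0 κ)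
    (fun _ => Iff.rfl) w
  rw [mealy_stepX] at h1
  exact h1

/-! ### Regularity -/

section reg

variable [Finite σ]

instance : Finite (BM σ κ) := by
  have h1 : Finite {l : List Bool // l.length ≤ κ} := (List.finite_length_le Bool κ).to_subtype
  refine Finite.of_injective (β := {l : List Bool // l.length ≤ κ} ⊕ ((Bool × σ) ⊕ Unit))
    (fun s => match s with
      | .unit l => .inl l
      | .run i s => .inr (.inl (i, s))
      | .dead => .inr (.inr ())) ?_
  intro a b h
  cases a <;> cases b <;> simp_all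

theorem langX_isRegular : (langX δ o s0 κ ε).IsRegular := by
  classical
  let _ : Fintype (Bool × BM σ κ) := Fintype.ofFinite _
  exact ⟨Bool × BM σ κ, inferInstance,
    ⟨stepX δ o s0 κ ε, (true, bm0 κ), {s | outX o κ s = true}⟩, rfl⟩

end reg

/-! ### The machine on units -/

/-- The map of an action. -/
def actf : Act → List Bool → List Bool
  | .cont => bmap δ o s0 κ ε
  | .fwd => mealy δ o s0
  | .bwd => mealy (fun s c => δ s (xor c (o s))) o s0
  | .idle => id

theorem mealy_inverse (s : σ) (w : List Bool) :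
    mealy (fun s c => δ s (xor c (o s))) o s (mealy δ o s w) = w := by
  induction w generalizing s with
  | nil => rfl
  | cons c w ih =>
    simp only [mealy]
    have : xor (xor c (o s)) (o s) = c := by cases c <;> cases o s <;> rfl
    rw [this, ih]

theorem mealy_run (i : Bool) (s : σ) (w : List Bool) :
    mealy (stepB δ o s0 κ ε) (outB o κ) (.run i s) w =
      mealy (fun s c => δ s (xor c (i && o s))) o s w := by
  induction w generalizing s with
  | nil => rfl
  | cons c w ih =>
    simp only [mealy, stepB, outB]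
    rw [ih]

theorem mealy_dead (w : List Bool) :
    mealy (stepB δ o s0 κ ε) (outB o κ) .dead w = w := by
  induction w with
  | nil => rfl
  | cons c w ih =>
    simp only [mealy, stepB, outB]
    rw [ih]
    simp

theorem mealy_afterUnit (a : Act) (w : List Bool) :
    mealy (stepB δ o s0 κ ε) (outB o κ) (afterUnit s0 κ a) w = actf δ o s0 κ ε a w := by
  cases a
  · rfl
  · simp only [afterUnit, actf, mealy_run]
    simp
  · simp only [afterUnit, actf, mealy_run]
    simp
  · simp only [afterUnit, actf, mealy_dead]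
    rfl

theorem mealy_unit_short (l : {l : List Bool // l.length ≤ κ}) (u : List Bool)
    (h : l.1.length + u.length < κ) :
    mealy (stepB δ o s0 κ ε) (outB o κ) (.unit l) u = u := by
  induction u generalizing l with
  | nil => rfl
  | cons c u ih =>
    rw [List.length_cons] at h
    simp only [mealy, stepB, outB]
    rw [dif_pos (by omega), ih _ (by simp; omega)]
    simp

theorem mealy_unit_full (l : {l : List Bool // l.length ≤ κ}) (u N : List Bool)
    (h : l.1.length + u.length = κ) (hu : u ≠ []) :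
    mealy (stepB δ o s0 κ ε) (outB o κ) (.unit l) (u ++ N) =
      u ++ actf δ o s0 κ ε (beta ε (val (l.1 ++ u))) N := by
  induction u generalizing l with
  | nil => exact absurd rfl hu
  | cons c u ih =>
    rw [List.length_cons] at h
    rw [List.cons_append]
    simp only [mealy, outB]
    by_cases hu' : u = []
    · subst hu'
      simp only [List.length_nil] at h
      have e : stepB δ o s0 κ ε (.unit l) c = afterUnit s0 κ (beta ε (val (l.1 ++ [c]))) := by
        simp only [stepB]
        rw [dif_neg (by omega)]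
      rw [e, List.nil_append, mealy_afterUnit]
      simp
    · have hpos : 0 < u.length := List.length_pos_of_ne_nil hu'
      have e : stepB δ o s0 κ ε (.unit l) c = .unit ⟨l.1 ++ [c], by simp; omega⟩ := by
        simp only [stepB]
        rw [dif_pos (by omega)]
      rw [e, ih _ (by simp; omega) hu']
      simp [List.append_assoc]

theorem bmap_short (u : List Bool) (h : u.length < κ) : bmap δ o s0 κ ε u = u :=
  mealy_unit_short δ o s0 κ ε ⟨[], by simp⟩ u (by simpa using h)

theorem bmap_unit (hκ : 0 < κ) (u N : List Bool) (h : u.length = κ) :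
    bmap δ o s0 κ ε (u ++ N) = u ++ actf δ o s0 κ ε (beta ε (val u)) N :=
  mealy_unit_full δ o s0 κ ε ⟨[], by simp⟩ u N (by simpa using h) (by
    intro h'
    rw [h'] at h
    simp at h
    omega)

theorem actf_nil (a : Act) : actf δ o s0 κ ε a [] = [] := by cases a <;> rfl

theorem iterate_bmap_unit (hκ : 0 < κ) (u N : List Bool) (h : u.length = κ) (m : ℕ) :
    (bmap δ o s0 κ ε)^[m] (u ++ N) = u ++ (actf δ o s0 κ ε (beta ε (val u)))^[m] N := by
  induction m generalizing N with
  | zero => rfl
  | succ m ih =>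
    rw [Function.iterate_succ_apply, bmap_unit δ o s0 κ ε hκ u N h, ih,
      Function.iterate_succ_apply]

theorem iterate_bmap_short (u : List Bool) (h : u.length < κ) (m : ℕ) :
    (bmap δ o s0 κ ε)^[m] u = u := by
  induction m with
  | zero => rfl
  | succ m ih => rw [Function.iterate_succ_apply', ih, bmap_short δ o s0 κ ε u h]

/-! ### The map `Z` -/

/-- The odometer followed by the `m`-th power of the unit machine. -/
def Z (m : ℕ) (w : List Bool) : List Bool := (bmap δ o s0 κ ε)^[m] (inc w)

theorem treeAut_langX' (w : List Bool) :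
    treeAut (langX δ o s0 κ ε) w = Z δ o s0 κ ε 1 w := treeAut_langX δ o s0 κ ε w

/-- Portrait of `Z`. -/
def ZP (m : ℕ) : Set (List Bool) := mulP (pw (langB δ o s0 κ ε) m) odo

theorem treeAut_ZP (m : ℕ) (w : List Bool) :
    treeAut (ZP δ o s0 κ ε m) w = Z δ o s0 κ ε m w := by
  unfold ZP Z
  rw [treeAut_mulP, treeAut_pw, treeAut_odo]
  congr 1
  funext w
  exact treeAut_langB δ o s0 κ ε w

theorem inc_unit (κ v : ℕ) (N : List Bool) (h : v + 1 < 2 ^ κ) :
    inc (bits κ v ++ N) = bits κ (v + 1) ++ N := by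
  have e : bits κ v ++ N = bits (κ + N.length) (v + 2 ^ κ * val N) := by
    rw [bits_add]
    congr 1
    · apply bits_congr; simp
    · rw [Nat.add_mul_div_left _ _ (by positivity), Nat.div_eq_of_lt (by omega), zero_add, bits_val]
  rw [e, inc_bits, bits_add]
  congr 1
  · apply bits_congr
    rw [show v + 2 ^ κ * val N + 1 = (v + 1) + 2 ^ κ * val N by ring, Nat.add_mul_mod_self_left]
  · rw [show v + 2 ^ κ * val N + 1 = (v + 1) + 2 ^ κ * val N by ring,
      Nat.add_mul_div_left _ _ (by positivity), Nat.div_eq_of_lt h, zero_add, bits_val]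

theorem inc_wrap (κ : ℕ) (N : List Bool) :
    inc (bits κ (2 ^ κ - 1) ++ N) = bits κ 0 ++ inc N := by
  have hpos : 0 < 2 ^ κ := by positivity
  have e : bits κ (2 ^ κ - 1) ++ N = bits (κ + N.length) ((2 ^ κ - 1) + 2 ^ κ * val N) := by
    rw [bits_add]
    congr 1
    · apply bits_congr; simp
    · rw [Nat.add_mul_div_left _ _ hpos, Nat.div_eq_of_lt (by omega), zero_add, bits_val]
  have e2 : (2 ^ κ - 1) + 2 ^ κ * val N + 1 = 0 + 2 ^ κ * (val N + 1) := by
    rw [Nat.mul_succ]; omega
  rw [e, inc_bits, bits_add, e2]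
  congr 1
  · apply bits_congr; simp
  · rw [Nat.add_mul_div_left _ _ hpos, Nat.zero_div, zero_add, ← inc_bits, bits_val]

theorem val_bits_lt (κ v : ℕ) (h : v < 2 ^ κ) : val (bits κ v) = v := by
  rw [val_bits, Nat.mod_eq_of_lt h]

theorem Z_step (hκ : 0 < κ) (m v : ℕ) (N : List Bool) (h : v + 1 < 2 ^ κ) :
    Z δ o s0 κ ε m (bits κ v ++ N) =
      bits κ (v + 1) ++ (actf δ o s0 κ ε (beta ε (v + 1)))^[m] N := by
  unfold Z
  rw [inc_unit κ v N h, iterate_bmap_unit δ o s0 κ ε hκ _ _ (by simp), val_bits_lt κ _ h]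

theorem Z_wrap (hκ : 0 < κ) (m : ℕ) (N : List Bool) :
    Z δ o s0 κ ε m (bits κ (2 ^ κ - 1) ++ N) = bits κ 0 ++ Z δ o s0 κ ε m N := by
  unfold Z
  rw [inc_wrap κ N, iterate_bmap_unit δ o s0 κ ε hκ _ _ (by simp),
    val_bits_lt κ 0 (by positivity)]
  rfl

/-- The tail at a unit value. -/
def E (m v : ℕ) (D : List Bool) : List Bool := if ε v then (mealy δ o s0)^[m] D else D

theorem bwd_fwd (m : ℕ) (D : List Bool) :
    (mealy (fun s c => δ s (xor c (o s))) o s0)^[m] ((mealy δ o s0)^[m] D) = D := by
  induction m generalizing D with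
  | zero => rfl
  | succ m ih =>
    rw [Function.iterate_succ_apply', Function.iterate_succ_apply (mealy δ o s0), ih,
      mealy_inverse]

theorem Z_E (hκ : 0 < κ) (m v : ℕ) (D : List Bool) (hv : 1 ≤ v) (h : v + 1 < 2 ^ κ) :
    Z δ o s0 κ ε m (bits κ v ++ E δ o s0 ε m v D) =
      bits κ (v + 1) ++ E δ o s0 ε m (v + 1) D := by
  rw [Z_step δ o s0 κ ε hκ m v _ h]
  congr 1
  unfold beta E
  rw [if_neg (by omega), Nat.add_sub_cancel]
  rcases hx : ε v with _ | _ <;> rcases hy : ε (v + 1) with _ | _
  · simp [actf]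
  · simp [actf]
  · simp only [if_true, Bool.true_eq_false, if_false, Bool.false_eq_true]
    exact bwd_fwd δ o s0 m D
  · simp [actf]

theorem Z_path (hκ : 0 < κ) (m v c : ℕ) (D : List Bool) (hv : 1 ≤ v) (h : v + c < 2 ^ κ) :
    (Z δ o s0 κ ε m)^[c] (bits κ v ++ E δ o s0 ε m v D) =
      bits κ (v + c) ++ E δ o s0 ε m (v + c) D := by
  induction c with
  | zero => rfl
  | succ c ih =>
    rw [Function.iterate_succ_apply', ih (by omega), Z_E δ o s0 κ ε hκ m _ D (by omega) (by omega)]
    rfl

/-- An idle path: `ε` is constant. -/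
theorem Z_idle (hκ : 0 < κ) (m v c : ℕ) (N : List Bool) (hv : 1 ≤ v) (h : v + c < 2 ^ κ)
    (hε : ∀ j ≤ c, ε (v + j) = ε v) :
    (Z δ o s0 κ ε m)^[c] (bits κ v ++ N) = bits κ (v + c) ++ N := by
  induction c with
  | zero => rfl
  | succ c ih =>
    rw [Function.iterate_succ_apply', ih (by omega) (fun j hj => hε j (by omega)),
      Z_step δ o s0 κ ε hκ m _ N (by omega)]
    have hb : beta ε (v + c + 1) = .idle := by
      unfold beta
      rw [if_neg (by omega), if_pos]
      rw [Nat.add_sub_cancel, hε c (by omega)]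
      exact (hε (c + 1) le_rfl).symm
    rw [hb]
    have : (actf δ o s0 κ ε .idle)^[m] N = N := by
      simp only [actf, Function.iterate_id, id]
    rw [this]
    rfl

/-- A full cycle from a good unit value. -/
theorem Z_cycle (hκ : 0 < κ) (m v : ℕ) (N : List Bool) (hv : 1 ≤ v) (hv2 : v < 2 ^ κ)
    (hεv : ε v = false) (hε1 : ε 1 = false) (hεl : ε (2 ^ κ - 1) = false) :
    (Z δ o s0 κ ε m)^[2 ^ κ] (bits κ v ++ N) = bits κ v ++ Z δ o s0 κ ε (2 * m) N := by
  have hE : ∀ v, ε v = false → ∀ N, E δ o s0 ε m v N = N := by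
    intro v h N
    simp [E, h]
  have h2 : 2 ≤ 2 ^ κ := by
    calc 2 = 2 ^ 1 := rfl
      _ ≤ 2 ^ κ := Nat.pow_le_pow_right (by norm_num) hκ
  have e : 2 ^ κ = (v - 1) + (1 + (1 + (2 ^ κ - 1 - v))) := by omega
  rw [e, Function.iterate_add_apply, Function.iterate_add_apply, Function.iterate_add_apply]
  have p1 := Z_path δ o s0 κ ε hκ m v (2 ^ κ - 1 - v) N hv (by omega)
  rw [hE v hεv, show v + (2 ^ κ - 1 - v) = 2 ^ κ - 1 by omega, hE _ hεl] at p1
  rw [p1, Function.iterate_one, Z_wrap δ o s0 κ ε hκ]
  rw [Z_step δ o s0 κ ε hκ m 0 _ (by omega)]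
  have hb : beta ε (0 + 1) = .cont := by simp [beta]
  rw [hb]
  have e3 : (actf δ o s0 κ ε .cont)^[m] (Z δ o s0 κ ε m N) = Z δ o s0 κ ε (2 * m) N := by
    unfold Z actf
    rw [← Function.iterate_add_apply, two_mul]
  rw [e3]
  have p2 := Z_path δ o s0 κ ε hκ m 1 (v - 1) (Z δ o s0 κ ε (2 * m) N) le_rfl (by omega)
  rw [hE 1 hε1, show 1 + (v - 1) = v by omega, hE _ hεv] at p2
  exact p2

/-- A word made of units. -/
def flat (κ : ℕ) (us : List ℕ) : List Bool := us.flatMap (bits κ)

theorem length_flat (us : List ℕ) : (flat κ us).length = κ * us.length := by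
  induction us with
  | nil => simp [flat]
  | cons v us ih =>
    rw [show flat κ (v :: us) = bits κ v ++ flat κ us from rfl, List.length_append, ih]
    simp [Nat.mul_succ]
    ring

theorem flat_append (us vs : List ℕ) : flat κ (us ++ vs) = flat κ us ++ flat κ vs := by
  simp [flat]

/-- A unit value is good. -/
def Good (κ : ℕ) (ε : ℕ → Bool) (v : ℕ) : Prop := 1 ≤ v ∧ v < 2 ^ κ ∧ ε v = false

theorem Z_units (hκ : 0 < κ) (hε1 : ε 1 = false) (hεl : ε (2 ^ κ - 1) = false)
    (us : List ℕ) (hus : ∀ v ∈ us, Good κ ε v) (m c : ℕ) (N : List Bool) :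
    (Z δ o s0 κ ε m)^[c * 2 ^ (κ * us.length)] (flat κ us ++ N) =
      flat κ us ++ (Z δ o s0 κ ε (2 ^ us.length * m))^[c] N := by
  induction us generalizing m c N with
  | nil => simp [flat]
  | cons v us ih =>
    obtain ⟨h1, h2, h3⟩ := hus v (by simp)
    have key : ∀ j N, (Z δ o s0 κ ε m)^[j * 2 ^ κ] (bits κ v ++ N) =
        bits κ v ++ (Z δ o s0 κ ε (2 * m))^[j] N := by
      intro j
      induction j with
      | zero => intro N; simp
      | succ j ihj =>
        intro N
        rw [Nat.succ_mul, Nat.add_comm, Function.iterate_add_apply, ihj,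
          Z_cycle δ o s0 κ ε hκ m v _ h1 h2 h3 hε1 hεl, Function.iterate_succ_apply']
    have e1 : flat κ (v :: us) = bits κ v ++ flat κ us := rfl
    rw [e1, List.append_assoc, List.append_assoc]
    rw [show c * 2 ^ (κ * (v :: us).length) = (c * 2 ^ (κ * us.length)) * 2 ^ κ by
      rw [List.length_cons, Nat.mul_succ, pow_add]; ring]
    rw [key, ih (fun v hv => hus v (by simp [hv]))]
    rw [List.length_cons, pow_succ, show 2 ^ us.length * (2 * m) = 2 ^ us.length * 2 * m by ring]

/-! ### Level transitivity -/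

theorem Z_unit_any (hκ : 0 < κ) (m v t : ℕ) (N : List Bool) :
    ∃ N' : List Bool, N'.length = N.length ∧
      (Z δ o s0 κ ε m)^[t] (bits κ v ++ N) = bits κ (v + t) ++ N' := by
  have hlen : ∀ w : List Bool, (Z δ o s0 κ ε m w).length = w.length := by
    intro w
    rw [← treeAut_ZP]
    simp
  induction t with
  | zero => exact ⟨N, rfl, rfl⟩
  | succ t ih =>
    obtain ⟨N', hN', h⟩ := ih
    rw [Function.iterate_succ_apply', h]
    have hlt : (v + t) % 2 ^ κ < 2 ^ κ := Nat.mod_lt _ (by positivity)
    have hb : bits κ (v + t) = bits κ ((v + t) % 2 ^ κ) := (bits_mod _ _).symm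
    rw [hb]
    rcases Nat.lt_or_ge ((v + t) % 2 ^ κ + 1) (2 ^ κ) with h1 | h1
    · rw [Z_step δ o s0 κ ε hκ m _ N' h1]
      have hl := hlen (bits κ ((v + t) % 2 ^ κ) ++ N')
      rw [Z_step δ o s0 κ ε hκ m _ N' h1] at hl
      refine ⟨(actf δ o s0 κ ε (beta ε ((v + t) % 2 ^ κ + 1)))^[m] N', ?_, ?_⟩
      · simp only [List.length_append, length_bits] at hl
        omega
      · congr 1
        apply bits_congr
        rw [show v + (t + 1) = v + t + 1 by ring, Nat.add_mod (v + t) 1,
          Nat.add_mod ((v + t) % 2 ^ κ) 1, Nat.mod_mod]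
    · have h2 : (v + t) % 2 ^ κ = 2 ^ κ - 1 := by omega
      rw [h2, Z_wrap δ o s0 κ ε hκ]
      refine ⟨Z δ o s0 κ ε m N', by rw [hlen, hN'], ?_⟩
      congr 1
      apply bits_congr
      rw [show v + (t + 1) = v + t + 1 by ring, Nat.add_mod (v + t) 1, h2]
      rcases Nat.lt_or_ge 1 (2 ^ κ) with h3 | h3
      · rw [Nat.mod_eq_of_lt h3, show 2 ^ κ - 1 + 1 = 2 ^ κ by omega]
        simp
      · have h4 : 2 ^ κ = 1 := by
          have : 0 < 2 ^ κ := by positivity
          omega
        rw [h4]

theorem ZP_levelTransitive (hκ : 0 < κ) (hε1 : ε 1 = false) (hεl : ε (2 ^ κ - 1) = false)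
    (m : ℕ) : LevelTransitive (ZP δ o s0 κ ε m) := by
  have hit : ∀ m t w, (treeAut (ZP δ o s0 κ ε m))^[t] w = (Z δ o s0 κ ε m)^[t] w := by
    intro m t w
    have : treeAut (ZP δ o s0 κ ε m) = Z δ o s0 κ ε m := funext (treeAut_ZP δ o s0 κ ε m)
    rw [this]
  have main : ∀ n m (v w : List Bool), v.length = n → w.length = n →
      ∃ t, (Z δ o s0 κ ε m)^[t] v = w := by
    intro n
    induction n using Nat.strong_induction_on with
    | _ n ih =>
      intro m v w hv hw
      rcases Nat.lt_or_ge n κ with hn | hn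
      · -- only the odometer
        obtain ⟨t, ht⟩ := odo_levelTransitive v w (by omega)
        refine ⟨t, ?_⟩
        have : ∀ t, (Z δ o s0 κ ε m)^[t] v = (treeAut odo)^[t] v := by
          intro t
          induction t with
          | zero => rfl
          | succ t iht =>
            rw [Function.iterate_succ_apply', iht, Function.iterate_succ_apply', treeAut_odo]
            unfold Z
            exact iterate_bmap_short δ o s0 κ ε _ (by simp; omega) m
        rw [this, ht]
      · have hunit : ∀ x : List Bool, x.length = n → ∃ t N, N.length = n - κ ∧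
            (Z δ o s0 κ ε m)^[t] x = bits κ 1 ++ N := by
          intro x hx
          have hxs : x = bits κ (val (x.take κ)) ++ x.drop κ := by
            have := bits_val (x.take κ)
            rw [List.length_take, min_eq_left (by omega)] at this
            rw [this, List.take_append_drop]
          have hlt : val (x.take κ) < 2 ^ κ := by
            have := val_bits κ (val (x.take κ))
            have h2 := bits_val (x.take κ)
            rw [List.length_take, min_eq_left (by omega)] at h2
            rw [h2] at this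
            rw [this]
            exact Nat.mod_lt _ (by positivity)
          obtain ⟨N', hN', h⟩ := Z_unit_any δ o s0 κ ε hκ m (val (x.take κ))
            (2 ^ κ + 1 - val (x.take κ)) (x.drop κ)
          rw [← hxs] at h
          refine ⟨2 ^ κ + 1 - val (x.take κ), N', by rw [hN', List.length_drop, hx], ?_⟩
          rw [h]
          congr 1
          apply bits_congr
          rw [show val (x.take κ) + (2 ^ κ + 1 - val (x.take κ)) = 1 + 2 ^ κ by omega]
          simp
        obtain ⟨t1, N1, hN1, e1⟩ := hunit v hv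
        obtain ⟨t3, N3, hN3, e3⟩ := hunit w hw
        obtain ⟨t2, e2⟩ := ih (n - κ) (by omega) (2 * m) N1 N3 hN1 hN3
        have h1lt : 1 < 2 ^ κ := Nat.one_lt_two_pow (by omega)
        have hu := Z_units δ o s0 κ ε hκ hε1 hεl [1] (by
          intro v hv
          simp only [List.mem_singleton] at hv
          subst hv
          exact ⟨le_rfl, h1lt, hε1⟩) m t2 N1
        simp only [flat, List.flatMap_cons, List.flatMap_nil, List.append_nil, List.length_cons,
          List.length_nil, zero_add, pow_one, mul_one] at hu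
        rw [e2] at hu
        have h4 : (Z δ o s0 κ ε m)^[t2 * 2 ^ κ + t1] v = (Z δ o s0 κ ε m)^[t3] w := by
          rw [Function.iterate_add_apply, e1, e3, hu]
        refine ⟨(2 ^ n * t3 - t3) + (t2 * 2 ^ κ + t1), ?_⟩
        rw [Function.iterate_add_apply, h4, ← Function.iterate_add_apply]
        have h5 : 2 ^ n * t3 - t3 + t3 = 2 ^ n * t3 := by
          have : 1 * t3 ≤ 2 ^ n * t3 := Nat.mul_le_mul_right _ Nat.one_le_two_pow
          omega
        rw [h5, ← hit]
        exact iterate_mul_two_pow _ n t3 w (by omega)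
  intro v w h
  obtain ⟨t, ht⟩ := main v.length m v w rfl h.symm
  exact ⟨t, by rw [hit, ht]⟩

theorem langX_levelTransitive (hκ : 0 < κ) (hε1 : ε 1 = false) (hεl : ε (2 ^ κ - 1) = false) :
    LevelTransitive (langX δ o s0 κ ε) := by
  have h : treeAut (langX δ o s0 κ ε) = treeAut (ZP δ o s0 κ ε 1) := by
    funext w
    rw [treeAut_langX', treeAut_ZP]
  unfold LevelTransitive
  rw [h]
  exact ZP_levelTransitive δ o s0 κ ε hκ hε1 hεl 1

end Pool.Agent.H9
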