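import Pool.Agent.H9.Query

/-! Roots of tree automorphisms in polynomial space; regular languages in P. -/

namespace Pool.Agent.H9

open Pool.Agent.PPS

/-! ### Exponents -/

theorem exists_inv (q : ℕ) (hq : Odd q) (E : ℕ) : ∃ m, q * m ≡ 1 [MOD 2 ^ E] := by
  have hcop : Nat.Coprime q (2 ^ E) := (Nat.Coprime.pow_right E (Nat.coprime_two_right.2 hq))
  rcases Nat.eq_zero_or_pos E with h0 | h0
  · subst h0; exact ⟨0, by simp [Nat.modEq_one]⟩
  · obtain ⟨m, hm⟩ := Nat.exists_mul_mod_eq_one_of_coprime hcop
      (Nat.one_lt_two_pow (by omega))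
    refine ⟨m, ?_⟩
    unfold Nat.ModEq
    rw [hm.2, Nat.mod_eq_of_lt (Nat.one_lt_two_pow (by omega))]

/-- Inverse of `q` modulo `2^E`. -/
noncomputable def ex (q : ℕ) (hq : Odd q) (E : ℕ) : ℕ := (exists_inv q hq E).choose

theorem ex_spec (q : ℕ) (hq : Odd q) (E : ℕ) : q * ex q hq E ≡ 1 [MOD 2 ^ E] :=
  (exists_inv q hq E).choose_spec

theorem ex_congr (q : ℕ) {a b E : ℕ} (ha : q * a ≡ 1 [MOD 2 ^ E])
    (hb : q * b ≡ 1 [MOD 2 ^ E]) : a ≡ b [MOD 2 ^ E] := by
  have h1 : a * (q * b) ≡ a * 1 [MOD 2 ^ E] := hb.mul_left a
  have h2 : (q * a) * b ≡ 1 * b [MOD 2 ^ E] := ha.mul_right b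
  rw [show a * (q * b) = (q * a) * b by ring] at h1
  simpa using (h1.symm.trans h2)

/-- The root of a language. -/
noncomputable def root (q : ℕ) (hq : Odd q) (A : Set (List Bool)) : Set (List Bool) :=
  {w | ∃ u, (treeAut A)^[ex q hq (w.length + 1)] (w ++ [false]) = u ++ [true]}

theorem memB_root (q : ℕ) (hq : Odd q) (A : Set (List Bool)) (w : List Bool) :
    memB (root q hq A) w = orbSum A w (ex q hq (w.length + 1)) := by
  unfold memB
  have h := iterate_snoc A w false (ex q hq (w.length + 1))
  rw [Bool.xor_false] at h
  rcases ho : orbSum A w (ex q hq (w.length + 1)) with _ | _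
  · have : w ∉ root q hq A := by
      rintro ⟨u, hu⟩
      rw [h, ho] at hu
      have := List.append_inj_right' hu rfl
      simp at this
    simpa using this
  · have : w ∈ root q hq A := by
      refine ⟨(treeAut A)^[ex q hq (w.length + 1)] w, ?_⟩
      rw [h, ho]
    simpa using this

theorem treeAut_root (q : ℕ) (hq : Odd q) (A : Set (List Bool)) (n : ℕ) (w : List Bool)
    (hw : w.length ≤ n) : treeAut (root q hq A) w = (treeAut A)^[ex q hq n] w := by
  induction w using List.reverseRecOn with
  | nil =>
    have : ∀ k, (treeAut A)^[k] [] = [] := by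
      intro k
      induction k with
      | zero => rfl
      | succ k ihk => rw [Function.iterate_succ_apply', ihk]; simp
    rw [this]; simp
  | append_singleton w b ih =>
    simp only [List.length_append, List.length_cons, List.length_nil, zero_add] at hw
    have h1 : ex q hq n ≡ ex q hq (w.length + 1) [MOD 2 ^ (w.length + 1)] :=
      ex_congr q ((ex_spec q hq n).of_dvd (pow_dvd_pow 2 (by omega))) (ex_spec q hq _)
    rw [treeAut_snoc', memB_root, ih (by omega)]
    rw [iterate_congr_mod A (w.length + 1) _ _ (w ++ [b]) (by simp) h1]
    rw [iterate_congr_mod A (w.length + 1) _ _ w (by simp) h1]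
    rw [iterate_snoc]

theorem root_iterate (q : ℕ) (hq : Odd q) (A : Set (List Bool)) (w : List Bool) :
    (treeAut (root q hq A))^[q] w = treeAut A w := by
  have h : ∀ k, (treeAut (root q hq A))^[k] w = (treeAut A)^[ex q hq w.length * k] w := by
    intro k
    induction k with
    | zero => simp
    | succ k ih =>
      rw [Function.iterate_succ_apply', ih, treeAut_root q hq A w.length _ (by simp),
        ← Function.iterate_add_apply]
      congr 1
      ring
  rw [h, Nat.mul_comm, iterate_congr_mod A w.length _ 1 w le_rfl (ex_spec q hq _)]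
  rfl

/-- If `f^{qN} w = f w` then `f^N w` is the root. -/
theorem iterate_of_cycle (q : ℕ) (hq : Odd q) (A : Set (List Bool)) (N : ℕ) (w : List Bool)
    (h : (treeAut A)^[q * N] w = treeAut A w) :
    (treeAut A)^[N] w = (treeAut A)^[ex q hq w.length] w := by
  set f := treeAut A with hf
  have hpow : ∀ j, f^[q * N * j] w = f^[j] w := by
    intro j
    induction j with
    | zero => rfl
    | succ j ih =>
      rw [Nat.mul_succ, Function.iterate_add_apply, h, ← Function.iterate_succ_apply,
        Nat.succ_eq_add_one]
      rw [Function.iterate_succ_apply', Function.iterate_succ_apply', ih]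
  rw [← hpow (ex q hq w.length)]
  have h1 : N ≡ q * N * ex q hq w.length [MOD 2 ^ w.length] := by
    have := (ex_spec q hq w.length).mul_left N
    rw [Nat.mul_one] at this
    refine this.symm.trans ?_
    rw [show N * (q * ex q hq w.length) = q * N * ex q hq w.length by ring]
  exact iterate_congr_mod A w.length _ _ w le_rfl h1

theorem exists_cycle (q : ℕ) (hq : Odd q) (A : Set (List Bool)) (w : List Bool) :
    ∃ N, (treeAut A)^[q * N] w = treeAut A w :=
  ⟨ex q hq w.length, by
    rw [iterate_congr_mod A w.length _ 1 w le_rfl (ex_spec q hq _)]; rfl⟩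

/-! ### Computing tree automorphisms -/

section pt

variable {m : Bool}

theorem foldl_treeAut (A : Set (List Bool)) (w : List Bool) :
    w.foldl (fun y b => (y.1 ++ [b], y.2 ++ [xor (memB A y.1) b])) (([] : List Bool),
      ([] : List Bool)) = (w, treeAut A w) := by
  induction w using List.reverseRecOn with
  | nil => simp
  | append_singleton w b ih =>
    rw [List.foldl_append, ih, treeAut_snoc']
    rfl

theorem size_treeAut (A : Set (List Bool)) (w : List Bool) :
    size (treeAut A w) ≤ 4 * w.length + 1 := by
  have := (size_bits (treeAut A w)).2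
  rwa [length_treeAut] at this

theorem PT.treeAut' {A : Set (List Bool)} (hA : PT m (fun w => memB A w)) :
    PT m (fun w => treeAut A w) := by
  have h1 := PT.foldl (m := m) (l := fun w : List Bool => w)
    (ini := fun _ => (([] : List Bool), ([] : List Bool)))
    (s := fun z : List Bool × ((List Bool × List Bool) × Bool) =>
      (z.2.1.1 ++ [z.2.2], z.2.1.2 ++ [xor (memB A z.2.1.1) z.2.2])) (by fun_prop) (by fun_prop)
    (by
      have : PT m (fun z : List Bool × ((List Bool × List Bool) × Bool) => memB A z.2.1.1) :=
        hA.comp (f := fun z : List Bool × ((List Bool × List Bool) × Bool) => z.2.1.1)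
          (by fun_prop)
      fun_prop)
    (8 * Polynomial.X + 3) (by
      intro w k
      have := foldl_treeAut A (w.take k)
      simp only at this ⊢
      rw [this, size_pair]
      have h1 := (size_bits (w.take k)).2
      have h2 := size_treeAut A (w.take k)
      have h3 : (w.take k).length ≤ w.length := List.length_take_le' _ _
      have h4 := length_le_size' w
      simp only [Polynomial.eval_add, Polynomial.eval_mul, Polynomial.eval_X,
        Polynomial.eval_ofNat]
      omega)
  have h2 := (PT.snd (m := m)).comp h1
  refine h2.of_eq (fun w => ?_)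
  have := foldl_treeAut A w
  simp only at this ⊢
  rw [this]

theorem PT.iterate_treeAut {A : Set (List Bool)} (hA : PT m (fun w => memB A w)) (k : ℕ) :
    PT m (fun w => (treeAut A)^[k] w) := by
  induction k with
  | zero => exact PT.id
  | succ k ih =>
    have := (PT.treeAut' hA).comp ih
    refine this.of_eq (fun w => ?_)
    rw [Function.iterate_succ_apply']

theorem mem_PSPACE_iff_memB {A : Set (List Bool)} :
    A ∈ PSPACE ↔ PT false (fun w => memB A w) := by
  rw [mem_PSPACE_iff]
  constructor <;> intro h <;> refine h.of_eq (fun w => ?_) <;> unfold memB <;> congr 1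

theorem mem_P_iff_memB {A : Set (List Bool)} :
    A ∈ Pool.Agent.PPS.P ↔ PT true (fun w => memB A w) := by
  rw [mem_P_iff]
  constructor <;> intro h <;> refine h.of_eq (fun w => ?_) <;> unfold memB <;> congr 1

/-- Roots of languages in `PSPACE` are in `PSPACE`. -/
theorem root_mem_PSPACE (q : ℕ) (hq : Odd q) {A : Set (List Bool)} (hA : A ∈ PSPACE) :
    root q hq A ∈ PSPACE := by
  classical
  rw [mem_PSPACE_iff_memB] at hA ⊢
  let f : List Bool → List Bool := treeAut A
  have hf : PT false f := PT.treeAut' hA
  have hfq : PT false (fun w => f^[q] w) := PT.iterate_treeAut hA q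
  let N : List Bool → ℕ := fun w => Nat.find (exists_cycle q hq A (w ++ [false]))
  have hN : ∀ w, f^[q * N w] (w ++ [false]) = f (w ++ [false]) := fun w =>
    Nat.find_spec (exists_cycle q hq A (w ++ [false]))
  have hN' : ∀ w k, k < N w → f^[q * k] (w ++ [false]) ≠ f (w ++ [false]) := fun w k hk =>
    Nat.find_min (exists_cycle q hq A (w ++ [false])) hk
  let s : List Bool × (List Bool × List Bool) → List Bool × List Bool := fun z =>
    (f z.2.1, f^[q] z.2.2)
  have hit : ∀ (w : List Bool) (k : ℕ), (fun y => s (w, y))^[k] (w ++ [false], w ++ [false]) =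
      (f^[k] (w ++ [false]), f^[q * k] (w ++ [false])) := by
    intro w k
    induction k with
    | zero => rfl
    | succ k ih =>
      rw [Function.iterate_succ_apply', ih]
      simp only [s, Prod.mk.injEq]
      refine ⟨?_, ?_⟩
      · rw [Function.iterate_succ_apply']
      · rw [← Function.iterate_add_apply]
        congr 1
        ring
  have hlen : ∀ (w : List Bool) (k : ℕ), size (f^[k] (w ++ [false])) ≤ 4 * w.length + 5 := by
    intro w k
    have := (size_bits (f^[k] (w ++ [false]))).2
    have h2 : (f^[k] (w ++ [false])).length = w.length + 1 := by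
      show ((treeAut A)^[k] (w ++ [false])).length = _
      rw [length_iterate]; simp
    omega
  have key := PT.loop (m := false) (ini := fun w : List Bool => (w ++ [false], w ++ [false]))
    (s := s) (c := fun z => !(decide (z.2.2 = f (z.1 ++ [false])))) N (by fun_prop)
    (PT.prodMk (hf.comp (f := fun z : List Bool × (List Bool × List Bool) => z.2.1) (by fun_prop))
      (hfq.comp (f := fun z : List Bool × (List Bool × List Bool) => z.2.2) (by fun_prop)))
    (by
      have h1 : PT false (fun z : List Bool × (List Bool × List Bool) => f (z.1 ++ [false])) :=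
        hf.comp (f := fun z : List Bool × (List Bool × List Bool) => z.1 ++ [false]) (by fun_prop)
      exact PT.not' (PT.decideEq (by fun_prop) h1))
    (8 * Polynomial.X + 11) (by
      intro w k _
      rw [hit, size_pair]
      have h1 := hlen w k
      have h2 := hlen w (q * k)
      have h3 := length_le_size' w
      simp only [Polynomial.eval_add, Polynomial.eval_mul, Polynomial.eval_X,
        Polynomial.eval_ofNat]
      omega) (by
      intro w k hk
      rw [hit]
      simpa using hN' w k hk) (by
      intro w
      rw [hit]
      simpa using hN w) (by simp)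
  have h1 : PT false (fun w => (f^[N w] (w ++ [false])).reverse.headD false) := by
    have h2 := (PT.fst (m := false)).comp key
    have h3 : PT false (fun w => f^[N w] (w ++ [false])) := by
      refine h2.of_eq (fun w => ?_)
      rw [hit]
    have h4 := h3.reverse'
    exact PT.headD' h4 (by fun_prop)
  refine h1.of_eq (fun w => ?_)
  rw [memB_root]
  have h2 : f^[N w] (w ++ [false]) = f^[ex q hq (w ++ [false]).length] (w ++ [false]) :=
    iterate_of_cycle q hq A (N w) (w ++ [false]) (hN w)
  rw [h2]
  have h3 : (w ++ [false]).length = w.length + 1 := by simp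
  rw [h3]
  show _ = ((treeAut A)^[ex q hq (w.length + 1)] (w ++ [false])).reverse.headD false
  rw [iterate_snoc]
  simp

/-- Regular languages are in `P`. -/
theorem regular_mem_P {A : Language Bool} (hA : A.IsRegular) : (A : Set (List Bool)) ∈ Pool.Agent.PPS.P := by
  classical
  obtain ⟨σ, _, M, rfl⟩ := hA
  let e := Fintype.equivFin σ
  let N := Fintype.card σ
  refine mem_P_iff_memB.2 ?_
  have hstep : PT true (fun z : Fin N × Bool => e (M.step (e.symm z.1) z.2)) := by
    refine PT.finCase (F := fun z : Fin N × Bool => e (M.step (e.symm z.1) z.2)) (fun i => ?_)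
    have : PT true (fun b : Bool => bif b then e (M.step (e.symm i) true)
        else e (M.step (e.symm i) false)) := by fun_prop
    refine this.of_eq (fun b => ?_)
    cases b <;> rfl
  have hfold : ∀ (w : List Bool) (i : Fin N),
      w.foldl (fun y b => e (M.step (e.symm y) b)) i = e (M.evalFrom (e.symm i) w) := by
    intro w
    induction w with
    | nil => intro i; simp
    | cons b w ih => intro i; rw [List.foldl_cons, ih]; simp [DFA.evalFrom]
  have hsz : ∀ i : Fin N, size i ≤ 2 * N + 1 := by
    intro i
    have h2 : size i = size (i : ℕ) := rfl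
    rw [h2, size_nat]
    omega
  have h1 := PT.foldl (m := true) (l := fun w : List Bool => w) (ini := fun _ => e M.start)
    (s := fun z : List Bool × (Fin N × Bool) => e (M.step (e.symm z.2.1) z.2.2)) (by fun_prop)
    (by fun_prop) (hstep.comp (f := fun z : List Bool × (Fin N × Bool) => z.2) (by fun_prop))
    (Polynomial.C (2 * N + 1)) (by
      intro w k
      simp only [Polynomial.eval_C]
      exact hsz _)
  have h2 : PT true (fun i : Fin N => decide (e.symm i ∈ M.accept)) := by
    have := PT.finCase (m := true) (F := fun z : Fin N × Unit => decide (e.symm z.1 ∈ M.accept))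
      (fun i => by
        show PT true (fun _ : Unit => decide (e.symm i ∈ M.accept))
        fun_prop)
    exact this.comp (f := fun i : Fin N => (i, ())) (by fun_prop)
  have h3 := h2.comp h1
  refine h3.of_eq (fun w => ?_)
  simp only
  rw [hfold, Equiv.symm_apply_apply]
  unfold memB
  rw [decide_eq_decide]
  rw [Equiv.symm_apply_apply]
  rfl

end pt

end Pool.Agent.H9
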